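import Pool.Agent.NPA.BAC

/-!
# BSM/Defs: ultrafilters, the family `G^p` and `L(R)[p]` inside a model of ZF

Everything is inside a model `M` of ZF (class `ZFM`, from `Pool.Agent.H78.ZF`).  `RS` is the set of
all functions from `omega` to `omega` of the model, `Inner K` (from `Pool.Agent.NPA.BZF`) says that
`K` is a transitive class, definable with parameters, which contains all ordinals and is a model
of ZF.
-/

universe u

namespace Pool.Agent.ZFIter.NPA.BSM

open Pool.Agent.H78.ZF Pool.Agent.ZFIter Pool.Agent.ZFIter.NPA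

variable {M : Type u} [ZFM M] {ι : Type}

/-- `u` is an ultrafilter on `omega`. -/
def Uf (u : M) : Prop :=
  (∀ A, A ∈ u → A ⊆ omega) ∧ omega ∈ u ∧ emp ∉ u ∧
  (∀ A B, A ∈ u → B ∈ u → sep A (fun k => k ∈ B) ∈ u) ∧
  (∀ A B, A ∈ u → A ⊆ B → B ⊆ omega → B ∈ u) ∧
  ∀ A, A ⊆ omega → A ∈ u ∨ sep omega (fun k => k ∉ A) ∈ u

instance DR.Uf (s : (ι → M) → M) [DF s] : DR (fun v => Uf (s v)) := by
  unfold BSM.Uf
  infer_instance

/-- `u` contains no singleton: it is nonprincipal. -/
def Nonpr (u : M) : Prop := ∀ n, n ∈ (omega : M) → sing n ∉ u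

instance DR.Nonpr (s : (ι → M) → M) [DF s] : DR (fun v => Nonpr (s v)) := by
  unfold BSM.Nonpr
  infer_instance

/-- `p` is a selective ultrafilter on `omega`: for every partition of `omega` into the sets
`{k : f(k) = n}`, either one of them is in `p`, or some element of `p` meets each of them in at most
one point. -/
def Selective (p : M) : Prop :=
  Uf p ∧ Nonpr p ∧ ∀ f, f ∈ (RS : M) →
    (∃ n, n ∈ (omega : M) ∧ sep omega (fun k => ap f k = n) ∈ p) ∨
      ∃ A, A ∈ p ∧ ∀ j k, j ∈ A → k ∈ A → ap f j = ap f k → j = k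

instance DR.Selective (s : (ι → M) → M) [DF s] : DR (fun v => Selective (s v)) := by
  unfold BSM.Selective
  infer_instance

/-- The Rudin-Keisler image `{B ⊆ omega : f⁻¹[B] ∈ u}`. -/
noncomputable def rkImg (f u : M) : M :=
  sep (pow omega) (fun B => sep omega (fun k => ap f k ∈ B) ∈ u)

instance DF.rkImg (f u : (ι → M) → M) [DF f] [DF u] : DF (fun v => rkImg (f v) (u v)) := by
  unfold BSM.rkImg
  infer_instance

/-- The `u`-limit `{A ⊆ omega : {n : A ∈ s(n)} ∈ u}` of the sequence `s`. -/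
noncomputable def ulim (u s : M) : M :=
  sep (pow omega) (fun A => sep omega (fun n => A ∈ ap s n) ∈ u)

instance DF.ulim (u s : (ι → M) → M) [DF u] [DF s] : DF (fun v => ulim (u v) (s v)) := by
  unfold BSM.ulim
  infer_instance

/-- The family `F` of ultrafilters is closed under Rudin-Keisler images and under `u`-limits of
sequences of members of `F`, for `u ∈ F`. -/
def Closed (F : M) : Prop :=
  (∀ v, v ∈ F → Uf v) ∧
  (∀ v f, v ∈ F → f ∈ (RS : M) → rkImg f v ∈ F) ∧
  ∀ v s, v ∈ F → IsSeq s omega → (∀ n, n ∈ (omega : M) → ap s n ∈ F) → ulim v s ∈ F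

/-- `u` is in the family `G^p`, the smallest family of ultrafilters on `omega` which contains `p` and
is closed under Rudin-Keisler images and under `u`-limits. -/
def InGp (p u : M) : Prop := ∀ F : M, Closed F → p ∈ F → u ∈ F

/-- `z` is in `L(R)[p]`, the least inner model of ZF which contains all reals and `p`. -/
def InLRp (p z : M) : Prop :=
  ∀ (K : M → Prop) [Inner K], (∀ x, x ∈ (RS : M) → K x) → K p → K z

/-- The hypotheses of the tower construction: `κ` is the first uncountable ordinal of the model, there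
are only `κ` many subsets of `omega`, and every inner model with all reals contains `S = (nx, s)`, where
`γ < nx(γ) < κ` for `γ < κ`, and for every limit `β < κ` the value `s(β) = (γ, h)` consists of some
`γ < β` and of a function `h` from `nx(γ)` to `β` with unbounded range. -/
structure TowerHyp (κ S : M) : Prop where
  ord : Ord κ
  om : omega ∈ κ
  ctb : ∀ α, α ∈ κ → Ctb α
  reg : ∀ f, Fun f omega κ → ∃ β, β ∈ κ ∧ ∀ n, n ∈ (omega : M) → ap f n ∈ β
  ch : ∃ c, Fun c κ (pow omega) ∧ ∀ x, x ⊆ (omega : M) → ∃ α, α ∈ κ ∧ ap c α = x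
  lad : ∃ nx s, S = opair nx s ∧ (∀ γ, γ ∈ κ → γ ∈ ap nx γ ∧ ap nx γ ∈ κ) ∧
    ∀ β, β ∈ κ → β ≠ emp → (∀ γ, γ ∈ β → succ γ ∈ β) →
      ∃ γ h, ap s β = opair γ h ∧ γ ∈ β ∧ Fun h (ap nx γ) β ∧
        ∀ δ, δ ∈ β → ∃ ξ, ξ ∈ ap nx γ ∧ δ ∈ ap h ξ
  inK : ∀ (K : M → Prop) [Inner K], (∀ x, x ∈ (RS : M) → K x) → K S

end Pool.Agent.ZFIter.NPA.BSM
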