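import Pool.Agent.BSM.Defs
import Pool.Agent.ZFIter.FBasic

/-!
# BSM/DefsG: inaccessible cardinals, the Levy collapse, generic extensions

`Le P R q p` (from `Pool.Agent.ZFIter.Defs`): `q` and `p` are in `P` and the pair `(q, p)` is in `R`,
read `q ≤ p`.
-/

universe u v

namespace Pool.Agent.ZFIter.NPA.BSM

open Pool.Agent.H78.ZF Pool.Agent.ZFIter Pool.Agent.ZFIter.NPA

variable {M : Type u} [ZFM M] {ι : Type}

/-- `κ` is a (strongly) inaccessible cardinal: it is an ordinal greater than `omega`, every function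
from some `γ < κ` to `κ` is bounded below `κ`, and for every `γ < κ` the power set of `γ` injects into
some `δ < κ`. -/
def Inacc (κ : M) : Prop :=
  Ord κ ∧ omega ∈ κ ∧
  (∀ γ h, γ ∈ κ → Fun h γ κ → ∃ η, η ∈ κ ∧ ∀ ξ, ξ ∈ γ → ap h ξ ∈ η) ∧
  ∀ γ, γ ∈ κ → ∃ δ f, δ ∈ κ ∧ Inj f (pow γ) δ

instance DR.Inacc (s : (ι → M) → M) [DF s] : DR (fun v => Inacc (s v)) := by
  unfold BSM.Inacc
  infer_instance

/-- The Levy collapse `Col(omega, < κ)`: the set of all finite partial functions `p` from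
`κ × omega` to `κ` with `p(α, n) < α`. -/
noncomputable def Lev (κ : M) : M :=
  sep (pow (prod (prod κ omega) κ)) (fun p => FinM p ∧
    (∀ a ξ η, opair a ξ ∈ p → opair a η ∈ p → ξ = η) ∧
    ∀ α n ξ, opair (opair α n) ξ ∈ p → ξ ∈ α)

instance DF.Lev (s : (ι → M) → M) [DF s] : DF (fun v => Lev (s v)) := by
  unfold BSM.Lev
  infer_instance

/-- The order of the Levy collapse: `q ≤ p` iff `q` extends `p`. -/
noncomputable def LevR (κ : M) : M :=
  sep (prod (Lev κ) (Lev κ)) (fun z => ∃ q p, z = opair q p ∧ p ⊆ q)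

instance DF.LevR (s : (ι → M) → M) [DF s] : DF (fun v => LevR (s v)) := by
  unfold BSM.LevR
  infer_instance

/-- `G` is a generic filter over `M` for the forcing notion `(P, R)`: a filter which meets every
dense set of the model. `G` is an arbitrary (external) class. -/
structure Gen (P R : M) (G : M → Prop) : Prop where
  sub : ∀ p, G p → p ∈ P
  ne : ∃ p, G p
  up : ∀ p q, G p → Le P R p q → G q
  dir : ∀ p q, G p → G q → ∃ r, G r ∧ Le P R r p ∧ Le P R r q
  gen : ∀ D : M, (∀ x, x ∈ D → x ∈ P) → (∀ p, p ∈ P → ∃ q, q ∈ D ∧ Le P R q p) → ∃ q, q ∈ D ∧ G q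

/-- `N` with the embedding `i : M → N` is the extension `M[G]`: `i` identifies `M` with a transitive
class of `N` which contains all ordinals of `N`; the set `G` is in `N`; and `N` is least: every
transitive class of `N` which is a model of ZF and contains all elements of `M` and the set `G` is
all of `N`. -/
structure IsExt {N : Type v} [ZFM N] (i : M → N) (G : M → Prop) : Prop where
  mem : ∀ x y, i x ∈ i y ↔ x ∈ y
  trans : ∀ x z, z ∈ i x → ∃ y, z = i y
  ord : ∀ α : N, Ord α → ∃ x, α = i x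
  gen : ∃ g : N, ∀ z, z ∈ g ↔ ∃ q, G q ∧ z = i q
  least : ∀ K : N → Prop, (∀ x y, K y → x ∈ y → K x) →
    IsZFModel (fun x y : {x : N // K x} => x.1 ∈ y.1) → (∀ x, K (i x)) →
    (∀ g : N, (∀ z, z ∈ g ↔ ∃ q, G q ∧ z = i q) → K g) → ∀ z, K z

end Pool.Agent.ZFIter.NPA.BSM
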