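import Pool.Agent.BSM.EDefs

/-!
# BSM/EAbs1: absoluteness of the basic notions for a transitive embedding `i : M → N`

PROOF: port of `Pool.Agent.NPA.BAbs1` (same proofs): there `i` is the inclusion `x ↦ x.1` of an inner
model `Sub K` (definable class); here `i` is an arbitrary `TEm`. Replace `x.1` by `i x`, `K x` by
`∃ x', x = i x'`, `sub_of_mem` by `em_elim` / `TEm.trans`, `Inner.ord` by `TEm.ord`, `sub_inj` by
`em_inj`. The definability of `K` was never used in BAbs1.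
-/

universe u v

namespace Pool.Agent.ZFIter.NPA.BSM

open Pool.Agent.H78.ZF Pool.Agent.ZFIter Pool.Agent.ZFIter.NPA

variable {M : Type u} [ZFM M] {N : Type v} [ZFM N] {i : M → N} [hi : TEm i]

theorem em_sub {x y : M} : i x ⊆ i y ↔ x ⊆ y := by
  constructor
  · intro h z hz
    exact em_mem.1 (h (i z) (em_mem.2 hz))
  · intro h z hz
    obtain ⟨w, hw, rfl⟩ := em_elim.1 hz
    exact em_mem.2 (h w hw)

theorem em_emp : i emp = emp := by
  refine eq_emp fun z hz => ?_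
  obtain ⟨w, hw, _⟩ := em_elim.1 hz
  exact not_mem_emp _ hw

theorem em_upair (x y : M) : i (upair x y) = upair (i x) (i y) := by
  refine ext fun z => ?_
  rw [em_elim, mem_upair]
  constructor
  · rintro ⟨w, hw, rfl⟩
    rw [mem_upair] at hw
    rcases hw with rfl | rfl
    · exact Or.inl rfl
    · exact Or.inr rfl
  · rintro (rfl | rfl)
    · exact ⟨x, (mem_upair _ _ _).2 (Or.inl rfl), rfl⟩
    · exact ⟨y, (mem_upair _ _ _).2 (Or.inr rfl), rfl⟩

theorem em_sing (x : M) : i (sing x) = sing (i x) := em_upair x x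

theorem em_opair (x y : M) : i (opair x y) = opair (i x) (i y) := by
  unfold opair
  rw [em_upair (i := i), em_sing (i := i), em_upair (i := i)]

/-- components of a pair in the range are in the range -/
theorem em_of_opair {a b : N} {x : M} (h : opair a b = i x) :
    ∃ y z, x = opair y z ∧ a = i y ∧ b = i z := by
  have h1 : upair a b ∈ i x := by
    rw [← h]
    simp [opair]
  obtain ⟨w, -, hw⟩ := em_elim.1 h1
  have ha : a ∈ i w := by rw [← hw]; simp
  have hb : b ∈ i w := by rw [← hw]; simp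
  obtain ⟨y, -, rfl⟩ := em_elim.1 ha
  obtain ⟨z, -, rfl⟩ := em_elim.1 hb
  refine ⟨y, z, ?_, rfl, rfl⟩
  apply em_inj (i := i)
  rw [← h, em_opair (i := i)]

theorem em_opair_mem {x y f : M} : opair (i x) (i y) ∈ i f ↔ opair x y ∈ f := by
  rw [← em_opair (i := i), em_mem]

theorem em_opair_elim {a b : N} {f : M} (h : opair a b ∈ i f) :
    ∃ y z, opair y z ∈ f ∧ a = i y ∧ b = i z := by
  obtain ⟨p, hp, e⟩ := em_elim.1 h
  obtain ⟨y, z, rfl, rfl, rfl⟩ := em_of_opair e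
  exact ⟨y, z, hp, rfl, rfl⟩

theorem em_sUn (x : M) : i (sUn x) = sUn (i x) := by
  refine ext fun z => ?_
  rw [em_elim, mem_sUn]
  constructor
  · rintro ⟨w, hw, rfl⟩
    rw [mem_sUn] at hw
    obtain ⟨y, hy, hw⟩ := hw
    exact ⟨i y, em_mem.2 hy, em_mem.2 hw⟩
  · rintro ⟨y, hy, hz⟩
    obtain ⟨y', hy', rfl⟩ := em_elim.1 hy
    obtain ⟨z', hz', rfl⟩ := em_elim.1 hz
    exact ⟨z', (mem_sUn _ _).2 ⟨y', hy', hz'⟩, rfl⟩

theorem em_un (x y : M) : i (un x y) = un (i x) (i y) := by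
  unfold un
  rw [em_sUn (i := i), em_upair (i := i)]

theorem em_ins (x y : M) : i (ins x y) = ins (i x) (i y) := by
  unfold ins
  rw [em_un (i := i), em_sing (i := i)]

theorem em_succ (x : M) : i (succ x) = succ (i x) := em_ins x x

theorem em_omega : i omega = omega := by
  obtain ⟨w, hw⟩ := hi.ord omega ord_omega
  have h1 : Inductive w := by
    constructor
    · rw [← em_mem (i := i), em_emp (i := i), ← hw]
      exact emp_mem_omega
    · intro y hy
      rw [← em_mem (i := i), em_succ (i := i), ← hw]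
      rw [← em_mem (i := i), ← hw] at hy
      exact succ_mem_omega hy
  have h2 : Inductive (i omega) := by
    constructor
    · rw [← em_emp (i := i), em_mem]
      exact emp_mem_omega
    · intro y hy
      obtain ⟨n, hn, rfl⟩ := em_elim.1 hy
      rw [← em_succ (i := i), em_mem]
      exact succ_mem_omega hn
  refine ext fun z => ⟨fun hz => ?_, fun hz => ?_⟩
  · obtain ⟨n, hn, rfl⟩ := em_elim.1 hz
    have h3 := mem_omega.1 hn _ h1
    rw [hw, em_mem]
    exact h3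
  · exact mem_omega.1 hz _ h2

theorem em_num (k : ℕ) : i (num k) = num k := by
  induction k with
  | zero => exact em_emp
  | succ k ih =>
    change i (succ (num k)) = succ (num k)
    rw [em_succ (i := i), ih]

theorem em_prod (x y : M) : i (prod x y) = prod (i x) (i y) := by
  refine ext fun z => ?_
  rw [em_elim, mem_prod]
  constructor
  · rintro ⟨w, hw, rfl⟩
    rw [mem_prod] at hw
    obtain ⟨a, ha, b, hb, rfl⟩ := hw
    exact ⟨i a, em_mem.2 ha, i b, em_mem.2 hb, em_opair a b⟩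
  · rintro ⟨a, ha, b, hb, rfl⟩
    obtain ⟨a', ha', rfl⟩ := em_elim.1 ha
    obtain ⟨b', hb', rfl⟩ := em_elim.1 hb
    refine ⟨opair a' b', ?_, (em_opair a' b').symm⟩
    rw [mem_prod]
    exact ⟨a', ha', b', hb', rfl⟩

theorem mem_em_sep {a : M} {P : M → Prop} [D1 P] {x : N} :
    x ∈ i (sep a P) ↔ ∃ y, y ∈ a ∧ P y ∧ x = i y := by
  rw [em_elim]
  constructor
  · rintro ⟨y, hy, rfl⟩
    rw [mem_sep] at hy
    exact ⟨y, hy.1, hy.2, rfl⟩
  · rintro ⟨y, hy, hP, rfl⟩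
    exact ⟨y, (mem_sep _ _ _).2 ⟨hy, hP⟩, rfl⟩

theorem mem_em_img {a : M} {F : M → M} [F1 F] {y : N} :
    y ∈ i (img a F) ↔ ∃ x, x ∈ a ∧ y = i (F x) := by
  rw [em_elim]
  constructor
  · rintro ⟨w, hw, rfl⟩
    rw [mem_img] at hw
    obtain ⟨x, hx, rfl⟩ := hw
    exact ⟨x, hx, rfl⟩
  · rintro ⟨x, hx, rfl⟩
    exact ⟨F x, (mem_img _ _ _).2 ⟨x, hx, rfl⟩, rfl⟩

theorem em_iota {P : M → Prop} {Q : N → Prop} (h : ∀ x, P x ↔ Q (i x))
    (h' : ∀ z, Q z → ∃ x, z = i x) : i (iota P) = iota Q := by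
  by_cases hu : ∃! x, P x
  · symm
    refine iota_eq ((h _).1 (iota_spec hu)) fun z hz => ?_
    obtain ⟨x, rfl⟩ := h' z hz
    exact congrArg i (hu.unique ((h x).2 hz) (iota_spec hu))
  · have hu' : ¬ ∃! x, Q x := by
      rintro ⟨z, hz, hz'⟩
      obtain ⟨x, rfl⟩ := h' z hz
      exact hu ⟨x, (h x).2 hz, fun y hy => em_inj (hz' (i y) ((h y).1 hy))⟩
    rw [iota_neg hu, iota_neg hu', em_emp (i := i)]

theorem em_ap (f x : M) : i (ap f x) = ap (i f) (i x) := by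
  unfold ap
  refine em_iota (fun y => em_opair_mem.symm) ?_
  intro z hz
  obtain ⟨_, z', _, _, h3⟩ := em_opair_elim hz
  exact ⟨z', h3⟩

theorem em_Trans {x : M} : Trans (i x) ↔ Trans x := by
  constructor
  · intro h y hy
    exact em_sub.1 (h (i y) (em_mem.2 hy))
  · intro h y hy
    obtain ⟨y', hy', rfl⟩ := em_elim.1 hy
    exact em_sub.2 (h y' hy')

theorem em_Ord {x : M} : Ord (i x) ↔ Ord x := by
  constructor
  · intro h
    exact ⟨em_Trans.1 h.1, fun y hy => em_Trans.1 (h.2 (i y) (em_mem.2 hy))⟩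
  · intro h
    refine ⟨em_Trans.2 h.1, fun y hy => ?_⟩
    obtain ⟨y', hy', rfl⟩ := em_elim.1 hy
    exact em_Trans.2 (h.2 y' hy')

private theorem em_exU {f x : M} : (∃! y, opair x y ∈ f) ↔ ∃! y, opair (i x) y ∈ i f := by
  constructor
  · rintro ⟨y, hy, hu⟩
    refine ⟨i y, em_opair_mem.2 hy, fun z hz => ?_⟩
    obtain ⟨x', z', h, h1, rfl⟩ := em_opair_elim hz
    have h2 := em_inj h1
    subst h2
    exact congrArg i (hu _ h)
  · rintro ⟨y, hy, hu⟩
    obtain ⟨x', y', h, h1, rfl⟩ := em_opair_elim hy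
    have h2 := em_inj h1
    subst h2
    exact ⟨y', h, fun z hz => em_inj (hu _ (em_opair_mem.2 hz))⟩

theorem em_Fun {f a b : M} : Fun (i f) (i a) (i b) ↔ Fun f a b := by
  constructor
  · rintro ⟨h1, h2⟩
    refine ⟨fun p hp => ?_, fun x hx => (em_exU (i := i)).2 (h2 (i x) (em_mem.2 hx))⟩
    obtain ⟨x, hx, y, hy, e⟩ := h1 (i p) (em_mem.2 hp)
    obtain ⟨x', hx', rfl⟩ := em_elim.1 hx
    obtain ⟨y', hy', rfl⟩ := em_elim.1 hy
    exact ⟨x', hx', y', hy', em_inj (i := i) (by rw [e, em_opair (i := i)])⟩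
  · rintro ⟨h1, h2⟩
    refine ⟨fun p hp => ?_, fun x hx => ?_⟩
    · obtain ⟨p', hp', rfl⟩ := em_elim.1 hp
      obtain ⟨x, hx, y, hy, rfl⟩ := h1 p' hp'
      exact ⟨i x, em_mem.2 hx, i y, em_mem.2 hy, em_opair x y⟩
    · obtain ⟨x', hx', rfl⟩ := em_elim.1 hx
      exact em_exU.1 (h2 x' hx')

theorem em_Inj {f a b : M} : Inj (i f) (i a) (i b) ↔ Inj f a b := by
  constructor
  · rintro ⟨h1, h2⟩
    exact ⟨em_Fun.1 h1, fun x x' y hx hx' =>
      em_inj (h2 (i x) (i x') (i y) (em_opair_mem.2 hx) (em_opair_mem.2 hx'))⟩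
  · rintro ⟨h1, h2⟩
    refine ⟨em_Fun.2 h1, fun x x' y hx hx' => ?_⟩
    obtain ⟨x₁, y₁, h3, rfl, rfl⟩ := em_opair_elim hx
    obtain ⟨x₂, y₂, h4, rfl, h5⟩ := em_opair_elim hx'
    have h6 := em_inj h5
    subst h6
    exact congrArg i (h2 _ _ _ h3 h4)

theorem em_IsSeq {f a : M} : IsSeq (i f) (i a) ↔ IsSeq f a := by
  constructor
  · rintro ⟨h1, h2⟩
    refine ⟨fun p hp => ?_, fun x hx => (em_exU (i := i)).2 (h2 (i x) (em_mem.2 hx))⟩
    obtain ⟨x, hx, y, e⟩ := h1 (i p) (em_mem.2 hp)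
    obtain ⟨x', y', h3, rfl, rfl⟩ := em_of_opair e.symm
    exact ⟨x', em_mem.1 hx, y', h3⟩
  · rintro ⟨h1, h2⟩
    refine ⟨fun p hp => ?_, fun x hx => ?_⟩
    · obtain ⟨p', hp', rfl⟩ := em_elim.1 hp
      obtain ⟨x, hx, y, rfl⟩ := h1 p' hp'
      exact ⟨i x, em_mem.2 hx, i y, em_opair x y⟩
    · obtain ⟨x', hx', rfl⟩ := em_elim.1 hx
      exact em_exU.1 (h2 x' hx')

theorem em_res (f a : M) : i (res f a) = res (i f) (i a) := by
  refine ext fun z => ?_
  rw [em_elim, mem_res]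
  constructor
  · rintro ⟨w, hw, rfl⟩
    rw [mem_res] at hw
    obtain ⟨hw, x, hx, y, rfl⟩ := hw
    exact ⟨em_mem.2 hw, i x, em_mem.2 hx, i y, em_opair x y⟩
  · rintro ⟨hz, x, hx, y, rfl⟩
    obtain ⟨x', y', h, rfl, rfl⟩ := em_opair_elim hz
    refine ⟨opair x' y', ?_, (em_opair x' y').symm⟩
    rw [mem_res]
    exact ⟨h, x', em_mem.1 hx, y', rfl⟩

/-- for class functions which agree on the range -/
theorem em_img' (a : M) (F : M → M) [F1 F] (G : N → N) [F1 G]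
    (h : ∀ x, x ∈ a → i (F x) = G (i x)) : i (img a F) = img (i a) G := by
  refine ext fun y => ?_
  rw [mem_em_img, mem_img]
  constructor
  · rintro ⟨x, hx, e⟩
    exact ⟨i x, em_mem.2 hx, by rw [e, h x hx]⟩
  · rintro ⟨x, hx, e⟩
    obtain ⟨x', hx', rfl⟩ := em_elim.1 hx
    exact ⟨x', hx', by rw [e, h x' hx']⟩

theorem em_mkf (a b : M) (F : M → M) [F1 F] (G : N → N) [F1 G]
    (h : ∀ x, x ∈ a → i (F x) = G (i x)) : i (mkf a b F) = mkf (i a) (i b) G := by
  refine ext fun z => ?_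
  unfold mkf
  rw [mem_em_sep, mem_sep, ← em_prod (i := i)]
  constructor
  · rintro ⟨y, hy, ⟨x, hx, e⟩, rfl⟩
    refine ⟨em_mem.2 hy, i x, em_mem.2 hx, ?_⟩
    rw [e, em_opair (i := i), h x hx]
  · rintro ⟨hz, x, hx, e⟩
    obtain ⟨z', hz', rfl⟩ := em_elim.1 hz
    obtain ⟨x', hx', rfl⟩ := em_elim.1 hx
    refine ⟨z', hz', ⟨x', hx', em_inj (i := i) ?_⟩, rfl⟩
    rw [e, em_opair (i := i), h x' hx']

theorem em_Ctb {x : M} (h : Ctb x) : Ctb (i x) := by
  obtain ⟨f, hf⟩ := h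
  refine ⟨i f, ?_⟩
  have h1 := (em_Inj (i := i)).2 hf
  rw [em_omega (i := i)] at h1
  exact h1

end Pool.Agent.ZFIter.NPA.BSM
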