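import Pool.Agent.BSM.EAbs1

/-!
# BSM/EAbs2: absoluteness of recursion and of the constructible hierarchy for a transitive embedding

PROOF: port of `Pool.Agent.NPA.BAbs2` (`abs_erec`) and `Pool.Agent.NPA.BAbs3` (`abs_decStep` ...
`abs_hF`, `abs_InL`), with `i x` in place of `x.1`, see the header of `BSM/EAbs1`.
`inner_of_vl`: in `N` the class `InL emp` is included in every inner model `K` (`inL_in` of BAbs3 with
`A = emp`, `abs_emp`); if every set of `M` is constructible then `InL emp (i x)` by `em_InL`.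
-/

universe u v

namespace Pool.Agent.ZFIter.NPA.BSM

open Pool.Agent.H78.ZF Pool.Agent.ZFIter Pool.Agent.ZFIter.NPA

variable {M : Type u} [ZFM M] {N : Type v} [ZFM N] {i : M → N} [hi : TEm i]

private theorem em_rAtt {G : M → M → M} {G' : N → N → N}
    (h : ∀ x g, i (G x g) = G' (i x) (i g)) {t f : M} (hf : RAtt G t f) : RAtt G' (i t) (i f) := by
  refine ⟨em_Trans.2 hf.1, em_IsSeq.2 hf.2.1, fun x hx => ?_⟩
  obtain ⟨y, hy, rfl⟩ := em_elim.1 hx
  rw [← em_ap (i := i), hf.2.2 y hy, h, em_res (i := i)]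

theorem em_erec (G : M → M → M) [F2 G] (G' : N → N → N) [F2 G']
    (h : ∀ x g, i (G x g) = G' (i x) (i g)) (x : M) : i (erec G x) = erec G' (i x) := by
  obtain ⟨t, f, hf, hx⟩ := exists_rAtt (G := G) x
  rw [erec_att hf hx, em_ap (i := i)]
  exact (erec_att (em_rAtt h hf) (em_mem.2 hx)).symm

omit [ZFM M] [ZFM N] hi in
private theorem ex_em {P : M → Prop} {Q : N → Prop} (h : ∀ x : M, P x ↔ Q (i x))
    (hQ : ∀ z, Q z → ∃ x, z = i x) : (∃ x, P x) ↔ ∃ z, Q z := by
  constructor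
  · rintro ⟨x, hx⟩
    exact ⟨i x, (h x).1 hx⟩
  · rintro ⟨z, hz⟩
    obtain ⟨x, rfl⟩ := hQ z hz
    exact ⟨x, (h x).2 hz⟩

private theorem em_tri (j b c : M) : i (tri j b c) = tri (i j) (i b) (i c) := by
  unfold tri
  rw [em_opair (i := i), em_opair (i := i)]

private theorem em_of_tri {j b c : N} {x : M} (h : tri j b c = i x) :
    ∃ j' b' c', x = tri j' b' c' ∧ j = i j' ∧ b = i b' ∧ c = i c' := by
  unfold tri at h
  obtain ⟨y, z, rfl, hy, hz⟩ := em_of_opair h
  obtain ⟨b', c', rfl, hb, hc⟩ := em_of_opair hz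
  exact ⟨y, b', c', rfl, hy, hb, hc⟩

private theorem em_num_elim {j : N} {n : ℕ} (h : j ∈ (num n : N)) :
    ∃ x : M, x ∈ (num n : M) ∧ j = i x := by
  rw [← em_num (i := i)] at h
  exact em_elim.1 h

private theorem em_TLt {j b c j' b' c' : M} :
    TLt j b c j' b' c' ↔ TLt (i j) (i b) (i c) (i j') (i b') (i c') := by
  unfold TLt TL MaxLt
  simp only [em_mem (i := i), em_eq (i := i)]

private theorem em_decStep (α g : M) : i (decStep α g) = decStep (i α) (i g) := by
  unfold decStep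
  apply em_iota
  · intro t
    constructor
    · rintro ⟨j, b, c, rfl, hj, hb, hc, h⟩
      refine ⟨i j, i b, i c, em_tri j b c, ?_, em_Ord.2 hb, em_Ord.2 hc, ?_⟩
      · rw [← em_num (i := i)]
        exact em_mem.2 hj
      · intro j' b' c' hj' hb' hc'
        obtain ⟨j1, hj1, rfl⟩ := em_num_elim (i := i) hj'
        obtain ⟨b1, rfl⟩ := hi.ord b' hb'
        obtain ⟨c1, rfl⟩ := hi.ord c' hc'
        rw [← em_TLt, h j1 b1 c1 hj1 (em_Ord.1 hb') (em_Ord.1 hc')]
        apply ex_em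
        · intro β
          rw [em_mem, ← em_ap, ← em_tri, em_eq]
        · rintro β ⟨hβ, _⟩
          exact hi.trans _ _ hβ
    · rintro ⟨j, b, c, e, hj, hb, hc, h⟩
      obtain ⟨j0, b0, c0, rfl, rfl, rfl, rfl⟩ := em_of_tri e.symm
      rw [← em_num (i := i), em_mem] at hj
      rw [em_Ord] at hb hc
      refine ⟨j0, b0, c0, rfl, hj, hb, hc, ?_⟩
      intro j' b' c' hj' hb' hc'
      have h1 := h (i j') (i b') (i c') (by rw [← em_num (i := i)]; exact em_mem.2 hj')
        (em_Ord.2 hb') (em_Ord.2 hc')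
      rw [← em_TLt] at h1
      refine Iff.trans h1 (Iff.symm ?_)
      apply ex_em
      · intro β
        rw [em_mem, ← em_ap, ← em_tri, em_eq]
      · rintro β ⟨hβ, _⟩
        exact hi.trans _ _ hβ
  · rintro z ⟨j, b, c, rfl, hj, hb, hc, _⟩
    obtain ⟨j1, hj1, rfl⟩ := em_num_elim (i := i) hj
    obtain ⟨b1, rfl⟩ := hi.ord b hb
    obtain ⟨c1, rfl⟩ := hi.ord c hc
    exact ⟨tri j1 b1 c1, (em_tri _ _ _).symm⟩

theorem em_dec (α : M) : i (dec α) = dec (i α) := by
  unfold dec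
  exact em_erec _ _ (fun x g => em_decStep x g) α

private theorem em_dI (α : M) : i (dI α) = dI (i α) := by
  unfold dI
  apply em_iota
  · intro t
    constructor
    · rintro ⟨b, c, e⟩
      exact ⟨i b, i c, by rw [← em_dec, e, em_tri (i := i)]⟩
    · rintro ⟨b, c, e⟩
      rw [← em_dec] at e
      obtain ⟨j0, b0, c0, e1, e2, _, _⟩ := em_of_tri e.symm
      exact ⟨b0, c0, by rw [e1, em_inj e2]⟩
  · rintro z ⟨b, c, e⟩
    rw [← em_dec] at e
    obtain ⟨j0, b0, c0, _, e2, _, _⟩ := em_of_tri e.symm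
    exact ⟨j0, e2⟩

private theorem em_dB (α : M) : i (dB α) = dB (i α) := by
  unfold dB
  apply em_iota
  · intro t
    constructor
    · rintro ⟨b, c, e⟩
      exact ⟨i b, i c, by rw [← em_dec, e, em_tri (i := i)]⟩
    · rintro ⟨b, c, e⟩
      rw [← em_dec] at e
      obtain ⟨j0, b0, c0, e1, _, e2, _⟩ := em_of_tri e.symm
      exact ⟨j0, c0, by rw [e1, em_inj e2]⟩
  · rintro z ⟨b, c, e⟩
    rw [← em_dec] at e
    obtain ⟨j0, b0, c0, _, _, e2, _⟩ := em_of_tri e.symm
    exact ⟨b0, e2⟩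

private theorem em_dC (α : M) : i (dC α) = dC (i α) := by
  unfold dC
  apply em_iota
  · intro t
    constructor
    · rintro ⟨b, c, e⟩
      exact ⟨i b, i c, by rw [← em_dec, e, em_tri (i := i)]⟩
    · rintro ⟨b, c, e⟩
      rw [← em_dec] at e
      obtain ⟨j0, b0, c0, e1, _, _, e2⟩ := em_of_tri e.symm
      exact ⟨j0, b0, by rw [e1, em_inj e2]⟩
  · rintro z ⟨b, c, e⟩
    rw [← em_dec] at e
    obtain ⟨j0, b0, c0, _, _, _, e2⟩ := em_of_tri e.symm
    exact ⟨c0, e2⟩

private theorem em_OpMem {A α j X Y w : M} :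
    OpMem A α j X Y w ↔ OpMem (i A) (i α) (i j) (i X) (i Y) (i w) := by
  -- parts of elements of the range
  have hw : ∀ {w : M} {a b : N}, i w = opair a b → (∃ x, a = i x) ∧ ∃ x, b = i x := by
    intro w a b e
    obtain ⟨y, z, _, e1, e2⟩ := em_of_opair e.symm
    exact ⟨⟨y, e1⟩, ⟨z, e2⟩⟩
  have e3 : (∃ a b, w = opair a b ∧ a ∈ b) ↔ ∃ a b, i w = opair a b ∧ a ∈ b := by
    refine ex_em (i := i) (fun a => ex_em (i := i) (fun b => ?_) ?_) ?_
    · rw [← em_opair, em_eq, em_mem]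
    · rintro b ⟨e, _⟩
      exact (hw e).2
    · rintro a ⟨b, e, _⟩
      exact (hw e).1
  have e4 : (∃ a b, w = opair a b ∧ b ∈ Y) ↔ ∃ a b, i w = opair a b ∧ b ∈ i Y := by
    refine ex_em (i := i) (fun a => ex_em (i := i) (fun b => ?_) ?_) ?_
    · rw [← em_opair, em_eq, em_mem]
    · rintro b ⟨e, _⟩
      exact (hw e).2
    · rintro a ⟨b, e, _⟩
      exact (hw e).1
  have e5 : (∃ a b, w = opair a b ∧ opair b a ∈ Y) ↔
      ∃ a b, i w = opair a b ∧ opair b a ∈ i Y := by
    refine ex_em (i := i) (fun a => ex_em (i := i) (fun b => ?_) ?_) ?_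
    · rw [← em_opair, em_eq, em_opair_mem]
    · rintro b ⟨e, _⟩
      exact (hw e).2
    · rintro a ⟨b, e, _⟩
      exact (hw e).1
  have e6 : (∃ b, opair w b ∈ Y) ↔ ∃ b, opair (i w) b ∈ i Y := by
    refine ex_em (i := i) (fun b => ?_) ?_
    · rw [em_opair_mem]
    · intro b e
      obtain ⟨y, z, _, _, e2⟩ := em_opair_elim e
      exact ⟨z, e2⟩
  have e7 : (∃ t y x, w = opair (opair t y) x ∧ opair y x ∈ Y) ↔
      ∃ t y x, i w = opair (opair t y) x ∧ opair y x ∈ i Y := by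
    refine ex_em (i := i) (fun t => ex_em (i := i) (fun y => ex_em (i := i) (fun x => ?_) ?_) ?_) ?_
    · rw [← em_opair, ← em_opair, em_eq, em_opair_mem]
    · rintro x ⟨e, _⟩
      exact (hw e).2
    · rintro y ⟨x, e, _⟩
      obtain ⟨z, e1⟩ := (hw e).1
      exact (hw e1.symm).2
    · rintro t ⟨y, x, e, _⟩
      obtain ⟨z, e1⟩ := (hw e).1
      exact (hw e1.symm).1
  have e8 : (∃ t y x, w = opair (opair t y) x ∧ opair t x ∈ Y) ↔
      ∃ t y x, i w = opair (opair t y) x ∧ opair t x ∈ i Y := by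
    refine ex_em (i := i) (fun t => ex_em (i := i) (fun y => ex_em (i := i) (fun x => ?_) ?_) ?_) ?_
    · rw [← em_opair, ← em_opair, em_eq, em_opair_mem]
    · rintro x ⟨e, _⟩
      exact (hw e).2
    · rintro y ⟨x, e, _⟩
      obtain ⟨z, e1⟩ := (hw e).1
      exact (hw e1.symm).2
    · rintro t ⟨y, x, e, _⟩
      obtain ⟨z, e1⟩ := (hw e).1
      exact (hw e1.symm).1
  have e9 : (∃ d k, d ∈ α ∧ k ∈ (omega : M) ∧ w = opair d k) ↔
      ∃ d k, d ∈ i α ∧ k ∈ (omega : N) ∧ i w = opair d k := by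
    refine ex_em (i := i) (fun d => ex_em (i := i) (fun k => ?_) ?_) ?_
    · rw [← em_opair, em_eq, em_mem, ← em_omega (i := i), em_mem]
    · rintro k ⟨_, _, e⟩
      exact (hw e).2
    · rintro d ⟨k, _, _, e⟩
      exact (hw e).1
  have e10 : (∃ a, w = opair a a) ↔ ∃ a, i w = opair a a := by
    refine ex_em (i := i) (fun a => ?_) ?_
    · rw [← em_opair, em_eq]
    · rintro a e
      exact (hw e).1
  unfold OpMem
  rw [e3, e4, e5, e6, e7, e8, e9, e10]
  have en : ∀ n : ℕ, (i j = num n) ↔ (j = num n) := by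
    intro n
    rw [← em_num (i := i), em_eq]
  simp only [em_eq (i := i), em_mem (i := i), en]

private theorem em_hStep (A α g : M) : i (hStep A α g) = hStep (i A) (i α) (i g) := by
  unfold hStep
  apply Pool.Agent.H78.ZF.ext
  intro w
  rw [mem_em_sep, mem_sep, ← em_img' α (fun β => ap g β) (fun β => ap (i g) β)
    (fun β _ => em_ap g β)]
  constructor
  · rintro ⟨y, hy, h1, rfl⟩
    refine ⟨em_mem.2 hy, ?_⟩
    rw [em_OpMem (i := i), em_dI (i := i), em_ap (i := i), em_ap (i := i), em_dB (i := i), em_dC (i := i)] at h1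
    exact h1
  · rintro ⟨hw, h1⟩
    obtain ⟨y, hy, rfl⟩ := em_elim.1 hw
    refine ⟨y, hy, ?_, rfl⟩
    rw [em_OpMem (i := i), em_dI (i := i), em_ap (i := i), em_ap (i := i), em_dB (i := i), em_dC (i := i)]
    exact h1

theorem em_hF (A α : M) : i (hF A α) = hF (i A) (i α) := by
  unfold hF
  exact em_erec _ _ (fun x g => em_hStep A x g) α

theorem em_InL {A x : M} : InL (i A) (i x) ↔ InL A x := by
  unfold InL
  symm
  refine ex_em (i := i) (fun α => ?_) ?_
  · rw [em_Ord, ← em_hF, em_eq]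
  · rintro α ⟨hα, _⟩
    exact hi.ord α hα

/-- If all sets of `M` are constructible, then every inner model of `N` contains the range of `i`. -/
theorem inner_of_vl (hV : ∀ x : M, InL emp x) (K : N → Prop) [Inner K] (x : M) : K (i x) := by
  have h := (em_InL (i := i)).2 (hV x)
  rw [em_emp (i := i), ← abs_emp (K := K)] at h
  exact inL_in _ h

end Pool.Agent.ZFIter.NPA.BSM
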