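import Pool.Agent.NPA.BAC

/-!
# BSM/EDefs: transitive embeddings of models of ZF

`i : M → N` is a transitive embedding with the same ordinals. It is NOT assumed that the range of `i`
is definable in `N`. Examples: the inclusion of an inner model `Subtype.val`, and the canonical
embedding of the ground model into a generic extension.
-/

universe u v

namespace Pool.Agent.ZFIter.NPA.BSM

open Pool.Agent.H78.ZF Pool.Agent.ZFIter Pool.Agent.ZFIter.NPA

variable {M : Type u} [ZFM M] {N : Type v} [ZFM N]

/-- `i` is an isomorphism of `M` with a transitive class of `N` which contains all ordinals. -/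
class TEm (i : M → N) : Prop where
  mem : ∀ x y, i x ∈ i y ↔ x ∈ y
  trans : ∀ x z, z ∈ i x → ∃ y, z = i y
  ord : ∀ α : N, Ord α → ∃ x, α = i x

theorem em_inj {i : M → N} [h : TEm i] {x y : M} (e : i x = i y) : x = y := by
  apply ext
  intro z
  rw [← h.mem z x, ← h.mem z y, e]

theorem em_mem {i : M → N} [h : TEm i] {x y : M} : i x ∈ i y ↔ x ∈ y := h.mem x y

theorem em_eq {i : M → N} [h : TEm i] {x y : M} : i x = i y ↔ x = y :=
  ⟨em_inj, fun e => by rw [e]⟩

/-- The elements of `i y` are the `i x` with `x ∈ y`. -/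
theorem em_elim {i : M → N} [h : TEm i] {y : M} {z : N} : z ∈ i y ↔ ∃ x, x ∈ y ∧ z = i x := by
  constructor
  · intro hz
    obtain ⟨x, rfl⟩ := h.trans y z hz
    exact ⟨x, (h.mem x y).1 hz, rfl⟩
  · rintro ⟨x, hx, rfl⟩
    exact (h.mem x y).2 hx

end Pool.Agent.ZFIter.NPA.BSM
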