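import Pool.Agent.BSM.FGen

/-!
# BSM/FAc: choice in the generic extension

`ac_ext`: let `x = val a`. In `M` there is an injection `j` of `sUn (sUn a)` into an ordinal `α`
(`AC M` follows from `F.vl`: map `y` to `leastO (fun α => y = hF emp α)`; see `ac_of_all`, a private
lemma in NPA/BAC, copy it). In the extension let `f` be the function from `exists_evf` for `a`,
`J = can j` (`em_Inj`, `em_ap`). Every `z ∈ x` is `val u = ap f (can u)` with `u ∈ sUn (sUn a)`
(`mem_val'`). Map `z` to the least `β` such that `z = ap f w` and `β = ap J w` for some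
`w ∈ can (sUn (sUn a))`: this is an injection of `x` into `can α`.
-/

universe u

namespace Pool.Agent.ZFIter.NPA.BSM

open Pool.Agent.H78.ZF Pool.Agent.ZFIter Pool.Agent.ZFIter.NPA

variable {M : Type u} [ZFM M] {F : Fo M}

theorem ac_vl (h : ∀ x : M, InL emp x) : AC M := by
  intro x
  have hF1 : F1 (fun y : M => leastO (fun α => y = hF emp α)) := by infer_instance
  have hsp : ∀ y : M, Ord (leastO (fun α => y = hF emp α)) ∧
      y = hF emp (leastO (fun α => y = hF emp α)) := by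
    intro y
    have := leastO_spec (fun α => y = hF emp α) (h y)
    exact ⟨this.1, this.2.1⟩
  obtain ⟨α, hα, hα'⟩ := exists_ord_gt (img x (fun y : M => leastO (fun α => y = hF emp α)))
  have hm : ∀ y, y ∈ x → leastO (fun α => y = hF emp α) ∈ α := by
    intro y hy
    exact hα' _ (by rw [mem_img]; exact ⟨y, hy, rfl⟩) (hsp y).1
  refine ⟨α, mkf x α (fun y => leastO (fun α => y = hF emp α)), hα, ?_⟩
  rw [inj_iff]
  refine ⟨mkf_fun hm, ?_⟩
  intro y y' hy hy' e
  rw [ap_mkf hm hy, ap_mkf hm hy'] at e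
  rw [(hsp y).2, (hsp y').2, e]

/-- a set which is covered by the values of a function on a set injected into an ordinal -/
private theorem cover_inj {N : Type u} [ZFM N] {x T α f J : N} (hα : Ord α) (hJ : Inj J T α)
    (h : ∀ z, z ∈ x → ∃ w, w ∈ T ∧ z = ap f w) : ∃ a g : N, Ord a ∧ Inj g x a := by
  have hF1 : F1 (fun z : N => leastO (fun β => ∃ w, w ∈ T ∧ β = ap J w ∧ z = ap f w)) := by
    infer_instance
  have hsp : ∀ z : N, z ∈ x →
      ∃ w, w ∈ T ∧ leastO (fun β => ∃ w, w ∈ T ∧ β = ap J w ∧ z = ap f w) = ap J w ∧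
        z = ap f w := by
    intro z hz
    obtain ⟨w, hw, e⟩ := h z hz
    exact (leastO_spec (fun β => ∃ w, w ∈ T ∧ β = ap J w ∧ z = ap f w)
      ⟨ap J w, hα.mem (hJ.fun.ap_mem hw), w, hw, rfl, e⟩).2.1
  have hm : ∀ z, z ∈ x → leastO (fun β => ∃ w, w ∈ T ∧ β = ap J w ∧ z = ap f w) ∈ α := by
    intro z hz
    obtain ⟨w, hw, e, _⟩ := hsp z hz
    rw [e]
    exact hJ.fun.ap_mem hw
  refine ⟨α, mkf x α (fun z => leastO (fun β => ∃ w, w ∈ T ∧ β = ap J w ∧ z = ap f w)), hα, ?_⟩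
  rw [inj_iff]
  refine ⟨mkf_fun hm, ?_⟩
  intro z z' hz hz' e
  rw [ap_mkf hm hz, ap_mkf hm hz'] at e
  obtain ⟨w, hw, e1, e2⟩ := hsp z hz
  obtain ⟨w', hw', e1', e2'⟩ := hsp z' hz'
  have h1 : w = w' := hJ.ap_inj hw hw' (by rw [← e1, ← e1', e])
  rw [e2, e2', h1]

theorem ac_ext : AC F.Ext := by
  intro x
  obtain ⟨a, rfl⟩ := Fo.exists_val x
  obtain ⟨f, _, hf⟩ := exists_evf (F := F) a
  obtain ⟨α, j, hα, hj⟩ := ac_vl F.vl (tcl a)
  refine cover_inj (T := can F (tcl a)) (α := can F α) (f := f) (J := can F j)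
    ((em_Ord (i := can F)).2 hα) ((em_Inj (i := can F)).2 hj) ?_
  intro z hz
  obtain ⟨y, s, hy, _, rfl⟩ := mem_val'.1 hz
  have h1 : opair y s ∈ tcl a := trans_tcl a a (self_mem_tcl a) _ hy
  have h2 : sing y ∈ tcl a := trans_tcl a _ h1 _ (by simp [opair])
  have h3 : y ∈ tcl a := trans_tcl a _ h2 _ (by simp)
  exact ⟨can F y, (em_mem (i := can F)).2 h3, (hf y h3).symm⟩

end Pool.Agent.ZFIter.NPA.BSM
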