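import Pool.Agent.BSM.DefsG
import Pool.Agent.BSM.EDefs

/-!
# BSM/FQuo: the generic extension as a quotient of the class of names

Every set of `M` is a name (see `Pool.Agent.ZFIter.Defs`).  `F.Ext` is the class of names modulo
equality forced by some condition in `G`, with the membership relation `F.E`.
-/

universe u

namespace Pool.Agent.ZFIter.NPA.BSM

open Pool.Agent.H78.ZF Pool.Agent.ZFIter Pool.Agent.ZFIter.NPA

/-- A forcing notion of `M`, a filter generic over `M`, and `M` is a model of `V = L`. -/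
structure Fo (M : Type u) [ZFM M] where
  P : M
  R : M
  G : M → Prop
  pre : Pre P R
  gen : Gen P R G
  vl : ∀ x : M, InL emp x

namespace Fo

variable {M : Type u} [ZFM M] (F : Fo M)

instance : Pre F.P F.R := F.pre

/-- names for equal sets -/
def eqG (x y : M) : Prop := ∃ p, F.G p ∧ FEq F.P F.R p x y

/-- names for a set and an element -/
def memG (x y : M) : Prop := ∃ p, F.G p ∧ FMem F.P F.R p x y

variable {F}

theorem G_mem {p : M} (h : F.G p) : p ∈ F.P := F.gen.sub p h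

theorem eqG_refl (x : M) : F.eqG x x := by
  obtain ⟨p, hp⟩ := F.gen.ne
  exact ⟨p, hp, feq_refl _ _⟩

theorem eqG_symm {x y : M} (h : F.eqG x y) : F.eqG y x := by
  obtain ⟨p, hp, h⟩ := h
  exact ⟨p, hp, feq_symm h⟩

theorem eqG_trans {x y z : M} (h : F.eqG x y) (h' : F.eqG y z) : F.eqG x z := by
  obtain ⟨p, hp, h⟩ := h
  obtain ⟨q, hq, h'⟩ := h'
  obtain ⟨r, hr, h1, h2⟩ := F.gen.dir p q hp hq
  exact ⟨r, hr, feq_trans (feq_mono h h1) (feq_mono h' h2)⟩

theorem memG_congrL {x x' y : M} (h : F.eqG x x') (hm : F.memG x y) : F.memG x' y := by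
  obtain ⟨p, hp, h⟩ := h
  obtain ⟨q, hq, h'⟩ := hm
  obtain ⟨r, hr, h1, h2⟩ := F.gen.dir p q hp hq
  exact ⟨r, hr, fmem_congrL (feq_mono h h1) (fmem_mono h' h2)⟩

theorem memG_congrR {x y y' : M} (h : F.eqG y y') (hm : F.memG x y) : F.memG x y' := by
  obtain ⟨p, hp, h⟩ := h
  obtain ⟨q, hq, h'⟩ := hm
  obtain ⟨r, hr, h1, h2⟩ := F.gen.dir p q hp hq
  exact ⟨r, hr, fmem_congrR (feq_mono h h1) (fmem_mono h' h2)⟩

variable (F)

def setoid : Setoid M := ⟨F.eqG, ⟨eqG_refl, eqG_symm, eqG_trans⟩⟩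

/-- The generic extension `M[G]`. -/
def Ext : Type u := Quotient F.setoid

/-- The value of a name. -/
def val (x : M) : F.Ext := Quotient.mk F.setoid x

/-- Membership in the generic extension. -/
def E : F.Ext → F.Ext → Prop :=
  Quotient.lift₂ (fun x y => F.memG x y) (by
    intro x y x' y' hx hy
    apply propext
    exact ⟨fun h => memG_congrR hy (memG_congrL hx h),
      fun h => memG_congrR (eqG_symm hy) (memG_congrL (eqG_symm hx) h)⟩)

variable {F}

theorem exists_val (z : F.Ext) : ∃ x, z = F.val x := by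
  obtain ⟨x, hx⟩ := Quotient.exists_rep z
  exact ⟨x, hx.symm⟩

theorem val_eq {x y : M} : F.val x = F.val y ↔ ∃ p, F.G p ∧ FEq F.P F.R p x y := by
  constructor
  · intro h
    exact Quotient.exact (s := F.setoid) h
  · intro h
    exact Quotient.sound (s := F.setoid) h

theorem E_val {x y : M} : F.E (F.val x) (F.val y) ↔ ∃ p, F.G p ∧ FMem F.P F.R p x y := Iff.rfl

/-! ### Genericity for definable classes -/

theorem meet (A : M → Prop) [D1 A] (h : ∀ p, p ∈ F.P → ∃ q, Le F.P F.R q p ∧ A q) :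
    ∃ q, F.G q ∧ A q := by
  obtain ⟨q, hq, hG⟩ := F.gen.gen (sep F.P A) (fun x hx => ((mem_sep _ _ _).1 hx).1)
    (fun p hp => by
      obtain ⟨q, hq, hA⟩ := h p hp
      exact ⟨q, (mem_sep _ _ _).2 ⟨hq.memL, hA⟩, hq⟩)
  exact ⟨q, hG, ((mem_sep _ _ _).1 hq).2⟩

/-- `G` decides every definable class. -/
theorem decide (A : M → Prop) [D1 A] : ∃ p, F.G p ∧ (A p ∨ ∀ q, Le F.P F.R q p → ¬ A q) := by
  refine meet (fun p => A p ∨ ∀ q, Le F.P F.R q p → ¬ A q) fun p hp => ?_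
  by_cases h : ∃ q, Le F.P F.R q p ∧ A q
  · obtain ⟨q, hq, hA⟩ := h
    exact ⟨q, hq, Or.inl hA⟩
  · exact ⟨p, Pre.refl hp, Or.inr fun q hq hA => h ⟨q, hq, hA⟩⟩

/-- `G` meets every definable class which is dense below an element of `G`. -/
theorem below (A : M → Prop) [D1 A] {p0 : M} (hp0 : F.G p0)
    (h : ∀ q, Le F.P F.R q p0 → ∃ r, Le F.P F.R r q ∧ A r) : ∃ r, F.G r ∧ A r := by
  obtain ⟨p, hp, hA | hA⟩ := decide (F := F) A
  · exact ⟨p, hp, hA⟩
  · obtain ⟨q, _, h1, h2⟩ := F.gen.dir p p0 hp hp0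
    obtain ⟨r, hr, hAr⟩ := h q h2
    exact absurd hAr (hA r (Pre.trans hr h1))

/-- The elements of the value of a name. -/
theorem E_iff {x y : M} :
    F.E (F.val x) (F.val y) ↔ ∃ z s, opair z s ∈ y ∧ F.G s ∧ F.val x = F.val z := by
  constructor
  · rintro ⟨p, hp, h⟩
    have h1 := below (F := F) (fun r => ∃ z s, opair z s ∈ y ∧ Le F.P F.R r s ∧ FEq F.P F.R r x z)
      hp (fun q hq => h q hq)
    obtain ⟨r, hr, z, s, hz, hs, hE⟩ := h1
    exact ⟨z, s, hz, F.gen.up r s hr hs, val_eq.2 ⟨r, hr, hE⟩⟩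
  · rintro ⟨z, s, hz, hs, e⟩
    rw [e]
    exact ⟨s, hs, fmem_of hz (Pre.refl (G_mem hs))⟩

end Fo

end Pool.Agent.ZFIter.NPA.BSM
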