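import Pool.Agent.BSM.FQuo

/-!
# BSM/FRel: forcing relations of relations of the generic extension

`FRel F Q A`: `A` is a definable relation of `M` (the last argument is the condition), monotone and
closed under density (`Good`), and `Q(val v)` holds in the extension iff some `p` in `G` satisfies
`A v p`. The connectives:
* `FRel.bot`: no condition forces `False`; `Good` holds also for `p` outside of `P`, so take
  `A v p := ∀ q, ¬ Le F.P F.R q p`.
* `FRel.eq`, `FRel.mem`: `FEq`, `FMem`; `Fo.val_eq`, `Fo.E_val`; instances `Good.feq`, `Good.fmem`,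
  `DR.FEq`, `DR.FMem`.
* `FRel.imp`: `(forc P R).imp`. Truth. If some `p` in `G` forces the implication and `q` in `G` forces
  the premise take `r` in `G` below both. Conversely assume `Q v → Q' v`. By `Fo.decide` for
  `fun p => (forc P R).imp (A v) (B v) p` there is `p` in `G` which forces it, or no `q ≤ p` forces it.
  In the second case every `q ≤ p` has `r ≤ q` with `A v r` and `¬ B v r`, and then some `s ≤ r` such
  that no `t ≤ s` has `B v t` (density of `B`). So by `Fo.below` some `s` in `G` has `A v s` and no
  `t ≤ s` with `B v t`; hence `Q v` is true, `Q' v` is true, some `t` in `G` has `B v t`, and a common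
  extension of `s` and `t` gives a contradiction.
* `FRel.all`: the same: by `Fo.decide` some `p` in `G` forces all instances, or every `q ≤ p` has an
  `x` and `r ≤ q` with `¬ A (x, v) r`, so `s ≤ r` such that no `t ≤ s` has `A (x, v) t`; `Fo.below` for
  the class `fun s => ∃ x, ∀ t, Le t s → ¬ A (x, v) t`.
For `D1` instances with parameters `v : ι → M` (where `ι` is finite or not) derive them from `dr` by
substituting constants: `DR.subst` needs `Finite ι`, so all statements assume `[Finite ι]`.
-/


universe u

namespace Pool.Agent.ZFIter.NPA.BSM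

open Pool.Agent.H78.ZF Pool.Agent.ZFIter Pool.Agent.ZFIter.NPA

variable {M : Type u} [ZFM M]

/-- `A` is a forcing relation for the relation `Q` of the generic extension. -/
structure FRel (F : Fo M) {ι : Type} (Q : (ι → F.Ext) → Prop) (A : (ι → M) → M → Prop) : Prop where
  dr : DR (ι := Option ι) (fun v => A (fun i => v (some i)) (v none))
  good : ∀ v, Good F.P F.R (A v)
  truth : ∀ v, Q (fun i => F.val (v i)) ↔ ∃ p, F.G p ∧ A v p

variable {F : Fo M} {ι κ : Type} [Finite ι] [Finite κ]

/-- the instance for fixed parameters -/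
theorem FRel.d1 {Q : (ι → F.Ext) → Prop} {A : (ι → M) → M → Prop} (h : FRel F Q A) (v : ι → M) :
    D1 (A v) := by
  constructor
  have h1 : ∀ o : Option ι, DF (M := M) (ι := Unit)
      ((fun o w => o.elim (w ()) v : Option ι → (Unit → M) → M) o) := by
    intro o
    cases o with
    | none => exact (inferInstance : DF (fun w : Unit → M => w ()))
    | some i => exact (inferInstance : DF (fun _ : Unit → M => v i))
  exact @DR.subst M _ Unit (Option ι) _ _ h.dr (fun o w => o.elim (w ()) v) h1

private theorem dr_w {Q : (ι → F.Ext) → Prop} {A : (ι → M) → M → Prop} (h : FRel F Q A)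
    {κ : Type} (e : ι → κ) (s : (κ → M) → M) [hs : DF s] : DR (fun v : κ → M => A (fun i => v (e i)) (s v)) := by
  have h1 : ∀ o : Option ι, DF (M := M) (ι := κ)
      ((fun o w => o.elim (s w) (fun i => w (e i)) : Option ι → (κ → M) → M) o) := by
    intro o
    cases o with
    | none => exact hs
    | some i => exact DF.var (e i)
  exact @DR.subst M _ κ (Option ι) _ _ h.dr (fun o w => o.elim (s w) (fun i => w (e i))) h1

omit [Finite ι] in
theorem FRel.bot : ∃ A, FRel F (fun _ : ι → F.Ext => False) A := by
  refine ⟨fun _ p => ∀ q, ¬ Le F.P F.R q p, ⟨inferInstance, fun v => ⟨?_, ?_⟩, fun v => ⟨False.elim, ?_⟩⟩⟩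
  · intro p q h hq r hr
    exact h r (Pre.trans hr hq)
  · intro p h q hq
    obtain ⟨r, hr, h1⟩ := h q hq
    exact h1 r (Pre.refl hr.memL)
  · rintro ⟨p, hp, h⟩
    exact h p (Pre.refl (Fo.G_mem hp))

omit [Finite ι] in
theorem FRel.eq (i j : ι) : ∃ A, FRel F (fun v => v i = v j) A :=
  ⟨fun v p => FEq F.P F.R p (v i) (v j), ⟨inferInstance, fun _ => Good.feq _ _, fun _ => Fo.val_eq⟩⟩

omit [Finite ι] in
theorem FRel.mem (i j : ι) : ∃ A, FRel F (fun v => F.E (v i) (v j)) A :=
  ⟨fun v p => FMem F.P F.R p (v i) (v j), ⟨inferInstance, fun _ => Good.fmem _ _, fun _ => Fo.E_val⟩⟩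

theorem FRel.imp {Q Q' : (ι → F.Ext) → Prop} (h : ∃ A, FRel F Q A) (h' : ∃ A, FRel F Q' A) :
    ∃ A, FRel F (fun v => Q v → Q' v) A := by
  obtain ⟨A, hA⟩ := h
  obtain ⟨B, hB⟩ := h'
  refine ⟨fun v => (forc F.P F.R).imp (A v) (B v), ⟨?_, fun v => ?_, fun v => ?_⟩⟩
  · have h1 : DR (ι := Option (Option ι)) (fun v => A (fun i => v (some (some i))) (v none)) :=
      dr_w hA (fun i => some (some i)) (fun v => v none)
    have h2 : DR (ι := Option (Option ι)) (fun v => B (fun i => v (some (some i))) (v none)) :=
      dr_w hB (fun i => some (some i)) (fun v => v none)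
    show DR (ι := Option ι) (fun v => ∀ q, Le F.P F.R q (v none) → A (fun i => v (some i)) q →
      B (fun i => v (some i)) q)
    infer_instance
  · have := hA.good v
    have := hB.good v
    exact Good.fimp _ _
  · have gA := hA.good v
    have gB := hB.good v
    have dA := hA.d1 v
    have dB := hB.d1 v
    have dI : D1 ((forc F.P F.R).imp (A v) (B v)) := by
      show D1 (fun p => ∀ q, Le F.P F.R q p → A v q → B v q)
      infer_instance
    constructor
    · intro hQ
      obtain ⟨p, hp, h1 | h1⟩ := Fo.decide (F := F) ((forc F.P F.R).imp (A v) (B v))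
      · exact ⟨p, hp, h1⟩
      · exfalso
        obtain ⟨s, hs, hAs, hBs⟩ := Fo.below (F := F)
          (fun s => A v s ∧ ∀ t, Le F.P F.R t s → ¬ B v t) hp (by
            intro q hq
            have h2 := h1 q hq
            have h3 : ∃ r, Le F.P F.R r q ∧ A v r ∧ ¬ B v r := by
              by_contra hc
              exact h2 fun r hr hAr => by
                by_contra hBr
                exact hc ⟨r, hr, hAr, hBr⟩
            obtain ⟨r, hr, hAr, hBr⟩ := h3
            have h4 : ∃ s, Le F.P F.R s r ∧ ∀ t, Le F.P F.R t s → ¬ B v t := by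
              by_contra hc
              refine hBr (gB.dense fun s hs => ?_)
              by_contra hd
              exact hc ⟨s, hs, fun t ht hBt => hd ⟨t, ht, hBt⟩⟩
            obtain ⟨s, hs, h5⟩ := h4
            exact ⟨s, Pre.trans hs hr, gA.mono hAr hs, h5⟩)
        obtain ⟨t, ht, hBt⟩ := (hB.truth v).1 (hQ ((hA.truth v).2 ⟨s, hs, hAs⟩))
        obtain ⟨r, _, hr1, hr2⟩ := F.gen.dir s t hs ht
        exact hBs r hr1 (gB.mono hBt hr2)
    · rintro ⟨p, hp, h1⟩ hQ
      obtain ⟨q, hq, hAq⟩ := (hA.truth v).1 hQ
      obtain ⟨r, hr, hr1, hr2⟩ := F.gen.dir p q hp hq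
      exact (hB.truth v).2 ⟨r, hr, h1 r hr1 (gA.mono hAq hr2)⟩

theorem FRel.all {Q : (Option ι → F.Ext) → Prop} (h : ∃ A, FRel F Q A) :
    ∃ A, FRel F (fun v => ∀ x, Q (fun o => o.elim x v)) A := by
  obtain ⟨A, hA⟩ := h
  refine ⟨fun v p => ∀ x, A (fun o => o.elim x v) p, ⟨?_, fun v => ?_, fun v => ?_⟩⟩
  · have h1 : ∀ o : Option (Option ι), DF (M := M) (ι := Option (Option ι))
        ((fun o w => o.elim (w (some none)) (fun o' => o'.elim (w none) (fun i => w (some (some i)))) :
          Option (Option ι) → (Option (Option ι) → M) → M) o) := by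
      intro o
      rcases o with _ | _ | i
      · exact DF.var (some none)
      · exact DF.var none
      · exact DF.var (some (some i))
    have h2 := @DR.subst M _ (Option (Option ι)) (Option (Option ι)) _ _ hA.dr _ h1
    have h3 : DR (ι := Option (Option ι)) (fun w =>
        A (fun o : Option ι => o.elim (w none) (fun i => w (some (some i)))) (w (some none))) := h2
    exact DR.all (ι := Option ι) (fun x v => A (fun o => o.elim x (fun i => v (some i))) (v none))
  · exact ⟨fun h hq x => (hA.good _).mono (h x) hq, fun h x => (hA.good _).dense fun q hq => by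
      obtain ⟨r, hr, h1⟩ := h q hq
      exact ⟨r, hr, h1 x⟩⟩
  · have h3 : DR (ι := Option Unit) (fun w : Option Unit → M =>
        A (fun o : Option ι => o.elim (w none) v) (w (some ()))) := by
      have h1 : ∀ o : Option (Option ι), DF (M := M) (ι := Option Unit)
          ((fun o w => o.elim (w (some ())) (fun o' => o'.elim (w none) v) :
            Option (Option ι) → (Option Unit → M) → M) o) := by
        intro o
        rcases o with _ | _ | i
        · exact DF.var (some ())
        · exact DF.var none
        · exact (inferInstance : DF (fun _ : Option Unit → M => v i))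
      exact @DR.subst M _ (Option Unit) (Option (Option ι)) _ _ hA.dr _ h1
    have d1 : D1 (fun p => ∀ x, A (fun o : Option ι => o.elim x v) p) :=
      ⟨DR.all (ι := Unit) (fun x w => A (fun o : Option ι => o.elim x v) (w ()))⟩
    have d2 : D2 (fun x p => A (fun o : Option ι => o.elim x v) p) := by
      have h1 : ∀ o : Option (Option ι), DF (M := M) (ι := Fin 2)
          ((fun o w => o.elim (w 1) (fun o' => o'.elim (w 0) v) :
            Option (Option ι) → (Fin 2 → M) → M) o) := by
        intro o
        rcases o with _ | _ | i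
        · exact DF.var 1
        · exact DF.var 0
        · exact (inferInstance : DF (fun _ : Fin 2 → M => v i))
      exact ⟨@DR.subst M _ (Fin 2) (Option (Option ι)) _ _ hA.dr _ h1⟩
    obtain ⟨B, dB, hB⟩ : ∃ B : M → M → Prop, D2 B ∧
        ∀ x p, B x p ↔ A (fun o : Option ι => o.elim x v) p := ⟨_, d2, fun _ _ => Iff.rfl⟩
    constructor
    · intro hQ
      obtain ⟨p, hp, h1 | h1⟩ := Fo.decide (F := F) (fun p => ∀ x, A (fun o => o.elim x v) p)
      · exact ⟨p, hp, h1⟩
      · exfalso
        obtain ⟨s, hs, x, hx⟩ := Fo.below (F := F)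
          (fun s => ∃ x, ∀ t, Le F.P F.R t s → ¬ B x t) hp (by
            intro q hq
            simp only [hB]
            have h2 := h1 q hq
            push Not at h2
            obtain ⟨x, hx⟩ := h2
            have h4 : ∃ s, Le F.P F.R s q ∧ ∀ t, Le F.P F.R t s → ¬ A (fun o => o.elim x v) t := by
              by_contra hc
              refine hx ((hA.good _).dense fun s hs => ?_)
              by_contra hd
              exact hc ⟨s, hs, fun t ht hBt => hd ⟨t, ht, hBt⟩⟩
            obtain ⟨s, hs, h5⟩ := h4
            exact ⟨s, hs, x, h5⟩)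
        have e : (fun i : Option ι => F.val ((fun o : Option ι => o.elim x v) i)) =
            fun o => o.elim (F.val x) (fun i => F.val (v i)) := by
          funext o; cases o <;> rfl
        have h5 := hQ (F.val x)
        simp only [hB] at hx
        rw [← e] at h5
        obtain ⟨t, ht, hBt⟩ := (hA.truth _).1 h5
        obtain ⟨r, _, hr1, hr2⟩ := F.gen.dir s t hs ht
        exact hx r hr1 ((hA.good _).mono hBt hr2)
    · rintro ⟨p, hp, h1⟩ x
      obtain ⟨x, rfl⟩ := Fo.exists_val x
      have e : (fun i : Option ι => F.val ((fun o : Option ι => o.elim x v) i)) =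
          fun o => o.elim (F.val x) (fun i => F.val (v i)) := by
        funext o; cases o <;> rfl
      rw [← e]
      exact (hA.truth _).2 ⟨p, hp, h1 x⟩

omit [Finite κ] in
theorem FRel.reindex {Q : (ι → F.Ext) → Prop} (h : ∃ A, FRel F Q A) (f : ι → κ) :
    ∃ A, FRel F (fun v : κ → F.Ext => Q (fun i => v (f i))) A := by
  obtain ⟨A, hA⟩ := h
  exact ⟨fun v p => A (fun i => v (f i)) p,
    ⟨dr_w hA (fun i => some (f i)) (fun v => v none), fun v => hA.good _, fun v => hA.truth _⟩⟩

end Pool.Agent.ZFIter.NPA.BSM
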