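import Pool.Agent.BSM.FFor
import Pool.Agent.BSM.FZf3
import Pool.Agent.BSM.FChk

/-!
# BSM/FZf2: the generic extension is a model of ZF

* separation: for a definable class `s` take `A` from `frel1` (the set `s` is `Definable₁`, which is
  definability of `{v : Fin 1 → _ | v 0 ∈ s}`); name: all `(u, q)` with `u ∈ sUn (sUn a)`, `q ∈ P`, such
  that `(u, c) ∈ a` for some `c` with `q ≤ c`, and `A u q`. `Fo.E_iff`, and for the inclusion from
  right to left: `(u, c) ∈ a`, `c ∈ G`, `A u p`, `p ∈ G` have a common extension `q` in `G`.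
  (Choose the name `u` of the given element `val x = val u` first and use `Q (val u)`.)
* replacement: `A` from `frel2`. In `M` every set is constructible (`F.vl`), so
  `W u q := hF emp (leastO (fun α => A u (hF emp α) q))` is a definable choice function: if
  `∃ y, A u y q` then `A u (W u q) q` (`InL emp y` is `∃ α, Ord α ∧ y = hF emp α`; `leastO_spec`). Name of
  a set which includes the image: all `(W u q, q)` with `u ∈ sUn (sUn a)`, `q ∈ P`; then separation.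
* power set: `pow_E` and separation. infinity: `can F omega`, `elim_can`.
-/

universe u

namespace Pool.Agent.ZFIter.NPA.BSM

open Pool.Agent.H78.ZF Pool.Agent.ZFIter Pool.Agent.ZFIter.NPA

variable {M : Type u} [ZFM M] {F : Fo M}

theorem fzf2_fst {z s a : M} (h : opair z s ∈ a) : z ∈ sUn (sUn a) := by
  rw [mem_sUn]
  refine ⟨sing z, ?_, by simp⟩
  rw [mem_sUn]
  exact ⟨opair z s, h, by simp [opair]⟩

/-- Separation for classes with a forcing relation. -/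
theorem fzf2_sep (Q : F.Ext → Prop) (A : M → M → Prop) [D2 A] (hg : ∀ x, Good F.P F.R (A x))
    (ht : ∀ x, Q (F.val x) ↔ ∃ p, F.G p ∧ A x p) (a : F.Ext) :
    ∃ b, ∀ x, F.E x b ↔ F.E x a ∧ Q x := by
  obtain ⟨a, rfl⟩ := Fo.exists_val a
  set b : M := sep (prod (sUn (sUn a)) F.P)
    (fun w => ∃ u q c, w = opair u q ∧ opair u c ∈ a ∧ Le F.P F.R q c ∧ A u q) with hb
  have hmem : ∀ u q, opair u q ∈ b ↔ ∃ c, opair u c ∈ a ∧ Le F.P F.R q c ∧ A u q := by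
    intro u q
    rw [hb, mem_sep, opair_mem_prod]
    constructor
    · rintro ⟨_, u', q', c, e, h1, h2, h3⟩
      obtain ⟨rfl, rfl⟩ := opair_inj e
      exact ⟨c, h1, h2, h3⟩
    · rintro ⟨c, h1, h2, h3⟩
      exact ⟨⟨fzf2_fst h1, h2.memL⟩, u, q, c, rfl, h1, h2, h3⟩
  refine ⟨F.val b, fun x => ?_⟩
  obtain ⟨x, rfl⟩ := Fo.exists_val x
  constructor
  · intro h
    obtain ⟨z, t, hz, hG, e⟩ := Fo.E_iff.1 h
    obtain ⟨c, hc, hle, hA⟩ := (hmem z t).1 hz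
    exact ⟨Fo.E_iff.2 ⟨z, c, hc, F.gen.up t c hG hle, e⟩, by rw [e]; exact (ht z).2 ⟨t, hG, hA⟩⟩
  · rintro ⟨h1, h2⟩
    obtain ⟨z, c, hc, hG, e⟩ := Fo.E_iff.1 h1
    rw [e] at h2
    obtain ⟨p, hp, hA⟩ := (ht z).1 h2
    obtain ⟨q, hq, hq1, hq2⟩ := F.gen.dir c p hG hp
    exact Fo.E_iff.2 ⟨z, q, (hmem z q).2 ⟨c, hc, hq1, (hg z).mono hA hq2⟩, hq, e⟩

theorem sep_E (s : Set F.Ext) (hs : @Set.Definable₁ F.Ext Set.univ LSet (structOf F.E) s) (a : F.Ext) :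
    ∃ b, ∀ x, F.E x b ↔ F.E x a ∧ x ∈ s := by
  obtain ⟨A, hA, hg, ht⟩ := frel1 (F := F) (fun x => x ∈ s) hs
  exact fzf2_sep (fun x => x ∈ s) A hg ht a

theorem repl_E (S : Set (F.Ext × F.Ext))
    (hS : @Set.Definable₂ F.Ext Set.univ LSet (structOf F.E) S) (a : F.Ext)
    (h : ∀ x, F.E x a → ∃! y, (x, y) ∈ S) : ∃ b, ∀ y, F.E y b ↔ ∃ x, F.E x a ∧ (x, y) ∈ S := by
  obtain ⟨A, hA, hg, ht⟩ := frel2 (F := F) (fun x y => (x, y) ∈ S) hS
  obtain ⟨a, rfl⟩ := Fo.exists_val a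
  obtain ⟨W, hW, hWd⟩ : ∃ W : M → M → M, F2 W ∧ ∀ u q,
      W u q = hF emp (leastO (fun α => A u (hF emp α) q)) := by
    refine ⟨fun u q => hF emp (leastO (fun α => A u (hF emp α) q)), ?_, fun _ _ => rfl⟩
    infer_instance
  have hWA : ∀ u y q, A u y q → A u (W u q) q := by
    intro u y q hy
    obtain ⟨α, hα, e⟩ := F.vl y
    rw [hWd]
    exact (leastO_spec (fun α => A u (hF emp α) q) ⟨α, hα, by rw [← e]; exact hy⟩).2.1
  set b : M := sep (prod (sUn (img (sUn (sUn a)) (fun u => img F.P (fun q => W u q)))) F.P)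
    (fun w => ∃ u q c, w = opair (W u q) q ∧ opair u c ∈ a ∧ Le F.P F.R q c ∧ A u (W u q) q) with hb
  have hmem : ∀ z q, opair z q ∈ b ↔ ∃ u, z = W u q ∧ ∃ c, opair u c ∈ a ∧ Le F.P F.R q c ∧
      A u (W u q) q := by
    intro z q
    rw [hb, mem_sep, opair_mem_prod, mem_sUn]
    constructor
    · rintro ⟨_, u', q', c, e, h1, h2, h3⟩
      obtain ⟨rfl, rfl⟩ := opair_inj e
      exact ⟨u', rfl, c, h1, h2, h3⟩
    · rintro ⟨u, rfl, c, h1, h2, h3⟩
      refine ⟨⟨⟨img F.P (fun q => W u q), ?_, ?_⟩, h2.memL⟩, u, q, c, rfl, h1, h2, h3⟩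
      · rw [mem_img]
        exact ⟨u, fzf2_fst h1, rfl⟩
      · rw [mem_img]
        exact ⟨q, h2.memL, rfl⟩
  refine ⟨F.val b, fun y => ?_⟩
  obtain ⟨y, rfl⟩ := Fo.exists_val y
  constructor
  · intro hy
    obtain ⟨z, q, hz, hG, e⟩ := Fo.E_iff.1 hy
    obtain ⟨u, rfl, c, hc, hle, hA'⟩ := (hmem z q).1 hz
    refine ⟨F.val u, Fo.E_iff.2 ⟨u, c, hc, F.gen.up q c hG hle, rfl⟩, ?_⟩
    rw [e]
    exact (ht u (W u q)).2 ⟨q, hG, hA'⟩
  · rintro ⟨x, hx, hxy⟩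
    obtain ⟨x, rfl⟩ := Fo.exists_val x
    obtain ⟨u, c, hc, hG, e⟩ := Fo.E_iff.1 hx
    rw [e] at hxy hx
    obtain ⟨p, hp, hA'⟩ := (ht u y).1 hxy
    obtain ⟨q, hq, hq1, hq2⟩ := F.gen.dir c p hG hp
    have h1 : A u (W u q) q := hWA u y q ((hg u y).mono hA' hq2)
    have h2 : (F.val u, F.val (W u q)) ∈ S := (ht u (W u q)).2 ⟨q, hq, h1⟩
    have h3 : F.val y = F.val (W u q) := (h (F.val u) hx).unique hxy h2
    exact Fo.E_iff.2 ⟨W u q, q, (hmem (W u q) q).2 ⟨u, rfl, c, hc, hq1, h1⟩, hq, h3⟩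

/-- the power set axiom -/
theorem fzf2_pow (x : F.Ext) : ∃ p, ∀ w, F.E w p ↔ ∀ z, F.E z w → F.E z x := by
  obtain ⟨p, hp⟩ := pow_E x
  obtain ⟨x, rfl⟩ := Fo.exists_val x
  obtain ⟨A, hA⟩ : ∃ A, FRel F (fun v : Fin 2 → F.Ext => ∀ z, F.E z (v 0) → F.E z (v 1)) A :=
    FRel.all (Q := fun v : Option (Fin 2) → F.Ext => F.E (v none) (v (some 0)) →
      F.E (v none) (v (some 1))) (FRel.imp (FRel.mem _ _) (FRel.mem _ _))
  have hD : D2 (fun w q => A ![w, x] q) := by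
    have h1 : ∀ o : Option (Fin 2), DF (M := M) (ι := Fin 2)
        ((fun o v => o.elim (v 1) ![v 0, x] : Option (Fin 2) → (Fin 2 → M) → M) o) := by
      intro o
      rcases o with _ | i
      · exact DF.var 1
      · fin_cases i
        · exact DF.var 0
        · exact (inferInstance : DF (fun _ : Fin 2 → M => x))
    exact ⟨@DR.subst M _ (Fin 2) (Option (Fin 2)) _ _ hA.dr _ h1⟩
  obtain ⟨b, hb⟩ := fzf2_sep (fun w => ∀ z, F.E z w → F.E z (F.val x)) (fun w q => A ![w, x] q)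
    (fun w => hA.good _) (fun w => hA.truth ![w, x]) p
  refine ⟨b, fun w => ?_⟩
  rw [hb w]
  exact ⟨fun h => h.2, fun h => ⟨hp w h, h⟩⟩

theorem fzf2_inf : ∃ x : F.Ext, (∃ e, F.E e x ∧ ∀ z, ¬ F.E z e) ∧
    ∀ y, F.E y x → ∃ s, F.E s x ∧ ∀ z, F.E z s ↔ F.E z y ∨ z = y := by
  refine ⟨can F omega, ⟨can F emp, elim_can.2 ⟨emp, emp_mem_omega, rfl⟩, fun z hz => ?_⟩,
    fun y hy => ?_⟩
  · obtain ⟨y, hy, _⟩ := elim_can.1 hz
    exact not_mem_emp y hy
  · obtain ⟨n, hn, rfl⟩ := elim_can.1 hy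
    refine ⟨can F (succ n), elim_can.2 ⟨succ n, succ_mem_omega hn, rfl⟩, fun z => ?_⟩
    rw [elim_can, elim_can]
    constructor
    · rintro ⟨w, hw, rfl⟩
      rcases (mem_succ _ _).1 hw with h1 | h1
      · exact Or.inl ⟨w, h1, rfl⟩
      · exact Or.inr (by rw [h1])
    · rintro (⟨w, hw, rfl⟩ | rfl)
      · exact ⟨w, (mem_succ _ _).2 (Or.inl hw), rfl⟩
      · exact ⟨n, (mem_succ _ _).2 (Or.inr rfl), rfl⟩

theorem zf_E : IsZFModel F.E where
  extensionality := ext_E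
  foundation := fnd_E
  pairing := pair_E
  union := union_E
  powerset := fzf2_pow
  infinity := fzf2_inf
  separation := fun s hs a => sep_E s hs a
  replacement := fun S hS a h => repl_E S hS a h

end Pool.Agent.ZFIter.NPA.BSM
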