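import Pool.Agent.NMB.ITower

/-!
# BSM/TowI: the tower construction, `BSM.tower` (proved in NMB/I*)
-/
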