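import Pool.Agent.BSM.DefsG

/-!
# BSM/WZ1: the sets of the universe `Type 1` are a model of ZF with an inaccessible cardinal

`kZ`, the set of the ordinals of the universe `Type 0`, is an inaccessible cardinal of `Z1`. Let
`tO : Ordinal.{0} → Z1`, `tO α = {tO β : β < α}` and `kZ = {tO α : α}`. A function of the model from
`tO α` to `kZ` gives a function `Set.Iio α → Ordinal.{0}`, bounded because `Set.Iio α` is small. The
power set of `tO α` is small: code its elements by subsets of `Shrink (Set.Iio α)`.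
-/

universe u v

namespace Pool.Agent.ZFIter.NPA.BSM

open Pool.Agent.H78.ZF Pool.Agent.ZFIter Pool.Agent.ZFIter.NPA

/-- The sets of the universe `Type 1`, as a type without Mathlib's own instances. -/
def Z1 : Type 2 := ZFSet.{1}

/-- Membership. -/
def Z1.E (x y : Z1) : Prop := @Membership.mem ZFSet.{1} ZFSet.{1} _ y x

private theorem zf_aux : IsZFModel (fun x y : ZFSet.{1} => x ∈ y) where
  extensionality x y h := ZFSet.ext h
  foundation x hx := by
    obtain ⟨y, hy⟩ := hx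
    have h1 : x ≠ ∅ := by
      rintro rfl
      exact ZFSet.notMem_empty _ hy
    obtain ⟨z, hz, hz'⟩ := ZFSet.regularity x h1
    refine ⟨z, hz, fun w hw hwx => ?_⟩
    have : w ∈ x ∩ z := ZFSet.mem_inter.2 ⟨hwx, hw⟩
    rw [hz'] at this
    exact ZFSet.notMem_empty _ this
  pairing x y := ⟨{x, y}, fun w => ZFSet.mem_pair⟩
  union x := ⟨ZFSet.sUnion x, fun w => ZFSet.mem_sUnion⟩
  powerset x := ⟨ZFSet.powerset x, fun w => ZFSet.mem_powerset⟩
  infinity := by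
    refine ⟨ZFSet.omega, ⟨∅, ZFSet.omega_zero, ZFSet.notMem_empty⟩, fun y hy => ?_⟩
    refine ⟨insert y y, ZFSet.omega_succ hy, fun z => ?_⟩
    rw [ZFSet.mem_insert_iff]
    exact or_comm
  separation s _ a := ⟨ZFSet.sep (fun x => x ∈ s) a, fun x => ZFSet.mem_sep⟩
  replacement F _ a h := by
    have h1 : ∀ x : {x // x ∈ a}, ∃ y, (x.1, y) ∈ F := fun x => (h x.1 x.2).exists
    choose f hf using h1
    refine ⟨ZFSet.range f, fun y => ?_⟩
    rw [ZFSet.mem_range]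
    constructor
    · rintro ⟨x, rfl⟩
      exact ⟨x.1, x.2, hf x⟩
    · rintro ⟨x, hx, hxy⟩
      refine ⟨⟨x, hx⟩, ?_⟩
      exact (h x hx).unique (hf ⟨x, hx⟩) hxy

/-- `ZFSet` is a model of ZF. -/
theorem zf_Z1 : IsZFModel Z1.E := zf_aux

noncomputable instance instZ1 : ZFM Z1 := ⟨Z1.E, zf_Z1⟩


private theorem mem_Z1 (x y : Z1) : x ∈ y ↔ Z1.E x y := Iff.rfl

/-- Separation holds in `Z1` for every predicate. -/
private theorem sepZ (P : Z1 → Prop) (a : Z1) : ∃ b : Z1, ∀ x, x ∈ b ↔ x ∈ a ∧ P x :=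
  ⟨(ZFSet.sep (fun x : ZFSet.{1} => P x) a : ZFSet.{1}), fun _ => ZFSet.mem_sep⟩

private theorem rangeZ {α : Type 1} (f : α → Z1) : ∃ b : Z1, ∀ x, x ∈ b ↔ ∃ i, f i = x :=
  ⟨(ZFSet.range (fun i => (f i : ZFSet.{1})) : ZFSet.{1}), fun _ => ZFSet.mem_range⟩

private noncomputable def rg {α : Type 1} (f : α → Z1) : Z1 := Classical.choose (rangeZ f)

private theorem mem_rg {α : Type 1} (f : α → Z1) (x : Z1) : x ∈ rg f ↔ ∃ i, f i = x :=
  Classical.choose_spec (rangeZ f) x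

/-- The ordinals of the universe `Type 0` as elements of `Z1`. -/
private noncomputable def tO (α : Ordinal.{0}) : Z1 :=
  rg (fun β : Set.Iio α => tO β.1)
termination_by α
decreasing_by exact β.2

private theorem mem_tO (α : Ordinal.{0}) (x : Z1) : x ∈ tO α ↔ ∃ β, β < α ∧ x = tO β := by
  rw [tO, mem_rg]
  constructor
  · rintro ⟨β, rfl⟩
    exact ⟨β.1, β.2, rfl⟩
  · rintro ⟨β, h, rfl⟩
    exact ⟨⟨β, h⟩, rfl⟩

private theorem tO_mem {α β : Ordinal.{0}} (h : β < α) : tO β ∈ tO α :=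
  (mem_tO α _).2 ⟨β, h, rfl⟩

private theorem tO_inj {α β : Ordinal.{0}} (h : tO α = tO β) : α = β := by
  rcases lt_trichotomy α β with h1 | h1 | h1
  · have := tO_mem h1
    rw [h] at this
    exact absurd this (not_mem_self _)
  · exact h1
  · have := tO_mem h1
    rw [h] at this
    exact absurd this (not_mem_self _)

private theorem tO_zero : tO 0 = (emp : Z1) := by
  apply Pool.Agent.H78.ZF.ext
  intro z
  rw [mem_tO]
  constructor
  · rintro ⟨β, h, _⟩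
    exact absurd h (_root_.not_lt.2 (_root_.zero_le))
  · intro h
    exact absurd h (not_mem_emp z)

private theorem tO_succ (α : Ordinal.{0}) : tO (Order.succ α) = succ (tO α) := by
  apply Pool.Agent.H78.ZF.ext
  intro z
  rw [mem_tO, mem_succ, mem_tO]
  constructor
  · rintro ⟨β, h, rfl⟩
    rcases (Order.lt_succ_iff.1 h).lt_or_eq with h1 | h1
    · exact Or.inl ⟨β, h1, rfl⟩
    · right
      rw [h1]
  · rintro (⟨β, h, rfl⟩ | rfl)
    · exact ⟨β, h.trans (Order.lt_succ α), rfl⟩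
    · exact ⟨α, Order.lt_succ α, rfl⟩

private theorem tO_nat (n : ℕ) : tO n ∈ (omega : Z1) := by
  induction n with
  | zero =>
    rw [Nat.cast_zero, tO_zero]
    exact emp_mem_omega
  | succ n ih =>
    have : ((n + 1 : ℕ) : Ordinal.{0}) = Order.succ (n : Ordinal.{0}) := by
      rw [Nat.cast_succ, Order.succ_eq_add_one]
    rw [this, tO_succ]
    exact succ_mem_omega ih

private theorem tO_omega : tO Ordinal.omega0 = (omega : Z1) := by
  apply sub_antisymm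
  · intro z hz
    rw [mem_tO] at hz
    obtain ⟨β, h, rfl⟩ := hz
    obtain ⟨n, rfl⟩ := Ordinal.lt_omega0.1 h
    exact tO_nat n
  · intro z hz
    apply mem_omega.1 hz
    refine ⟨?_, ?_⟩
    · rw [← tO_zero]
      exact tO_mem Ordinal.omega0_pos
    · intro y hy
      rw [mem_tO] at hy
      obtain ⟨β, h, rfl⟩ := hy
      rw [← tO_succ]
      exact tO_mem (Ordinal.isSuccLimit_omega0.succ_lt h)


private noncomputable def kZ : Z1 := rg (fun α : Ordinal.{0} => tO α)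

private theorem mem_kZ (x : Z1) : x ∈ kZ ↔ ∃ α : Ordinal.{0}, x = tO α := by
  unfold kZ
  rw [mem_rg]
  exact ⟨fun ⟨α, h⟩ => ⟨α, h.symm⟩, fun ⟨α, h⟩ => ⟨α, h.symm⟩⟩

private theorem trans_tO (α : Ordinal.{0}) : Trans (tO α) := by
  intro y hy z hz
  rw [mem_tO] at hy
  obtain ⟨β, h, rfl⟩ := hy
  rw [mem_tO] at hz
  obtain ⟨γ, h', rfl⟩ := hz
  exact tO_mem (h'.trans h)

private theorem ord_kZ : Ord kZ := by
  constructor
  · intro y hy z hz
    rw [mem_kZ] at hy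
    obtain ⟨β, rfl⟩ := hy
    rw [mem_tO] at hz
    obtain ⟨γ, h', rfl⟩ := hz
    exact (mem_kZ _).2 ⟨γ, rfl⟩
  · intro y hy
    rw [mem_kZ] at hy
    obtain ⟨β, rfl⟩ := hy
    exact trans_tO β

private theorem bd_kZ (γ h : Z1) (hγ : γ ∈ kZ) (hh : Fun h γ kZ) :
    ∃ η, η ∈ kZ ∧ ∀ ξ, ξ ∈ γ → ap h ξ ∈ η := by
  rw [mem_kZ] at hγ
  obtain ⟨α, rfl⟩ := hγ
  have h1 : ∀ β : Set.Iio α, ∃ δ : Ordinal.{0}, ap h (tO β.1) = tO δ := fun β =>
    (mem_kZ _).1 (hh.ap_mem (tO_mem β.2))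
  choose g hg using h1
  obtain ⟨B, hB⟩ : BddAbove (Set.range g) := Ordinal.bddAbove_of_small
  refine ⟨tO (Order.succ B), (mem_kZ _).2 ⟨_, rfl⟩, fun ξ hξ => ?_⟩
  rw [mem_tO] at hξ
  obtain ⟨β, h', rfl⟩ := hξ
  rw [hg ⟨β, h'⟩]
  exact tO_mem (Order.lt_succ_iff.2 (hB ⟨⟨β, h'⟩, rfl⟩))

private theorem pow_kZ (γ : Z1) (hγ : γ ∈ kZ) : ∃ δ f, δ ∈ kZ ∧ Inj f (pow γ) δ := by
  classical
  rw [mem_kZ] at hγ
  obtain ⟨α, rfl⟩ := hγ
  set T : Type := Shrink.{0} (Set.Iio α) with hT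
  let r : Set T → Set T → Prop := WellOrderingRel
  let code : Z1 → Set T := fun w => {a | tO ((equivShrink (Set.Iio α)).symm a).1 ∈ w}
  have hcode : ∀ w w' : Z1, w ⊆ tO α → w' ⊆ tO α → code w = code w' → w ⊆ w' := by
    intro w w' hw _ e z hz
    have h1 := hw z hz
    rw [mem_tO] at h1
    obtain ⟨β, hβ, rfl⟩ := h1
    have h2 : equivShrink (Set.Iio α) ⟨β, hβ⟩ ∈ code w := by
      show tO ((equivShrink (Set.Iio α)).symm (equivShrink (Set.Iio α) ⟨β, hβ⟩)).1 ∈ w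
      rw [Equiv.symm_apply_apply]
      exact hz
    rw [e] at h2
    have h3 : tO ((equivShrink (Set.Iio α)).symm (equivShrink (Set.Iio α) ⟨β, hβ⟩)).1 ∈ w' := h2
    rw [Equiv.symm_apply_apply] at h3
    exact h3
  let F : Z1 → Ordinal.{0} := fun w => Ordinal.typein r (code w)
  have hF : ∀ w, F w < Ordinal.type r := fun w => Ordinal.typein_lt_type r _
  obtain ⟨f, hf⟩ := sepZ (fun z => ∃ w, z = opair w (tO (F w))) (prod (pow (tO α)) (tO (Ordinal.type r)))
  have hmem : ∀ w, w ⊆ tO α → opair w (tO (F w)) ∈ f := by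
    intro w hw
    rw [hf]
    exact ⟨(opair_mem_prod _ _ _ _).2 ⟨(mem_pow _ _).2 hw, tO_mem (hF w)⟩, w, rfl⟩
  have huniq : ∀ w y, opair w y ∈ f → w ⊆ tO α ∧ y = tO (F w) := by
    intro w y h
    rw [hf] at h
    obtain ⟨h1, w', e⟩ := h
    rw [opair_mem_prod] at h1
    obtain ⟨rfl, rfl⟩ := opair_inj e
    exact ⟨(mem_pow _ _).1 h1.1, rfl⟩
  refine ⟨tO (Ordinal.type r), f, (mem_kZ _).2 ⟨_, rfl⟩, ⟨⟨?_, ?_⟩, ?_⟩⟩
  · intro z hz
    rw [hf] at hz
    obtain ⟨_, w, rfl⟩ := hz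
    have h1 := (huniq w _ ((hf _).2 ⟨by assumption, w, rfl⟩)).1
    exact ⟨w, (mem_pow _ _).2 h1, _, tO_mem (hF w), rfl⟩
  · intro w hw
    rw [mem_pow] at hw
    exact ⟨_, hmem w hw, fun y hy => (huniq w y hy).2⟩
  · intro w w' y h h'
    obtain ⟨h1, h2⟩ := huniq w y h
    obtain ⟨h3, h4⟩ := huniq w' y h'
    have h5 : F w = F w' := tO_inj (h2.symm.trans h4)
    have h6 : code w = code w' := Ordinal.typein_injective r h5
    exact sub_antisymm (hcode w w' h1 h3 h6) (hcode w' w h3 h1 h6.symm)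

/-- There is an inaccessible cardinal in `Z1`. -/
theorem exists_inacc : ∃ κ : Z1, Inacc κ := by
  refine ⟨kZ, ord_kZ, ?_, bd_kZ, pow_kZ⟩
  rw [← tO_omega]
  exact (mem_kZ _).2 ⟨_, rfl⟩

end Pool.Agent.ZFIter.NPA.BSM
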