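import Pool.Agent.BSM.WIn
import Pool.Agent.BSM.WZ1
import Pool.Agent.BSM.FAc
import Pool.Agent.NPA.AOtp

/-!
# BSM/WL: an inaccessible cardinal is inaccessible in `L`
-/

universe u v

namespace Pool.Agent.ZFIter.NPA.BSM

open Pool.Agent.H78.ZF Pool.Agent.ZFIter Pool.Agent.ZFIter.NPA

variable {M : Type u} [ZFM M]

/-- An element of an inner model, as an element of the type `Sub K`. -/
def toSub {K : M → Prop} (x : M) (h : K x) : Sub K := ⟨x, h⟩

/-- The only element of a separated set. -/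
private theorem sUn_sep_eq {a x : M} {P : M → Prop} [D1 P] (hx : x ∈ a) (hP : P x)
    (hu : ∀ y, y ∈ a → P y → y = x) : sUn (sep a P) = x := by
  apply Pool.Agent.H78.ZF.ext
  intro z
  rw [mem_sUn]
  constructor
  · rintro ⟨y, hy, hz⟩
    rw [mem_sep] at hy
    rwa [← hu y hy.1 hy.2]
  · intro hz
    exact ⟨x, by rw [mem_sep]; exact ⟨hx, hP⟩, hz⟩

/-- With choice every set is in bijection with an ordinal. -/
theorem bij_ord (h : AC M) (P : M) : ∃ b g : M, Ord b ∧ Bij g P b := by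
  obtain ⟨a, f, ha, hf⟩ := h P
  have hY : ∀ y, y ∈ img P (fun x => ap f x) → Ord y := by
    intro y hy
    rw [mem_img] at hy
    obtain ⟨x, hx, rfl⟩ := hy
    exact ha.mem (hf.fun.ap_mem hx)
  have hin : ∀ x, x ∈ P → ap f x ∈ img P (fun x => ap f x) := by
    intro x hx
    rw [mem_img]
    exact ⟨x, hx, rfl⟩
  have hm : ∀ x, x ∈ P → otp (img P (fun x => ap f x)) (ap f x) ∈
      otp (img P (fun x => ap f x)) a := by
    intro x hx
    exact otp_lt hY ha (hin x hx) (hf.fun.ap_mem hx)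
  refine ⟨otp (img P (fun x => ap f x)) a, mkf P (otp (img P (fun x => ap f x)) a)
    (fun x => otp (img P (fun x => ap f x)) (ap f x)), otp_ord hY ha, ?_⟩
  rw [bij_iff]
  refine ⟨mkf_fun hm, fun x x' hx hx' e => ?_, fun y hy => ?_⟩
  · rw [ap_mkf hm hx, ap_mkf hm hx'] at e
    exact hf.ap_inj hx hx' (otp_inj hY (hin _ hx') (hin _ hx) e)
  · obtain ⟨β, hβ, _, rfl⟩ := otp_surj hY ha hy
    rw [mem_img] at hβ
    obtain ⟨x, hx, rfl⟩ := hβ
    exact ⟨x, hx, ap_mkf hm hx⟩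

/-- An inaccessible cardinal does not inject into a smaller ordinal. -/
theorem inacc_no_inj {κ δ j : M} (h : Inacc κ) (hδ : δ ∈ κ) (hj : Inj j κ δ) : False := by
  have hval : ∀ α, α ∈ κ → sUn (sep κ (fun β => ap j β = ap j α)) = α := fun α hα =>
    sUn_sep_eq hα rfl (fun y hy e => hj.ap_inj hy hα e)
  have hemp : (emp : M) ∈ κ := h.1.trans emp_mem_omega h.2.1
  have hm : ∀ ξ, ξ ∈ δ → sUn (sep κ (fun β => ap j β = ξ)) ∈ κ := by
    intro ξ _
    by_cases h1 : ∃ α, α ∈ κ ∧ ap j α = ξ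
    · obtain ⟨α, hα, rfl⟩ := h1
      rw [hval α hα]
      exact hα
    · have : sUn (sep κ (fun β => ap j β = ξ)) = emp := by
        refine eq_emp fun z hz => ?_
        rw [mem_sUn] at hz
        obtain ⟨y, hy, _⟩ := hz
        rw [mem_sep] at hy
        exact h1 ⟨y, hy⟩
      rw [this]
      exact hemp
  obtain ⟨η, hη, h2⟩ := h.2.2.1 δ (mkf δ κ (fun ξ => sUn (sep κ (fun β => ap j β = ξ)))) hδ
    (mkf_fun hm)
  have h3 := h2 (ap j η) (hj.fun.ap_mem hη)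
  rw [ap_mkf hm (hj.fun.ap_mem hη), hval η hη] at h3
  exact not_mem_self _ h3

/-- `V = L` holds in `L` (`abs_InL`, `abs_emp`). -/
theorem vl_L (x : Sub (InL (emp : M))) : InL emp x := by
  rw [abs_InL, abs_emp]
  exact x.2

/-- An inaccessible cardinal is inaccessible in `L = InL emp`. -/
theorem inacc_L {κ : M} (h : Inacc κ) (hL : InL emp κ) :
    Inacc (toSub (K := InL (emp : M)) κ hL) := by
  refine ⟨abs_Ord.2 h.1, ?_, ?_, ?_⟩
  · rw [sub_mem, abs_omega]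
    exact h.2.1
  · intro γ f hγ hf
    obtain ⟨η, hη, h1⟩ := h.2.2.1 γ.1 f.1 hγ (abs_Fun.1 hf)
    refine ⟨toSub η (Inner.ord η (h.1.mem hη)), hη, fun ξ hξ => ?_⟩
    rw [sub_mem, abs_ap]
    exact h1 ξ.1 hξ
  · intro γ hγ
    obtain ⟨b, g, hb, hg⟩ := bij_ord (ac_vl vl_L) (pow γ)
    by_cases hbκ : b.1 ∈ κ
    · exact ⟨b, g, hbκ, hg.inj⟩
    exfalso
    have hsub : κ ⊆ b.1 := by
      rcases ord_trichotomy (abs_Ord.1 hb) h.1 with h1 | h1 | h1
      · exact absurd h1 hbκ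
      · rw [h1]
        exact fun z hz => hz
      · exact (abs_Ord.1 hb).1 κ h1
    obtain ⟨δ, g0, hδ, hg0⟩ := h.2.2.2 γ.1 hγ
    have hg' := abs_Inj.1 hg.inj
    have hP : (pow γ).1 ⊆ pow γ.1 := by
      intro x hx
      rw [mem_pow]
      have h1 : toSub x (sub_of_mem hx) ∈ pow γ := hx
      rw [mem_pow, abs_sub] at h1
      exact h1
    have hsur : ∀ α, α ∈ κ → ∃ x, x ∈ (pow γ).1 ∧ ap g.1 x = α := by
      intro α hα
      obtain ⟨x, hx, e⟩ := (bij_iff.1 hg).2.2 (toSub α (Inner.ord α (h.1.mem hα))) (hsub α hα)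
      refine ⟨x.1, hx, ?_⟩
      rw [← abs_ap, e]
      rfl
    have hval : ∀ x, x ∈ (pow γ).1 → sUn (sep (pow γ).1 (fun y => ap g.1 y = ap g.1 x)) = x :=
      fun x hx => sUn_sep_eq hx rfl (fun y hy e => hg'.ap_inj hy hx e)
    have hm : ∀ α, α ∈ κ → ap g0 (sUn (sep (pow γ).1 (fun y => ap g.1 y = α))) ∈ δ := by
      intro α hα
      obtain ⟨x, hx, rfl⟩ := hsur α hα
      rw [hval x hx]
      exact hg0.fun.ap_mem (hP x hx)
    refine inacc_no_inj h hδ (j := mkf κ δ (fun α =>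
      ap g0 (sUn (sep (pow γ).1 (fun y => ap g.1 y = α))))) ?_
    rw [inj_iff]
    refine ⟨mkf_fun hm, fun α α' hα hα' e => ?_⟩
    rw [ap_mkf hm hα, ap_mkf hm hα'] at e
    obtain ⟨x, hx, rfl⟩ := hsur α hα
    obtain ⟨x', hx', rfl⟩ := hsur α' hα'
    rw [hval x hx, hval x' hx'] at e
    rw [hg0.ap_inj (hP x hx) (hP x' hx') e]

/-- The least inaccessible cardinal (`exists_leastO`). -/
theorem exists_least_inacc (h : ∃ κ : M, Inacc κ) :
    ∃ κ : M, Inacc κ ∧ ∀ μ, μ ∈ κ → ¬ Inacc μ := by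
  obtain ⟨κ, h1⟩ := h
  obtain ⟨β, _, h3, h4⟩ := exists_leastO (fun α : M => Inacc α) ⟨κ, h1.1, h1⟩
  exact ⟨β, h3, h4⟩

/-- There is a countable model of ZF and `V = L` with a least inaccessible cardinal. -/
theorem exists_ground : ∃ (M : Type) (_ : ZFM M), Countable M ∧ (∀ x : M, InL emp x) ∧
    ∃ κ : M, Inacc κ ∧ ∀ μ, μ ∈ κ → ¬ Inacc μ := by
  obtain ⟨κ, hκ⟩ := exists_inacc
  obtain ⟨S, _, hc, k, hk⟩ := exists_countable κ hκ
  have hL : InL emp k := Inner.ord (K := InL emp) k hk.1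
  refine ⟨Sub (InL (emp : S)), inferInstance, ?_, fun x => vl_L x, ?_⟩
  · exact (inferInstance : Countable {x : S // InL emp x})
  · have h2 : ∃ κ : Sub (InL (emp : S)), Inacc κ := ⟨toSub k hL, inacc_L hk hL⟩
    exact exists_least_inacc h2

end Pool.Agent.ZFIter.NPA.BSM
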