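import Pool.Agent.BSM.WGen
import Pool.Agent.BSM.WL

/-!
# BSM/WGr: a countable model of `V = L` with a least inaccessible cardinal

`exists_ground` is in `BSM/WL`, `exists_gen` is in `BSM/WGen`.
-/
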