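import Pool.Agent.BSM.VTow
import Pool.Agent.BSM.FLst
import Pool.Agent.BSM.FAc
import Pool.Agent.BSM.TowI
import Pool.Agent.BSM.WGr

/-!
# BSM/Fin: a Solovay model for which the statement of Q1 fails
-/

universe u

namespace Pool.Agent.ZFIter.NPA.BSM

open Pool.Agent.H78.ZF Pool.Agent.ZFIter Pool.Agent.ZFIter.NPA

/-- Every Levy extension of a countable model of `V = L`, for the least inaccessible cardinal, has the
required ultrafilters. -/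
theorem main_ext {M : Type u} [ZFM M] (F : Fo M) {κ : M} (hκ : Inacc κ)
    (hmin : ∀ μ, μ ∈ κ → ¬ Inacc μ) (hP : F.P = Lev κ) (hR : F.R = LevR κ) :
    ∃ p q : F.Ext, Selective p ∧ Uf q ∧ Nonpr q ∧ InLRp p q ∧ ¬ InGp p q := by
  obtain ⟨S, hS⟩ := tower_hyp hκ hmin hP hR
  exact tower ac_ext hS

theorem main : ∃ (M : Type) (_ : ZFM M) (N : Type) (_ : ZFM N) (i : M → N) (κ : M) (G : M → Prop),
    Countable M ∧ (∀ x : M, InL emp x) ∧ AC M ∧ Inacc κ ∧ (∀ μ, μ ∈ κ → ¬ Inacc μ) ∧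
    Gen (Lev κ) (LevR κ) G ∧ IsExt i G ∧ AC N ∧
    ∃ p q : N, Selective p ∧ Uf q ∧ Nonpr q ∧ InLRp p q ∧ ¬ InGp p q := by
  obtain ⟨M, hM, hc, hV, κ, hκ, hmin⟩ := exists_ground
  obtain ⟨G, hG, _⟩ := exists_gen (Lev κ) (LevR κ) emp emp_lev
  refine ⟨M, hM, (Fo.mk (Lev κ) (LevR κ) G pre_lev hG hV).Ext, zfmExt, can _, κ, G, hc, hV, ac_vl hV,
    hκ, hmin, hG, isExt, ac_ext, main_ext _ hκ hmin rfl rfl⟩

end Pool.Agent.ZFIter.NPA.BSM
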