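import Pool.Agent.BSM.RHier

/-!
# BSM/RAbs: `L(R)` is the least inner model which contains all reals; absoluteness of the hierarchy
-/

universe u

namespace Pool.Agent.ZFIter.NPA.BSM

open Pool.Agent.H78.ZF Pool.Agent.ZFIter Pool.Agent.ZFIter.NPA

variable {M : Type u} [ZFM M] {ι : Type}

section
variable {K : M → Prop} [hK : Inner K]

private def mkS (x : M) (h : K x) : Sub K := ⟨x, h⟩

private theorem ap_out' {f x : M} (h : ¬ ∃! y, opair x y ∈ f) : ap f x = emp := by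
  unfold ap
  exact iota_neg h

theorem abs_pL {w : Sub K} (hw : w ∈ (RS : Sub K)) : (pL w).1 = pL w.1 ∧ (pR w).1 = pR w.1 := by
  have h1 := jn_pL_pR hw
  have h2 : jn (pL w).1 (pR w).1 = w.1 := by
    rw [← abs_jn, h1]
  have h3 : (pL w).1 ∈ (RS : M) := abs_RS.1 (pL_mem hw)
  have h4 : (pR w).1 ∈ (RS : M) := abs_RS.1 (pR_mem hw)
  rw [← h2, pL_jn h3 h4, pR_jn h3 h4]
  exact ⟨rfl, rfl⟩

variable (hR : ∀ x : M, x ∈ (RS : M) → K x)
include hR

theorem abs_RS1 : (RS : Sub K).1 = RS := by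
  apply ext
  intro x
  constructor
  · intro h
    exact abs_RS.1 (show mkS x (sub_of_mem h) ∈ (RS : Sub K) from h)
  · intro h
    exact abs_RS.2 (show (mkS x (hR x h)).1 ∈ (RS : M) from h)

theorem abs_rSt (α g : Sub K) : (rSt α g).1 = rSt α.1 g.1 := by
  unfold rSt
  rw [abs_sUn]
  apply ext
  intro x
  rw [mem_sUn, mem_sUn]
  have hRS := abs_RS1 hR
  constructor
  · rintro ⟨y, hy, hx⟩
    rw [mem_abs_img] at hy
    obtain ⟨β, hβ, rfl⟩ := hy
    rw [mem_abs_img] at hx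
    obtain ⟨s, hs, rfl⟩ := hx
    refine ⟨img RS (fun s => ap (ap g.1 β.1) s), ?_, ?_⟩
    · rw [mem_img]
      exact ⟨β.1, hβ, rfl⟩
    · rw [mem_img]
      refine ⟨s.1, abs_RS.1 hs, ?_⟩
      rw [abs_ap, abs_ap]
  · rintro ⟨y, hy, hx⟩
    rw [mem_img] at hy
    obtain ⟨β, hβ, rfl⟩ := hy
    rw [mem_img] at hx
    obtain ⟨s, hs, rfl⟩ := hx
    refine ⟨(img (RS : Sub K) (fun s => ap (ap g (mkS β (sub_of_mem hβ))) s)).1, ?_, ?_⟩
    · rw [mem_abs_img]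
      exact ⟨mkS β (sub_of_mem hβ), hβ, rfl⟩
    · rw [mem_abs_img]
      refine ⟨mkS s (hR s hs), ?_, ?_⟩
      · exact abs_RS.2 (show (mkS s (hR s hs)).1 ∈ (RS : M) from hs)
      · rw [abs_ap, abs_ap]
        rfl

private theorem abs_rsep (α g r : Sub K) (hr : r ∈ (RS : Sub K)) :
    (sep (rSt α g) (fun w => OpMem (pR r) α (dI α) (ap (ap g (dB α)) (pL r))
      (ap (ap g (dC α)) (pR r)) w)).1 =
    sep (rSt α.1 g.1) (fun w => OpMem (pR r.1) α.1 (dI α.1) (ap (ap g.1 (dB α.1)) (pL r.1))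
      (ap (ap g.1 (dC α.1)) (pR r.1)) w) := by
  apply ext
  intro w
  rw [mem_abs_sep, mem_sep, abs_rSt hR]
  refine and_congr_right fun hw => ?_
  have hKw : K w := by
    rw [← abs_rSt hR] at hw
    exact sub_of_mem hw
  have key : OpMem (pR r) α (dI α) (ap (ap g (dB α)) (pL r)) (ap (ap g (dC α)) (pR r))
      (mkS w hKw) ↔ OpMem (pR r.1) α.1 (dI α.1) (ap (ap g.1 (dB α.1)) (pL r.1))
      (ap (ap g.1 (dC α.1)) (pR r.1)) w := by
    rw [abs_OpMem, abs_dI, abs_ap, abs_ap, abs_ap, abs_ap, abs_dB, abs_dC, (abs_pL hr).1,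
      (abs_pL hr).2]
    rfl
  exact ⟨fun ⟨_, h1⟩ => key.1 h1, fun h1 => ⟨hKw, key.2 h1⟩⟩

theorem abs_rStep (α g : Sub K) : (rStep α g).1 = rStep α.1 g.1 := by
  unfold rStep
  unfold ZFIter.mkseq
  apply ext
  intro x
  rw [mem_abs_img, mem_img]
  constructor
  · rintro ⟨r, hr, rfl⟩
    refine ⟨r.1, abs_RS.1 hr, ?_⟩
    rw [abs_opair, abs_rsep hR α g r hr]
  · rintro ⟨r, hr, rfl⟩
    have hr' : mkS r (hR r hr) ∈ (RS : Sub K) :=
      abs_RS.2 (show (mkS r (hR r hr)).1 ∈ (RS : M) from hr)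
    refine ⟨mkS r (hR r hr), hr', ?_⟩
    rw [abs_opair, abs_rsep hR α g _ hr']
    rfl

theorem abs_hQ (α : Sub K) : (hQ α).1 = hQ α.1 := by
  unfold hQ
  exact abs_erec _ _ (fun x g => abs_rStep hR x g) α

theorem abs_hP (α r : Sub K) : (hP α r).1 = hP α.1 r.1 := by
  unfold hP
  rw [abs_ap, abs_hQ hR]

theorem abs_LR {x : Sub K} : LR x ↔ LR x.1 := by
  constructor
  · rintro ⟨α, hα, r, hr, e⟩
    refine ⟨α.1, abs_Ord.1 hα, r.1, abs_RS.1 hr, ?_⟩
    rw [e, abs_hP hR]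
  · rintro ⟨α, hα, r, hr, e⟩
    refine ⟨mkS α (Inner.ord α hα), abs_Ord.2 hα, mkS r (hR r hr),
      abs_RS.2 (show (mkS r (hR r hr)).1 ∈ (RS : M) from hr), ?_⟩
    apply sub_inj
    rw [abs_hP hR]
    exact e

/-- `L(R)` is included in every inner model which contains all reals. -/
theorem lr_min {z : M} (h : LR z) : K z := by
  obtain ⟨α, hα, r, hr, rfl⟩ := h
  have h1 := (hP (mkS α (Inner.ord α hα)) (mkS r (hR r hr))).2
  rw [abs_hP hR] at h1
  exact h1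

end

/-- `V = L(R)` holds in `L(R)`. -/
theorem lr_LR (x : Sub (LR : M → Prop)) : LR x := (abs_LR (fun _ h => lr_real h)).2 x.2

end Pool.Agent.ZFIter.NPA.BSM
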