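import Pool.Agent.NPA.BAbs3
import Pool.Agent.BSM.DefsG

/-!
# BSM/RDefs: the hierarchy of `L(R)`

`hP α r` for an ordinal `α` and a real `r`: `hP α r = {w ∈ RP α : OpMem (pR r) α i (hP b (pL r))
(hP c (pR r)) w}` where `dec α = (i, b, c)` and `RP α = {hP β s : β < α, s ∈ RS}`. The operation 9 gives
the intersection with the real `pR r`.
-/

universe u

namespace Pool.Agent.ZFIter.NPA.BSM

open Pool.Agent.H78.ZF Pool.Agent.ZFIter Pool.Agent.ZFIter.NPA

variable {M : Type u} [ZFM M] {ι : Type}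

/-- The set of the values of the earlier stages. -/
noncomputable def rSt (α g : M) : M :=
  sUn (img α (fun β => img RS (fun s => ap (ap g β) s)))

instance DF.rSt (α g : (ι → M) → M) [DF α] [DF g] : DF (fun v => rSt (α v) (g v)) := by
  unfold BSM.rSt
  infer_instance

/-- The recursion step for `hQ`. -/
noncomputable def rStep (α g : M) : M :=
  mkseq RS (fun r => sep (rSt α g)
    (fun w => OpMem (pR r) α (dI α) (ap (ap g (dB α)) (pL r)) (ap (ap g (dC α)) (pR r)) w))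

instance DF.rStep (α g : (ι → M) → M) [DF α] [DF g] : DF (fun v => rStep (α v) (g v)) := by
  unfold BSM.rStep
  infer_instance

/-- The function `r ↦ hP α r` on the reals. -/
noncomputable def hQ (α : M) : M := erec (fun α g => rStep α g) α

instance DF.hQ (s : (ι → M) → M) [DF s] : DF (fun v => hQ (s v)) := by
  unfold BSM.hQ
  infer_instance

/-- The set with the index `(α, r)` in the enumeration of `L(R)`. -/
noncomputable def hP (α r : M) : M := ap (hQ α) r

instance DF.hP (s t : (ι → M) → M) [DF s] [DF t] : DF (fun v => hP (s v) (t v)) := by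
  unfold BSM.hP
  infer_instance

/-- `z` belongs to `L(R)`. -/
def LR (z : M) : Prop := ∃ α, Ord α ∧ ∃ r, r ∈ (RS : M) ∧ z = hP α r

instance DR.LR (s : (ι → M) → M) [DF s] : DR (fun v => LR (s v)) := by
  unfold BSM.LR
  infer_instance

/-- The set of all `hP β s`, `β < α`, `s` a real. -/
noncomputable def RP (α : M) : M := sUn (img α (fun β => img RS (fun s => hP β s)))

instance DF.RP (s : (ι → M) → M) [DF s] : DF (fun v => RP (s v)) := by
  unfold BSM.RP
  infer_instance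

theorem mem_RP {α x : M} : x ∈ RP α ↔ ∃ β, β ∈ α ∧ ∃ s, s ∈ (RS : M) ∧ x = hP β s := by
  unfold RP
  rw [mem_sUn]
  constructor
  · rintro ⟨y, hy, hx⟩
    rw [mem_img] at hy
    obtain ⟨β, hβ, rfl⟩ := hy
    rw [mem_img] at hx
    obtain ⟨s, hs, rfl⟩ := hx
    exact ⟨β, hβ, s, hs, rfl⟩
  · rintro ⟨β, hβ, s, hs, rfl⟩
    refine ⟨img RS (fun s => hP β s), ?_, ?_⟩
    · rw [mem_img]
      exact ⟨β, hβ, rfl⟩
    · rw [mem_img]
      exact ⟨s, hs, rfl⟩

theorem hP_eq {α r : M} (hα : Ord α) (hr : r ∈ (RS : M)) :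
    hP α r = sep (RP α) (fun w => OpMem (pR r) α (dI α) (hP (dB α) (pL r)) (hP (dC α) (pR r)) w) := by
  have h1 : hQ α = rStep α (mkseq α (fun y => hQ y)) := by
    unfold hQ
    exact erec_eq (G := fun α g => rStep α g) α
  have hst : ∀ x, x ∈ rSt α (mkseq α (fun y => hQ y)) ↔ x ∈ RP α := by
    intro x
    rw [mem_RP]
    unfold rSt
    rw [mem_sUn]
    constructor
    · rintro ⟨y, hy, hx⟩
      rw [mem_img] at hy
      obtain ⟨β, hβ, rfl⟩ := hy
      rw [mem_img] at hx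
      obtain ⟨s, hs, rfl⟩ := hx
      rw [ap_mkseq (F := fun y => hQ y) hβ]
      exact ⟨β, hβ, s, hs, rfl⟩
    · rintro ⟨β, hβ, s, hs, rfl⟩
      refine ⟨img RS (fun s => ap (ap (mkseq α (fun y => hQ y)) β) s), ?_, ?_⟩
      · rw [mem_img]
        exact ⟨β, hβ, rfl⟩
      · rw [mem_img, ap_mkseq (F := fun y => hQ y) hβ]
        exact ⟨s, hs, rfl⟩
  unfold hP
  rw [h1]
  unfold rStep
  rw [ap_mkseq (F := fun r => sep (rSt α (mkseq α (fun y => hQ y)))
    (fun w => OpMem (pR r) α (dI α) (ap (ap (mkseq α (fun y => hQ y)) (dB α)) (pL r))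
      (ap (ap (mkseq α (fun y => hQ y)) (dC α)) (pR r)) w)) hr]
  apply ext
  intro w
  rw [mem_sep, mem_sep, hst]
  by_cases h0 : dI α = emp
  · rw [h0]
    exact ⟨fun h => ⟨h.1, opMem_zero _ _ _ _ _⟩, fun h => ⟨h.1, opMem_zero _ _ _ _ _⟩⟩
  · obtain ⟨hb, hc⟩ := dec_bound' hα h0
    rw [ap_mkseq (F := fun y => hQ y) hb, ap_mkseq (F := fun y => hQ y) hc]

theorem mem_hP {α r x : M} (hα : Ord α) (hr : r ∈ (RS : M)) : x ∈ hP α r ↔
    x ∈ RP α ∧ OpMem (pR r) α (dI α) (hP (dB α) (pL r)) (hP (dC α) (pR r)) x := by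
  rw [hP_eq hα hr, mem_sep]

end Pool.Agent.ZFIter.NPA.BSM
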