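import Pool.Agent.NPA.BZF

/-!
# BSM/RSep: transitive classes closed under the Goedel operations are inner models of ZF

Adapted from NPA/BSep and NPA/BZF (the case of `L[A]`).
-/

universe u

set_option linter.style.haveILetI false

namespace Pool.Agent.ZFIter.NPA.BSM

open Pool.Agent.H78.ZF Pool.Agent.ZFIter Pool.Agent.ZFIter.NPA

variable {M : Type u} [ZFM M] {ι : Type}

open FirstOrder

/-- first coordinate -/
private noncomputable def pfst (w : M) : M := iota (fun x => ∃ y, w = opair x y)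

/-- second coordinate -/
private noncomputable def psnd (w : M) : M := iota (fun y => ∃ x, w = opair x y)

private instance DF_pfst (s : (ι → M) → M) [DF s] : DF (fun v => pfst (s v)) := by
  unfold pfst
  infer_instance

private instance DF_psnd (s : (ι → M) → M) [DF s] : DF (fun v => psnd (s v)) := by
  unfold psnd
  infer_instance

private theorem pfst_opair (x y : M) : pfst (opair x y) = x :=
  iota_eq ⟨y, rfl⟩ (by rintro z ⟨w, e⟩; exact (Pool.Agent.H78.ZF.opair_inj e).1.symm)

private theorem psnd_opair (x y : M) : psnd (opair x y) = y :=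
  iota_eq ⟨x, rfl⟩ (by rintro z ⟨w, e⟩; exact (Pool.Agent.H78.ZF.opair_inj e).2.symm)

/-- the coordinates of a nested tuple -/
private noncomputable def untup : (n : ℕ) → M → (Fin n → M)
  | 0, _ => Fin.elim0
  | n + 1, t => Fin.snoc (α := fun _ => M) (untup n (pfst t)) (psnd t)

private theorem DF_untup (n : ℕ) : ∀ (s : (ι → M) → M) [DF s] (i : Fin n),
    DF (fun v => untup n (s v) i) := by
  induction n with
  | zero => intro s _ i; exact i.elim0
  | succ n ih =>
    intro s _ i
    refine Fin.lastCases ?_ (fun i => ?_) i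
    · simp only [untup, Fin.snoc_last]
      infer_instance
    · simp only [untup, Fin.snoc_castSucc]
      exact ih (fun v => pfst (s v)) i

private theorem untup_tup (n : ℕ) (v : Fin n → M) : untup n (tup n v) = v := by
  induction n with
  | zero => funext i; exact i.elim0
  | succ n ih =>
    funext i
    refine Fin.lastCases ?_ (fun i => ?_) i
    · simp only [untup, tup, Fin.snoc_last, psnd_opair]
    · simp only [untup, tup, Fin.snoc_castSucc, pfst_opair]
      rw [ih]

private theorem tup_mem_pw {X : M} (n : ℕ) (v : Fin n → M) :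
    tup n v ∈ pw X n ↔ ∀ i, v i ∈ X := by
  induction n with
  | zero => simp [tup, pw]
  | succ n ih =>
    simp only [tup, pw, opair_mem_prod]
    rw [ih, Fin.forall_fin_succ']

private theorem pw_eq {X : M} (n : ℕ) {t : M} (h : t ∈ pw X n) : tup n (untup n t) = t := by
  induction n generalizing t with
  | zero =>
    simp only [pw, mem_sing] at h
    simp [tup, h]
  | succ n ih =>
    simp only [pw, mem_prod] at h
    obtain ⟨t', ht', x, hx, rfl⟩ := h
    simp only [tup, untup, Fin.snoc_castSucc, Fin.snoc_last, pfst_opair, psnd_opair]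
    rw [ih ht']


section gen

variable {S : Type u} (E : S → S → Prop) {κ κ' : Type}

private class GR (P : (κ → S) → Prop) : Prop where
  out : letI := structOf E; (Set.univ : Set S).Definable LSet {v | P v}

private class GF (t : (κ → S) → S) : Prop where
  out : letI := structOf E; (Set.univ : Set S).DefinableFun LSet t

private instance GF.var (i : κ) : GF E (fun v : κ → S => v i) := by
  letI := structOf E
  exact ⟨Set.DefinableFun.proj LSet⟩

private instance GF.const (c : S) : GF (κ := κ) E (fun _ => c) := by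
  letI := structOf E
  exact ⟨FirstOrder.Language.definableFun_const LSet κ (Set.mem_univ c)⟩

private instance GR.eq (s t : (κ → S) → S) [hs : GF E s] [ht : GF E t] :
    GR E (fun v => s v = t v) := by
  letI := structOf E
  exact ⟨hs.out.ofPred_eq ht.out⟩

private instance GR.mem (s t : (κ → S) → S) [hs : GF E s] [ht : GF E t] :
    GR E (fun v => E (s v) (t v)) := by
  letI := structOf E
  constructor
  have hF : (Set.univ : Set S).DefinableMap LSet (fun v : κ → S => ![s v, t v]) := by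
    intro i
    fin_cases i
    · exact hs.out
    · exact ht.out
  have h2 : (Set.univ : Set S).Definable LSet {v : Fin 2 → S | E (v 0) (v 1)} := by
    refine ⟨FirstOrder.Language.Relations.formula₂
      (L := FirstOrder.Language.withConstants LSet (Set.univ : Set S)) (Sum.inl MemSymb.mem)
      (FirstOrder.Language.Term.var 0) (FirstOrder.Language.Term.var 1), ?_⟩
    ext v
    simp [FirstOrder.Language.Formula.realize_rel₂]
    rfl
  exact h2.preimage_map hF

private instance GR.not (P : (κ → S) → Prop) [h : GR E P] : GR E (fun v => ¬ P v) := by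
  letI := structOf E
  exact ⟨h.out.compl⟩

private instance GR.and (P Q : (κ → S) → Prop) [h : GR E P] [h' : GR E Q] :
    GR E (fun v => P v ∧ Q v) := by
  letI := structOf E
  exact ⟨h.out.inter h'.out⟩

private instance GR.or (P Q : (κ → S) → Prop) [h : GR E P] [h' : GR E Q] :
    GR E (fun v => P v ∨ Q v) := by
  letI := structOf E
  exact ⟨h.out.union h'.out⟩

private instance GR.imp (P Q : (κ → S) → Prop) [h : GR E P] [h' : GR E Q] :
    GR E (fun v => P v → Q v) := by
  have := GR.or E (fun v => ¬ P v) Q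
  simpa [imp_iff_not_or] using this

private instance GR.ex (P : S → (κ → S) → Prop)
    [h : GR (κ := Option κ) E (fun v => P (v none) (fun i => v (some i)))] :
    GR E (fun v => ∃ x, P x v) := by
  letI := structOf E
  constructor
  have h1 := h.out
  have h2 : (Set.univ : Set S).Definable LSet
      {w : κ ⊕ Unit → S | P (w (Sum.inr ())) (fun i => w (Sum.inl i))} :=
    h1.preimage_comp (fun o : Option κ =>
      (match o with | none => Sum.inr () | some i => Sum.inl i : κ ⊕ Unit))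
  have h3 := h2.exists_of_finite
  convert h3 using 1
  ext v
  constructor
  · rintro ⟨x, hx⟩
    exact ⟨fun _ => x, by simpa using hx⟩
  · rintro ⟨u, hu⟩
    exact ⟨u (), by simpa using hu⟩

private instance GR.all (P : S → (κ → S) → Prop)
    [h : GR (κ := Option κ) E (fun v => P (v none) (fun i => v (some i)))] :
    GR E (fun v => ∀ x, P x v) := by
  have h1 : GR E (fun v : κ → S => ¬ ∃ x, ¬ P x v) := by
    have := GR.ex E (fun x (v : κ → S) => ¬ P x v)
    infer_instance
  simpa using h1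

private theorem GR.of_pair {F : Set (S × S)}
    (hF : letI := structOf E; (Set.univ : Set S).Definable₂ LSet F) (s t : (κ → S) → S)
    [hs : GF E s] [ht : GF E t] : GR E (fun v => (s v, t v) ∈ F) := by
  letI := structOf E
  constructor
  have hm : (Set.univ : Set S).DefinableMap LSet (fun v : κ → S => ![s v, t v]) := by
    intro i
    fin_cases i
    · exact hs.out
    · exact ht.out
  exact (show (Set.univ : Set S).Definable LSet {v : Fin 2 → S | (v 0, v 1) ∈ F} from
    hF).preimage_map hm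

private theorem GR.def1 (P : S → Prop) [h : GR (κ := Fin 1) E (fun v => P (v 0))] :
    letI := structOf E; (Set.univ : Set S).Definable₁ LSet {x | P x} := h.out

end gen

/-- `K = {F α r : α an ordinal, r ∈ D0}` is a transitive class, closed under the Goedel operations, and
bounded pieces of it are covered by elements of it. -/
structure RCl (K : M → Prop) (D0 : M) (F : M → M → M) : Prop where
  f2 : F2 F
  surj : ∀ x, K x ↔ ∃ α : M, Ord α ∧ ∃ r, r ∈ D0 ∧ x = F α r
  trans : ∀ x y, K y → x ∈ y → K x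
  bnd : ∀ μ : M, Ord μ → ∃ b, K b ∧ ∀ β r, β ∈ μ → r ∈ D0 → F β r ∈ b
  pr2 : ∀ x y, K x → K y → K (Pool.Agent.H78.ZF.upair x y)
  diff : ∀ X Y, K X → K Y → K (sep X (fun w => w ∉ Y))
  op3 : ∀ X, K X → K (sep X (fun w => ∃ u v, w = opair u v ∧ u ∈ v))
  op4 : ∀ X Y, K X → K Y → K (sep X (fun w => ∃ u v, w = opair u v ∧ v ∈ Y))
  op5 : ∀ X Y, K X → K Y → K (sep X (fun w => ∃ u v, w = opair u v ∧ opair v u ∈ Y))
  op6 : ∀ X Y, K X → K Y → K (sep X (fun w => ∃ v, opair w v ∈ Y))
  op7 : ∀ X Y, K X → K Y → K (sep X (fun w => ∃ t y x, w = opair (opair t y) x ∧ opair y x ∈ Y))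
  op8 : ∀ X Y, K X → K Y → K (sep X (fun w => ∃ t y x, w = opair (opair t y) x ∧ opair t x ∈ Y))
  op10 : ∀ X, K X → K (sep X (fun w => ∃ u, w = opair u u))

section basic
variable {K : M → Prop} {D0 : M} {F : M → M → M} (hK : RCl K D0 F)
include hK

theorem RCl.d1 : D1 K := by
  have := hK.f2
  have e : K = fun x => ∃ α, Ord α ∧ ∃ r, r ∈ D0 ∧ x = F α r := by
    funext x
    exact propext (hK.surj x)
  rw [e]
  infer_instance

theorem RCl.k_trans {x y : M} (hy : K y) (h : x ∈ y) : K x := hK.trans x y hy h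
theorem RCl.k_upair {x y : M} (hx : K x) (hy : K y) : K (Pool.Agent.H78.ZF.upair x y) :=
  hK.pr2 x y hx hy
theorem RCl.k_diff {X Y : M} (hX : K X) (hY : K Y) : K (sep X (fun w => w ∉ Y)) :=
  hK.diff X Y hX hY
theorem RCl.k_op3 {X : M} (hX : K X) : K (sep X (fun w => ∃ u v, w = opair u v ∧ u ∈ v)) :=
  hK.op3 X hX
theorem RCl.k_op4 {X Y : M} (hX : K X) (hY : K Y) :
    K (sep X (fun w => ∃ u v, w = opair u v ∧ v ∈ Y)) := hK.op4 X Y hX hY
theorem RCl.k_op5 {X Y : M} (hX : K X) (hY : K Y) :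
    K (sep X (fun w => ∃ u v, w = opair u v ∧ opair v u ∈ Y)) := hK.op5 X Y hX hY
theorem RCl.k_op6 {X Y : M} (hX : K X) (hY : K Y) : K (sep X (fun w => ∃ v, opair w v ∈ Y)) :=
  hK.op6 X Y hX hY
theorem RCl.k_op7 {X Y : M} (hX : K X) (hY : K Y) :
    K (sep X (fun w => ∃ t y x, w = opair (opair t y) x ∧ opair y x ∈ Y)) := hK.op7 X Y hX hY
theorem RCl.k_op8 {X Y : M} (hX : K X) (hY : K Y) :
    K (sep X (fun w => ∃ t y x, w = opair (opair t y) x ∧ opair t x ∈ Y)) := hK.op8 X Y hX hY
theorem RCl.k_op10 {X : M} (hX : K X) : K (sep X (fun w => ∃ u, w = opair u u)) := hK.op10 X hX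

theorem RCl.k_opair {x y : M} (hx : K x) (hy : K y) : K (opair x y) := by
  unfold opair sing
  exact hK.k_upair (hK.k_upair hx hx) (hK.k_upair hx hy)

/-- every set of elements of `K` is included in an element of `K` -/
theorem RCl.bound (s : M) (h : ∀ x, x ∈ s → K x) : ∃ b, K b ∧ s ⊆ b := by
  have := hK.f2
  have hF1 : F1 (fun x : M => leastO (fun α => ∃ r, r ∈ D0 ∧ x = F α r)) := by infer_instance
  obtain ⟨μ, hμ, h1⟩ := exists_ord_gt (img s (fun x => leastO (fun α => ∃ r, r ∈ D0 ∧ x = F α r)))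
  obtain ⟨b, hb, h2⟩ := hK.bnd μ hμ
  refine ⟨b, hb, fun x hx => ?_⟩
  have h3 := leastO_spec (fun α => ∃ r, r ∈ D0 ∧ x = F α r) ((hK.surj x).1 (h x hx))
  obtain ⟨r, hr, e⟩ := h3.2.1
  rw [e]
  refine h2 _ _ (h1 _ ?_ h3.1) hr
  rw [mem_img]
  exact ⟨x, hx, rfl⟩

theorem RCl.k_inter {X Y : M} (hX : K X) (hY : K Y) : K (sep X (fun w => w ∈ Y)) := by
  have h := hK.k_diff hX (hK.k_diff hX hY)
  have e : sep X (fun w => w ∉ sep X (fun w => w ∉ Y)) = sep X (fun w => w ∈ Y) := by
    apply ext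
    intro w
    rw [mem_sep, mem_sep, mem_sep]
    tauto
  rwa [e] at h

theorem RCl.k_un {X Y : M} (hX : K X) (hY : K Y) : K (un X Y) := by
  obtain ⟨Z, hZ, h1⟩ := hK.bound (un X Y) (by
    intro x hx
    rw [mem_un] at hx
    rcases hx with hx | hx
    · exact hK.k_trans hX hx
    · exact hK.k_trans hY hx)
  have h3 := hK.k_diff hZ (hK.k_diff (hK.k_diff hZ hX) hY)
  have h4 : sep Z (fun w => w ∉ sep (sep Z (fun w => w ∉ X)) (fun w => w ∉ Y)) = un X Y := by
    apply ext
    intro w
    rw [mem_sep, mem_sep, mem_sep, mem_un]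
    have := h1 w
    rw [mem_un] at this
    tauto
  rwa [h4] at h3

end basic

section inL
variable {K : M → Prop} {D0 : M} {F : M → M → M} (hK : RCl K D0 F)
include hK

theorem RCl.k_emp {X : M} (hX : K X) : K (emp : M) := by
  have h := hK.k_diff hX hX
  have e : sep X (fun w => w ∉ X) = emp := eq_emp fun z hz => by
    rw [mem_sep] at hz
    exact hz.2 hz.1
  rwa [e] at h

theorem RCl.k_prod {X Y : M} (hX : K X) (hY : K Y) : K (prod X Y) := by
  obtain ⟨Z, hZ, h1⟩ := hK.bound (un (prod X Y) (prod Y X)) (by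
    intro x hx
    rw [mem_un, mem_prod, mem_prod] at hx
    rcases hx with ⟨u, hu, v, hv, rfl⟩ | ⟨u, hu, v, hv, rfl⟩
    · exact hK.k_opair (hK.k_trans hX hu) (hK.k_trans hY hv)
    · exact hK.k_opair (hK.k_trans hY hu) (hK.k_trans hX hv))
  have h2 := hK.k_inter (hK.k_op4 hZ hY) (hK.k_op5 hZ (hK.k_op4 hZ hX))
  have e : sep (sep (Z) (fun w => ∃ u v, w = opair u v ∧ v ∈ Y))
      (fun w => w ∈ sep (Z) (fun w => ∃ u v, w = opair u v ∧ opair v u ∈
        sep (Z) (fun w => ∃ u v, w = opair u v ∧ v ∈ X))) = prod X Y := by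
    apply ext
    intro w
    simp only [mem_sep, mem_prod]
    constructor
    · rintro ⟨⟨_, u, v, rfl, hv⟩, _, u', v', e1, _, u'', v'', e2, hv''⟩
      obtain ⟨rfl, rfl⟩ := opair_inj e1
      obtain ⟨rfl, rfl⟩ := opair_inj e2
      exact ⟨u, hv'', v, hv, rfl⟩
    · rintro ⟨u, hu, v, hv, rfl⟩
      have m1 : opair u v ∈ Z := h1 _ (by rw [mem_un]; left; simp [hu, hv])
      have m2 : opair v u ∈ Z := h1 _ (by rw [mem_un]; right; simp [hu, hv])
      exact ⟨⟨m1, u, v, rfl, hv⟩, m1, u, v, rfl, m2, v, u, rfl, hu⟩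
  rwa [e] at h2

theorem RCl.k_pw {X : M} (hX : K X) (n : ℕ) : K (pw X n) := by
  induction n with
  | zero => exact hK.k_upair (hK.k_emp hX) (hK.k_emp hX)
  | succ n ih => exact hK.k_prod ih hX

/-- the set of tuples with the property `R` is in `L[A]` -/
private def SepR (K : M → Prop) (n : ℕ) (R : (Fin n → M) → Prop) : Prop :=
  ∀ X, K X → ∃ D, K D ∧ D ⊆ pw X n ∧
    ∀ v : Fin n → M, (∀ i, v i ∈ X) → (tup n v ∈ D ↔ R v)

private theorem sepR_of {n : ℕ} {R : (Fin n → M) → Prop} (h : ∀ X, K X → ∃ D, K D ∧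
    ∀ v : Fin n → M, (∀ i, v i ∈ X) → (tup n v ∈ D ↔ R v)) : SepR K n R := by
  intro X hX
  obtain ⟨D, hD, h1⟩ := h X hX
  refine ⟨sep (pw X n) (fun w => w ∈ D), hK.k_inter (hK.k_pw hX n) hD, fun w hw => ?_, fun v hv => ?_⟩
  · rw [mem_sep] at hw; exact hw.1
  · rw [mem_sep, h1 v hv]
    exact ⟨fun h => h.2, fun h => ⟨(tup_mem_pw n v).2 hv, h⟩⟩

private theorem SepR.congr {n : ℕ} {R R' : (Fin n → M) → Prop} (h : SepR K n R)
    (e : ∀ v, (∀ i, K (v i)) → (R v ↔ R' v)) : SepR K n R' := by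
  intro X hX
  obtain ⟨D, hD, h1, h2⟩ := h X hX
  exact ⟨D, hD, h1, fun v hv => (h2 v hv).trans (e v fun i => hK.k_trans hX (hv i))⟩

private theorem sepR_false (n : ℕ) : SepR K n (fun _ => False) :=
  sepR_of hK fun X hX => ⟨emp, hK.k_emp hX, fun v _ => by simp⟩

private theorem sepR_imp {n : ℕ} {R R' : (Fin n → M) → Prop} (h : SepR K n R) (h' : SepR K n R') :
    SepR K n (fun v => R v → R' v) := by
  refine sepR_of hK fun X hX => ?_
  obtain ⟨D, hD, _, h1⟩ := h X hX
  obtain ⟨D', hD', _, h1'⟩ := h' X hX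
  refine ⟨_, hK.k_diff (hK.k_pw hX n) (hK.k_diff hD hD'), fun v hv => ?_⟩
  rw [mem_sep, mem_sep, h1 v hv, h1' v hv]
  have := (tup_mem_pw n v).2 hv
  tauto

private theorem sepR_true (n : ℕ) : SepR K n (fun _ => True) :=
  (sepR_imp hK (sepR_false hK n) (sepR_false hK n)).congr hK fun v _ => by simp

/-- binary relations -/
private def BinR (K : M → Prop) (E : M → M → Prop) : Prop :=
  ∀ X, K X → ∃ S, K S ∧ ∀ u v, u ∈ X → v ∈ X → (opair u v ∈ S ↔ E u v)

private theorem binR_mem : BinR K (fun u v => u ∈ v) := by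
  intro X hX
  refine ⟨_, hK.k_op3 (hK.k_prod hX hX), fun u v hu hv => ?_⟩
  rw [mem_sep]
  constructor
  · rintro ⟨_, u', v', e, h⟩
    obtain ⟨rfl, rfl⟩ := opair_inj e
    exact h
  · intro h
    exact ⟨by simp [hu, hv], u, v, rfl, h⟩

private theorem binR_eq : BinR K (fun u v => u = v) := by
  intro X hX
  refine ⟨_, hK.k_op10 (hK.k_prod hX hX), fun u v hu hv => ?_⟩
  rw [mem_sep]
  constructor
  · rintro ⟨_, u', e⟩
    obtain ⟨rfl, rfl⟩ := opair_inj e
    rfl
  · rintro rfl
    exact ⟨by simp [hu], u, rfl⟩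

private theorem BinR.swap {E : M → M → Prop} (h : BinR K E) : BinR K (fun u v => E v u) := by
  intro X hX
  obtain ⟨S, hS, h1⟩ := h X hX
  refine ⟨_, hK.k_op5 (hK.k_prod hX hX) hS, fun u v hu hv => ?_⟩
  change _ ↔ E v u
  rw [mem_sep, ← h1 v u hv hu]
  constructor
  · rintro ⟨_, u', v', e, h⟩
    obtain ⟨rfl, rfl⟩ := opair_inj e
    exact h
  · intro h
    exact ⟨by simp [hu, hv], u, v, rfl, h⟩

private theorem sepR_last {E : M → M → Prop} (h : BinR K E) : ∀ (n : ℕ) (i : Fin n),
    SepR K (n + 1) (fun v => E (v i.castSucc) (v (Fin.last n))) := by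
  intro n
  induction n with
  | zero => intro i; exact i.elim0
  | succ n ih =>
    intro i
    refine Fin.lastCases ?_ (fun i => ?_) i
    · refine sepR_of hK fun X hX => ?_
      obtain ⟨S, hS, h1⟩ := h X hX
      refine ⟨_, hK.k_op7 (hK.k_pw hX (n + 2)) hS, fun v hv => ?_⟩
      rw [mem_sep, ← h1 _ _ (hv _) (hv _)]
      constructor
      · rintro ⟨_, t, y, x, e, h⟩
        simp only [tup] at e
        obtain ⟨e1, rfl⟩ := opair_inj e
        obtain ⟨_, rfl⟩ := opair_inj e1
        exact h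
      · intro h
        exact ⟨(tup_mem_pw _ _).2 hv, _, _, _, rfl, h⟩
    · refine sepR_of hK fun X hX => ?_
      obtain ⟨D, hD, _, h1⟩ := ih i X hX
      refine ⟨_, hK.k_op8 (hK.k_pw hX (n + 2)) hD, fun v hv => ?_⟩
      have h2 := h1 (Fin.snoc (α := fun _ => M) (fun k => v k.castSucc.castSucc) (v (Fin.last (n + 1))))
        (by
          intro k
          refine Fin.lastCases ?_ (fun k => ?_) k
          · rw [Fin.snoc_last]; exact hv _
          · rw [Fin.snoc_castSucc]; exact hv _)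
      simp only [tup, Fin.snoc_castSucc, Fin.snoc_last] at h2
      rw [mem_sep, ← h2]
      constructor
      · rintro ⟨_, t, y, x, e, h⟩
        simp only [tup] at e
        obtain ⟨e1, rfl⟩ := opair_inj e
        obtain ⟨rfl, _⟩ := opair_inj e1
        exact h
      · intro h
        exact ⟨(tup_mem_pw _ _).2 hv, _, _, _, rfl, h⟩

private theorem sepR_lt {E : M → M → Prop} (h : BinR K E) : ∀ (n : ℕ) (i j : Fin n), i < j →
    SepR K n (fun v => E (v i) (v j)) := by
  intro n
  induction n with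
  | zero => intro i; exact i.elim0
  | succ n ih =>
    intro i j
    refine Fin.lastCases ?_ (fun j => ?_) j
    · intro hij
      have hi : i ≠ Fin.last n := hij.ne
      obtain ⟨i', rfl⟩ := Fin.exists_castSucc_eq.2 hi
      exact sepR_last hK h n i'
    · intro hij
      have hi : i ≠ Fin.last n := (hij.trans (Fin.castSucc_lt_last j)).ne
      obtain ⟨i', rfl⟩ := Fin.exists_castSucc_eq.2 hi
      refine sepR_of hK fun X hX => ?_
      obtain ⟨D, hD, _, h1⟩ := ih i' j (by simpa using hij) X hX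
      refine ⟨prod D X, hK.k_prod hD hX, fun v hv => ?_⟩
      simp only [tup, opair_mem_prod]
      rw [h1 _ (fun k => hv k.castSucc)]
      exact ⟨fun h => h.1, fun h => ⟨h, hv _⟩⟩

private theorem sepR_mem (n : ℕ) (i j : Fin n) : SepR K n (fun v => v i ∈ v j) := by
  rcases lt_trichotomy i j with h | rfl | h
  · exact sepR_lt hK (binR_mem hK) n i j h
  · exact (sepR_false hK n).congr hK fun v _ => by simp [not_mem_self]
  · exact sepR_lt hK ((binR_mem hK).swap hK) n j i h

private theorem sepR_eq (n : ℕ) (i j : Fin n) : SepR K n (fun v => v i = v j) := by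
  rcases lt_trichotomy i j with h | rfl | h
  · exact sepR_lt hK (binR_eq hK) n i j h
  · exact (sepR_true hK n).congr hK fun v _ => by simp
  · exact sepR_lt hK ((binR_eq hK).swap hK) n j i h

private theorem sepR_all {n : ℕ} (R : (Fin (n + 1) → M) → Prop) [hR : DR R] (h : SepR K (n + 1) R) :
    SepR K n (fun v => ∀ y, K y → R (Fin.snoc (α := fun _ => M) v y)) := by
  have hf2 := hK.f2
  refine sepR_of hK fun X hX => ?_
  -- the bound
  have hc0 : DR (M := M) (ι := Option Unit) (fun w => ∃ r, r ∈ D0 ∧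
      ¬ R (Fin.snoc (α := fun _ => M) (untup n (w (some ()))) (F (w none) r))) := by
    have h1 : DR (M := M) (ι := Option (Option Unit)) (fun w =>
        R (fun i => Fin.snoc (α := fun _ => M) (untup n (w (some (some ()))))
          (F (w (some none)) (w none)) i)) := by
      refine @DR.subst M _ (Option (Option Unit)) (Fin (n + 1)) _ R hR
        (fun i w => Fin.snoc (α := fun _ => M) (untup n (w (some (some ()))))
          (F (w (some none)) (w none)) i) ?_
      intro i
      refine Fin.lastCases ?_ (fun i => ?_) i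
      · simp only [Fin.snoc_last]
        infer_instance
      · simp only [Fin.snoc_castSucc]
        exact DF_untup n (fun w : Option (Option Unit) → M => w (some (some ()))) i
    have h2 := @DR.not M _ _ _ h1
    have h3 : DR (M := M) (ι := Option (Option Unit)) (fun w => w none ∈ D0 ∧
        ¬ R (fun i => Fin.snoc (α := fun _ => M) (untup n (w (some (some ()))))
          (F (w (some none)) (w none)) i)) := by infer_instance
    exact @DR.ex M _ _ (fun r (w : Option Unit → M) => r ∈ D0 ∧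
        ¬ R (fun i => Fin.snoc (α := fun _ => M) (untup n (w (some ()))) (F (w none) r) i)) h3
  have hc1 : F1 (fun t : M => leastO (fun a => ∃ r, r ∈ D0 ∧
      ¬ R (Fin.snoc (α := fun _ => M) (untup n t) (F a r)))) := by
    refine ⟨?_⟩
    exact @DF.leastO M _ Unit (fun a (w : Unit → M) => ∃ r, r ∈ D0 ∧
      ¬ R (Fin.snoc (α := fun _ => M) (untup n (w ())) (F a r))) hc0
  have hc2 : ∀ t : M, D1 (fun a => ∃ r, r ∈ D0 ∧
      ¬ R (Fin.snoc (α := fun _ => M) (untup n t) (F a r))) := by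
    intro t
    refine ⟨?_⟩
    have h2 := @DR.subst M _ Unit (Option Unit) _ _ hc0
      (fun o w => o.elim (w ()) (fun _ => t)) (by rintro (_ | _) <;> simp <;> infer_instance)
    exact h2
  obtain ⟨β, hβ, hb⟩ := exists_ord_gt (img (pw X n) (fun t => leastO (fun a => ∃ r, r ∈ D0 ∧
      ¬ R (Fin.snoc (α := fun _ => M) (untup n t) (F a r)))))
  obtain ⟨Y0, hY0, hYb⟩ := hK.bnd β hβ
  set Y := un X Y0 with hY
  have hYL : K Y := hK.k_un hX hY0
  have hXY : X ⊆ Y := sub_un_left X Y0
  obtain ⟨D, hD, _, h1⟩ := h Y hYL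
  have hN := hK.k_diff (hK.k_pw hYL (n + 1)) hD
  have hP := hK.k_op6 (hK.k_pw hX n) hN
  refine ⟨_, hK.k_diff (hK.k_pw hX n) hP, fun v hv => ?_⟩
  have hvp := (tup_mem_pw n v).2 hv
  have hsn : ∀ y, tup (n + 1) (Fin.snoc (α := fun _ => M) v y) = opair (tup n v) y := by
    intro y
    simp only [tup, Fin.snoc_castSucc, Fin.snoc_last]
  have hsY : ∀ y, y ∈ Y → ∀ i, (Fin.snoc (α := fun _ => M) v y : Fin (n + 1) → M) i ∈ Y := by
    intro y hy i
    refine Fin.lastCases ?_ (fun i => ?_) i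
    · rw [Fin.snoc_last]; exact hy
    · rw [Fin.snoc_castSucc]; exact hXY _ (hv i)
  rw [mem_sep]
  constructor
  · rintro ⟨_, hn⟩ y hy
    by_contra hc
    obtain ⟨γ, hγ, r, hr, rfl⟩ := (hK.surj y).1 hy
    have := hc2 (tup n v)
    have h3 := leastO_spec (fun a => ∃ r, r ∈ D0 ∧
      ¬ R (Fin.snoc (α := fun _ => M) (untup n (tup n v)) (F a r)))
      ⟨γ, hγ, r, hr, by rw [untup_tup]; exact hc⟩
    have h4 := hb _ (by
      rw [mem_img]
      exact ⟨tup n v, hvp, rfl⟩) h3.1
    set δ := leastO (fun a => ∃ r, r ∈ D0 ∧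
      ¬ R (Fin.snoc (α := fun _ => M) (untup n (tup n v)) (F a r))) with hδ
    obtain ⟨s, hs, h5⟩ := h3.2.1
    rw [untup_tup] at h5
    have hdY : F δ s ∈ Y := sub_un_right X Y0 _ (hYb δ s h4 hs)
    apply hn
    rw [mem_sep]
    refine ⟨hvp, F δ s, ?_⟩
    rw [mem_sep, ← hsn]
    refine ⟨(tup_mem_pw _ _).2 (hsY _ hdY), ?_⟩
    rw [h1 _ (hsY _ hdY)]
    exact h5
  · intro hall
    refine ⟨hvp, ?_⟩
    rw [mem_sep]
    rintro ⟨_, y, hy⟩
    rw [mem_sep, ← hsn] at hy
    obtain ⟨hy1, hy2⟩ := hy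
    have hyY : y ∈ Y := by
      have := (tup_mem_pw _ _).1 hy1 (Fin.last n)
      rwa [Fin.snoc_last] at this
    rw [h1 _ (hsY _ hyY)] at hy2
    exact hy2 (hall y (hK.k_trans hYL hyY))

/-- the relation on tuples defined by a formula -/
private def RF (K : M → Prop) {N m : ℕ} (φ : LSet.BoundedFormula (Fin N) m) (w : Fin (N + m) → M) : Prop :=
  letI := strK K
  ∃ h : ∀ i, K (w i), φ.Realize (fun i => (⟨w (Fin.castAdd m i), h _⟩ : {x : M // K x}))
    (fun j => (⟨w (Fin.natAdd N j), h _⟩ : {x : M // K x}))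

omit hK in
private theorem DR_congr' {P Q : (ι → M) → Prop} (h : DR P) (e : ∀ v, P v ↔ Q v) : DR Q := by
  have : P = Q := funext fun v => propext (e v)
  rwa [← this]

omit hK in
private theorem DR_RF [D1 K] {N m : ℕ} (φ : LSet.BoundedFormula (Fin N) m) : DR (RF K φ) := by
  letI := strK K
  have h1 := rel_real K φ
  have h2 := DR.weaken (M := M) _ (finSumFinEquiv : Fin N ⊕ Fin m → Fin (N + m)) (h := h1)
  refine DR_congr' h2 fun w => ?_
  constructor
  · rintro ⟨h, e⟩
    refine ⟨fun i => ?_, e⟩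
    obtain ⟨j, rfl⟩ := (finSumFinEquiv (m := N) (n := m)).surjective i
    exact h j
  · rintro ⟨h, e⟩
    exact ⟨fun i => h _, e⟩

omit hK in
private theorem tup_append_zero {n : ℕ} (w : Fin (n + 1) → M) (z : Fin 0 → M) :
    tup (n + 1 + 0) (@Fin.append (n + 1) 0 M w z) = tup (n + 1) w := by
  have e : (@Fin.append (n + 1) 0 M w z : Fin (n + 1) → M) = w := by
    funext i
    exact @Fin.append_left (n + 1) 0 M w z i
  change tup (n + 1) (@Fin.append (n + 1) 0 M w z) = _
  rw [e]

omit hK in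
private theorem mem_of_eq₂ {x x' y y' : M} (h1 : x = x') (h2 : y = y') (h : x' ∈ y') : x ∈ y := by
  rw [h1, h2]
  exact h

private theorem sepR_formula {N m : ℕ} (φ : LSet.BoundedFormula (Fin N) m) :
    SepR K (N + m) (RF K φ) := by
  letI := strK K
  have hvar : ∀ {m : ℕ} (a : Fin N ⊕ Fin m) (w : Fin (N + m) → M) (h : ∀ i, K (w i)),
      (Sum.elim (fun i => (⟨w (Fin.castAdd m i), h _⟩ : {x : M // K x}))
        (fun j => (⟨w (Fin.natAdd N j), h _⟩ : {x : M // K x})) a).1 =
        w (finSumFinEquiv a) := by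
    intro m a w h
    cases a <;> rfl
  have tv : ∀ {α : Type} (t : LSet.Term α), ∃ a, t = FirstOrder.Language.Term.var a := by
    intro α t
    cases t with
    | var a => exact ⟨a, rfl⟩
    | func f _ => exact nomatch f
  induction φ with
  | falsum =>
    refine (sepR_false hK _).congr hK fun v _ => ⟨fun h => h.elim, ?_⟩
    rintro ⟨_, h⟩
    exact h
  | @equal m t₁ t₂ =>
    obtain ⟨a, rfl⟩ := tv t₁
    obtain ⟨b, rfl⟩ := tv t₂
    refine (sepR_eq hK (N + m) (finSumFinEquiv a) (finSumFinEquiv b)).congr hK fun v hv => ?_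
    constructor
    · intro e
      refine ⟨hv, ?_⟩
      simp only [Language.BoundedFormula.Realize, Language.Term.realize_var]
      apply Subtype.ext
      exact (hvar a v hv).trans (e.trans (hvar b v hv).symm)
    · rintro ⟨h, e⟩
      simp only [Language.BoundedFormula.Realize, Language.Term.realize_var] at e
      have := congrArg Subtype.val e
      exact (hvar a v h).symm.trans (this.trans (hvar b v h))
  | @rel m l R ts =>
    cases R
    obtain ⟨a, ha⟩ := tv (ts 0)
    obtain ⟨b, hb⟩ := tv (ts 1)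
    have e : ∀ w : Fin 2 → {x : M // K x},
        (Language.Structure.RelMap (L := LSet) MemSymb.mem w ↔ (w 0).1 ∈ (w 1).1) :=
      fun w => Iff.rfl
    refine (sepR_mem hK (N + m) (finSumFinEquiv a) (finSumFinEquiv b)).congr hK fun v hv => ?_
    constructor
    · intro e1
      refine ⟨hv, ?_⟩
      simp only [Language.BoundedFormula.Realize, e, ha, hb, Language.Term.realize_var]
      have h1 := hvar a v hv
      have h2 := hvar b v hv
      exact mem_of_eq₂ h1 h2 e1
    · rintro ⟨h, e1⟩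
      simp only [Language.BoundedFormula.Realize, e, ha, hb, Language.Term.realize_var] at e1
      exact mem_of_eq₂ (hvar a v h).symm (hvar b v h).symm e1
  | @imp m f g ihf ihg =>
    refine (sepR_imp hK ihf ihg).congr hK fun v hv => ?_
    constructor
    · intro e
      refine ⟨hv, fun hf => ?_⟩
      obtain ⟨_, hg⟩ := e ⟨hv, hf⟩
      exact hg
    · rintro ⟨h, e⟩ ⟨_, hf⟩
      exact ⟨hv, e hf⟩
  | @all m f ih =>
    have hd1 := hK.d1
    have hD := DR_RF (K := K) f
    refine (@sepR_all _ _ K D0 F hK (N + m) (RF (N := N) (m := m + 1) K f) hD ih).congr hK fun v hv => ?_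
    have hs : ∀ (a : M) (ha : K a) (i : Fin (N + (m + 1))),
        K ((Fin.snoc (α := fun _ => M) v a : Fin (N + m + 1) → M) i) := by
      intro a ha i
      refine Fin.lastCases (n := N + m) ?_ (fun i => ?_) i
      · rw [Fin.snoc_last]; exact ha
      · rw [Fin.snoc_castSucc]; exact hv i
    have key : ∀ (a : M) (ha : K a) (h : ∀ i : Fin (N + (m + 1)),
        K ((Fin.snoc (α := fun _ => M) v a : Fin (N + m + 1) → M) i)),
        (f.Realize (fun i => (⟨(Fin.snoc (α := fun _ => M) v a : Fin (N + m + 1) → M)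
            (Fin.castAdd (m + 1) i), h _⟩ : {x : M // K x}))
          (fun j => (⟨(Fin.snoc (α := fun _ => M) v a : Fin (N + m + 1) → M)
            (Fin.natAdd N j), h _⟩ : {x : M // K x}))) ↔
        f.Realize (fun i => (⟨v (Fin.castAdd m i), hv _⟩ : {x : M // K x}))
          (Fin.snoc (fun j => (⟨v (Fin.natAdd N j), hv _⟩ : {x : M // K x})) ⟨a, ha⟩) := by
      intro a ha h
      have e1 : (fun i => (⟨(Fin.snoc (α := fun _ => M) v a : Fin (N + m + 1) → M)
            (Fin.castAdd (m + 1) i), h _⟩ : {x : M // K x})) =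
          fun i => (⟨v (Fin.castAdd m i), hv _⟩ : {x : M // K x}) := by
        funext i
        apply Subtype.ext
        change (Fin.snoc (α := fun _ => M) v a : Fin (N + m + 1) → M) (Fin.castSucc (Fin.castAdd m i)) = _
        rw [Fin.snoc_castSucc]
      have e2 : (fun j => (⟨(Fin.snoc (α := fun _ => M) v a : Fin (N + m + 1) → M)
            (Fin.natAdd N j), h _⟩ : {x : M // K x})) =
          Fin.snoc (fun j => (⟨v (Fin.natAdd N j), hv _⟩ : {x : M // K x})) ⟨a, ha⟩ := by
        funext j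
        apply Subtype.ext
        refine Fin.lastCases ?_ (fun j => ?_) j
        · rw [Fin.snoc_last]
          change (Fin.snoc (α := fun _ => M) v a : Fin (N + m + 1) → M) (Fin.last (N + m)) = _
          rw [Fin.snoc_last]
        · rw [Fin.snoc_castSucc]
          change (Fin.snoc (α := fun _ => M) v a : Fin (N + m + 1) → M)
            (Fin.castSucc (Fin.natAdd N j)) = _
          rw [Fin.snoc_castSucc]
      rw [e1, e2]
    constructor
    · intro e
      refine ⟨hv, ?_⟩
      rw [Language.BoundedFormula.realize_all]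
      intro a
      obtain ⟨h, e'⟩ := e a.1 a.2
      exact (key a.1 a.2 h).1 e'
    · rintro ⟨h, e⟩ a ha
      rw [Language.BoundedFormula.realize_all] at e
      exact ⟨hs a ha, (key a ha (hs a ha)).2 (e ⟨a, ha⟩)⟩


theorem RCl.sep_formula {N m : ℕ} (φ : LSet.BoundedFormula (Fin N) m) :
    letI := strK K
    ∀ X, K X → ∃ D, K D ∧ D ⊆ pw X (N + m) ∧
      ∀ (v : Fin N → {x : M // K x}) (xs : Fin m → {x : M // K x}),
        (∀ i, (v i).1 ∈ X) → (∀ i, (xs i).1 ∈ X) →
        (tup (N + m) (Fin.append (fun i => (v i).1) (fun i => (xs i).1)) ∈ D ↔ φ.Realize v xs) := by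
  letI := strK K
  intro X hX
  obtain ⟨D, hD, h1, h2⟩ := sepR_formula hK φ X hX
  refine ⟨D, hD, h1, fun v xs hv hxs => ?_⟩
  have hap : ∀ i, Fin.append (fun i => (v i).1) (fun i => (xs i).1) i ∈ X := by
    intro i
    refine Fin.addCases (fun i => ?_) (fun i => ?_) i
    · rw [Fin.append_left]; exact hv i
    · rw [Fin.append_right]; exact hxs i
  rw [h2 _ hap]
  have e1 : ∀ h : ∀ i, K (Fin.append (fun i => (v i).1) (fun i => (xs i).1) i),
      (fun i => (⟨Fin.append (fun i => (v i).1) (fun i => (xs i).1) (Fin.castAdd m i), h _⟩ :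
        {x : M // K x})) = v := by
    intro h
    funext i
    apply Subtype.ext
    simp only [Fin.append_left]
  have e2 : ∀ h : ∀ i, K (Fin.append (fun i => (v i).1) (fun i => (xs i).1) i),
      (fun j => (⟨Fin.append (fun i => (v i).1) (fun i => (xs i).1) (Fin.natAdd N j), h _⟩ :
        {x : M // K x})) = xs := by
    intro h
    funext i
    apply Subtype.ext
    simp only [Fin.append_right]
  constructor
  · rintro ⟨h, e⟩
    rwa [e1 h, e2 h] at e
  · intro e
    have h : ∀ i, K (Fin.append (fun i => (v i).1) (fun i => (xs i).1) i) := fun i =>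
      hK.k_trans hX (hap i)
    refine ⟨h, ?_⟩
    rw [e1 h, e2 h]
    exact e

/-- Separation in `L[A]`. -/
theorem RCl.k_sep (P : {x : M // K x} → Prop)
    (hP : letI := strK K; (Set.univ : Set {x : M // K x}).Definable₁ LSet {x | P x})
    (X : M) (hX : K X) :
    ∃ D, K D ∧ ∀ x : {x : M // K x}, x.1 ∈ D ↔ x.1 ∈ X ∧ P x := by
  letI := strK K
  obtain ⟨n, φ, a, hφ⟩ := def_formula 1 _ hP
  have hP' : ∀ x : {x : M // K x}, P x ↔ φ.Realize (Sum.elim (fun _ => x) a) := by
    intro x
    have : (fun _ : Fin 1 => x) ∈ {v : Fin 1 → {x : M // K x} | v 0 ∈ {x | P x}} ↔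
        (fun _ : Fin 1 => x) ∈ {v | φ.Realize (Sum.elim v a)} := by rw [hφ]
    exact this
  -- a set containing the parameters and `X`
  have hX' : ∀ (n : ℕ) (a : Fin n → {x : M // K x}), ∃ X', K X' ∧ X ⊆ X' ∧
      ∀ i, (a i).1 ∈ X' := by
    intro n
    induction n with
    | zero => exact fun a => ⟨X, hX, sub_refl X, fun i => i.elim0⟩
    | succ n ih =>
      intro a
      obtain ⟨X', h1, h2, h3⟩ := ih (fun i => a i.castSucc)
      refine ⟨un X' (sing (a (Fin.last n)).1), hK.k_un h1 (hK.k_upair (a _).2 (a _).2),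
        sub_trans h2 (sub_un_left _ _), fun i => ?_⟩
      refine Fin.lastCases ?_ (fun i => ?_) i
      · exact sub_un_right _ _ _ (by simp)
      · exact sub_un_left _ _ _ (h3 i)
  obtain ⟨X', hX'L, hXX', haX'⟩ := hX' n a
  set g : Fin 1 ⊕ Fin n → Fin (n + 1) := Sum.elim (fun _ => Fin.last n) Fin.castSucc with hg
  obtain ⟨D, hD, _, h2⟩ := hK.sep_formula (N := n + 1) (m := 0) (φ.relabel g) X' hX'L
  have htL : ∀ (n : ℕ) (a : Fin n → {x : M // K x}), K (tup n (fun i => (a i).1)) := by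
    intro n
    induction n with
    | zero => exact fun a => hK.k_emp hX
    | succ n ih => exact fun a => hK.k_opair (ih (fun i => a i.castSucc)) (a _).2
  set t := tup n (fun i => (a i).1) with ht
  have h3 := hK.k_op6 hX (hK.k_op5 (hK.k_prod hX (hK.k_upair (htL n a) (htL n a))) hD)
  refine ⟨_, h3, fun x => ?_⟩
  rw [mem_sep]
  have key : x.1 ∈ X → (opair t x.1 ∈ D ↔ P x) := by
    intro hx
    have h4 := h2 (Fin.snoc (α := fun _ => {x : M // K x}) a x) Fin.elim0 (by
      intro i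
      refine Fin.lastCases ?_ (fun i => ?_) i
      · rw [Fin.snoc_last]; exact hXX' _ hx
      · rw [Fin.snoc_castSucc]; exact haX' i) (fun i => i.elim0)
    have e1 : tup (n + 1 + 0) (Fin.append (fun i => ((Fin.snoc (α := fun _ => {x : M // K x}) a x :
        Fin (n + 1) → {x : M // K x}) i).1) (fun i => ((Fin.elim0 : Fin 0 →
          {x : M // K x}) i).1)) = opair t x.1 := by
      rw [tup_append_zero]
      simp only [tup, Fin.snoc_last, Fin.snoc_castSucc, ht]
    rw [e1] at h4
    rw [h4, hP']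
    have e4 : (φ.relabel g).Realize (Fin.snoc (α := fun _ => {x : M // K x}) a x) ↔
        φ.Realize (Sum.elim (fun _ => x) a) := by
      rw [Language.Formula.realize_relabel]
      have : (Fin.snoc (α := fun _ => {x : M // K x}) a x : Fin (n + 1) → {x : M // K x}) ∘ g =
          Sum.elim (fun _ => x) a := by
        funext i
        rcases i with i | i
        · simp [hg]
        · simp [hg]
      rw [this]
    rw [← e4]
    rw [Language.Formula.Realize]
    have e5 : (Fin.elim0 : Fin 0 → {x : M // K x}) = default := Subsingleton.elim _ _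
    rw [e5]
  constructor
  · rintro ⟨hx, v, hv⟩
    rw [mem_sep, opair_mem_prod] at hv
    obtain ⟨⟨_, hv1⟩, u', v', e, hv2⟩ := hv
    obtain ⟨rfl, rfl⟩ := opair_inj e
    have hvt : v = t := by simpa using hv1
    rw [hvt] at hv2
    exact ⟨hx, (key hx).1 hv2⟩
  · rintro ⟨hx, hPx⟩
    refine ⟨hx, t, ?_⟩
    rw [mem_sep, opair_mem_prod]
    exact ⟨⟨hx, by simp [ht]⟩, x.1, t, rfl, (key hx).2 hPx⟩

/-- all ordinals are in `L[A]` -/
theorem RCl.k_ord : ∀ α, Ord α → K α := by
  have hd1 := hK.d1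
  by_contra hcon
  push Not at hcon
  obtain ⟨β, hβ, hn, hmin⟩ := exists_leastO (fun α => ¬ K α) hcon
  have hmin' : ∀ γ, γ ∈ β → K γ := fun γ hγ => by
    by_contra h
    exact hmin γ hγ h
  obtain ⟨Z, hZ, hsub⟩ := hK.bound β hmin'
  set E : {x : M // K x} → {x : M // K x} → Prop := fun x y => x.1 ∈ y.1 with hE
  obtain ⟨D, hD, hD'⟩ := hK.k_sep (fun x : {x : M // K x} =>
      (∀ y, E y x → ∀ z, E z y → E z x) ∧ ∀ y, E y x → ∀ z, E z y → ∀ w, E w z → E w y)
    (GR.def1 E _) Z hZ
  have hordK : ∀ x : {x : M // K x}, ((∀ y, E y x → ∀ z, E z y → E z x) ∧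
      ∀ y, E y x → ∀ z, E z y → ∀ w, E w z → E w y) ↔ Ord x.1 := by
    intro x
    constructor
    · rintro ⟨h1, h2⟩
      refine ⟨fun y hy z hz => ?_, fun y hy z hz w hw => ?_⟩
      · exact h1 ⟨y, hK.k_trans x.2 hy⟩ hy ⟨z, hK.k_trans (hK.k_trans x.2 hy) hz⟩ hz
      · exact h2 ⟨y, hK.k_trans x.2 hy⟩ hy ⟨z, hK.k_trans (hK.k_trans x.2 hy) hz⟩ hz
          ⟨w, hK.k_trans (hK.k_trans (hK.k_trans x.2 hy) hz) hw⟩ hw
    · rintro ⟨h1, h2⟩
      exact ⟨fun y hy z hz => h1 y.1 hy z.1 hz, fun y hy z hz w hw => h2 y.1 hy z.1 hz w.1 hw⟩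
  apply hn
  have : D = β := by
    apply sub_antisymm
    · intro z hz
      have hz' : K z := hK.k_trans hD hz
      have h1 := (hD' ⟨z, hz'⟩).1 hz
      have h2 : Ord z := (hordK ⟨z, hz'⟩).1 h1.2
      rcases ord_trichotomy h2 hβ with h3 | h3 | h3
      · exact h3
      · rw [h3] at hz'
        exact absurd hz' hn
      · exact absurd (hK.k_trans hz' h3) hn
    · intro z hz
      have hz' := hmin' z hz
      exact (hD' ⟨z, hz'⟩).2 ⟨hsub z hz, (hordK ⟨z, hz'⟩).2 (hβ.mem hz)⟩
  rw [← this]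
  exact hD

theorem RCl.inner : Inner K := by
  have hd1 := hK.d1
  refine ⟨hK.d1, fun x y hy hx => hK.k_trans hy hx, ?_, hK.k_ord⟩
  set E : {x : M // K x} → {x : M // K x} → Prop := fun x y => x.1 ∈ y.1 with hE
  refine ⟨?_, ?_, ?_, ?_, ?_, ?_, ?_, ?_⟩
  · intro x y h
    apply Subtype.ext
    apply Pool.Agent.H78.ZF.ext
    intro z
    exact ⟨fun hz => (h ⟨z, hK.k_trans x.2 hz⟩).1 hz, fun hz => (h ⟨z, hK.k_trans y.2 hz⟩).2 hz⟩
  · rintro x ⟨y, hy⟩
    obtain ⟨z, hz, hz'⟩ := foundation x.1 (ne_emp_iff.2 ⟨y.1, hy⟩)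
    exact ⟨⟨z, hK.k_trans x.2 hz⟩, hz, fun w hw hwx => hz' w.1 hw hwx⟩
  · intro x y
    refine ⟨⟨upair x.1 y.1, hK.k_upair x.2 y.2⟩, fun w => ?_⟩
    change w.1 ∈ upair x.1 y.1 ↔ _
    rw [mem_upair, Subtype.ext_iff, Subtype.ext_iff]
  · intro x
    have hel : ∀ w, w ∈ sUn x.1 → K w := by
      intro w hw
      rw [mem_sUn] at hw
      obtain ⟨y, hy, hw⟩ := hw
      exact hK.k_trans (hK.k_trans x.2 hy) hw
    obtain ⟨Z, hZ, hsub⟩ := hK.bound _ hel
    obtain ⟨D, hD, hD'⟩ := hK.k_sep (fun w : {x : M // K x} => ∃ y, E y x ∧ E w y)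
      (GR.def1 E _) Z hZ
    refine ⟨⟨D, hD⟩, fun w => ?_⟩
    change w.1 ∈ D ↔ _
    rw [hD']
    constructor
    · exact fun h => h.2
    · rintro ⟨y, hy, hw⟩
      exact ⟨hsub _ (by rw [mem_sUn]; exact ⟨y.1, hy, hw⟩), y, hy, hw⟩
  · intro x
    have hel : ∀ w, w ∈ sep (pow x.1) (fun w => K w) → K w := by
      intro w hw
      rw [mem_sep] at hw
      exact hw.2
    obtain ⟨Z, hZ, hsub⟩ := hK.bound _ hel
    obtain ⟨D, hD, hD'⟩ := hK.k_sep (fun w : {x : M // K x} => ∀ z, E z w → E z x)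
      (GR.def1 E _) Z hZ
    refine ⟨⟨D, hD⟩, fun w => ?_⟩
    change w.1 ∈ D ↔ _
    rw [hD']
    constructor
    · exact fun h => h.2
    · intro h
      refine ⟨hsub _ ?_, h⟩
      rw [mem_sep, mem_pow]
      exact ⟨fun z hz => h ⟨z, hK.k_trans w.2 hz⟩ hz, w.2⟩
  · refine ⟨⟨omega, hK.k_ord omega ord_omega⟩, ⟨⟨emp, hK.k_trans (hK.k_ord omega ord_omega)
      emp_mem_omega⟩, emp_mem_omega, fun z hz => not_mem_emp _ hz⟩, fun y hy => ?_⟩
    refine ⟨⟨succ y.1, hK.k_trans (hK.k_ord omega ord_omega) (succ_mem_omega hy)⟩,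
      succ_mem_omega hy, fun z => ?_⟩
    change z.1 ∈ succ y.1 ↔ _
    rw [mem_succ, Subtype.ext_iff]
  · intro s hs a
    obtain ⟨D, hD, hD'⟩ := hK.k_sep (fun x => x ∈ s) hs a.1 a.2
    exact ⟨⟨D, hD⟩, fun x => hD' x⟩
  · intro F hF a hfun
    have h2 := rel_def2 K (fun x y => (x, y) ∈ F) hF
    obtain ⟨b, hb⟩ := exists_repl (fun x y => ∃ (h : K x) (h' : K y),
      ((⟨x, h⟩, ⟨y, h'⟩) : {x : M // K x} × {x : M // K x}) ∈ F) a.1 (by
        intro x hx
        obtain ⟨y, hy, hy'⟩ := hfun ⟨x, hK.k_trans a.2 hx⟩ hx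
        refine ⟨y.1, ⟨hK.k_trans a.2 hx, y.2, hy⟩, ?_⟩
        rintro z ⟨h, h', hz⟩
        exact congrArg Subtype.val (hy' ⟨z, h'⟩ hz))
    have hel : ∀ w, w ∈ b → K w := by
      intro w hw
      obtain ⟨x, _, _, h', _⟩ := (hb w).1 hw
      exact h'
    obtain ⟨Z, hZ, hsub⟩ := hK.bound _ hel
    have hdef : GR (κ := Fin 1) E (fun v => ∃ x, E x a ∧ (x, v 0) ∈ F) := by
      have : GR (κ := Option (Fin 1)) E (fun v => (v none, v (some 0)) ∈ F) :=
        GR.of_pair E hF (fun v => v none) (fun v => v (some 0))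
      infer_instance
    obtain ⟨D, hD, hD'⟩ := hK.k_sep (fun y : {x : M // K x} => ∃ x, E x a ∧ (x, y) ∈ F)
      (GR.def1 E _) Z hZ
    refine ⟨⟨D, hD⟩, fun y => ?_⟩
    change y.1 ∈ D ↔ _
    rw [hD']
    constructor
    · exact fun h => h.2
    · rintro ⟨x, hx, hxy⟩
      exact ⟨hsub _ ((hb _).2 ⟨x.1, hx, x.2, y.2, hxy⟩), x, hx, hxy⟩

end inL

end Pool.Agent.ZFIter.NPA.BSM
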