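import Pool.Agent.BSM.RDefs
import Pool.Agent.BSM.RSep

/-!
# BSM/RHier: `L(R)` is an inner model of ZF which contains all reals

Adapted from NPA/BHier.
-/

universe u

namespace Pool.Agent.ZFIter.NPA.BSM

open Pool.Agent.H78.ZF Pool.Agent.ZFIter Pool.Agent.ZFIter.NPA

variable {M : Type u} [ZFM M] {ι : Type}

theorem lr_hP {α r : M} (hα : Ord α) (hr : r ∈ (RS : M)) : LR (hP α r) := ⟨α, hα, r, hr, rfl⟩

theorem RP_mono {α β : M} (h : α ⊆ β) : RP α ⊆ RP β := by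
  intro x hx
  rw [mem_RP] at hx ⊢
  obtain ⟨γ, hγ, s, hs, rfl⟩ := hx
  exact ⟨γ, h γ hγ, s, hs, rfl⟩

theorem hP_sub_RP {α r : M} (hα : Ord α) (hr : r ∈ (RS : M)) : hP α r ⊆ RP α := by
  intro x hx
  exact ((mem_hP hα hr).1 hx).1

theorem lr_of_RP {α x : M} (hα : Ord α) (h : x ∈ RP α) : LR x := by
  obtain ⟨β, hβ, s, hs, rfl⟩ := mem_RP.1 h
  exact lr_hP (hα.mem hβ) hs

theorem lr_trans {x y : M} (hy : LR y) (h : x ∈ y) : LR x := by
  obtain ⟨α, hα, r, hr, rfl⟩ := hy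
  exact lr_of_RP hα (hP_sub_RP hα hr x h)

/-- operation 0 -/
theorem hP_zero {α r : M} (hα : Ord α) (hr : r ∈ (RS : M)) (h : dI α = emp) : hP α r = RP α := by
  apply ext
  intro w
  rw [mem_hP hα hr, h]
  exact ⟨fun h => h.1, fun h => ⟨h, opMem_zero _ _ _ _ _⟩⟩

/-- the stage of an operation -/
theorem exists_stageR {b c r0 r1 : M} (hb : Ord b) (hc : Ord c) (hr0 : r0 ∈ (RS : M))
    (hr1 : r1 ∈ (RS : M)) (i : ℕ) (hi0 : i ≠ 0) (hi : i < 11) :
    ∃ α, Ord α ∧ b ∈ α ∧ c ∈ α ∧ ∀ w, w ∈ hP α (jn r0 r1) ↔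
      w ∈ RP α ∧ OpMem r1 α (num i) (hP b r0) (hP c r1) w := by
  obtain ⟨α, hα, h1, h2, h3⟩ := dec_surj (i := (num i : M)) (b := b) (c := c)
    ⟨num_mem_eleven hi, hb, hc⟩
  have hne : dI α ≠ emp := by
    rw [h1]
    exact num_ne (M := M) (j := i) (k := 0) hi0
  obtain ⟨h4, h5⟩ := dec_bound' hα hne
  rw [h2] at h4
  rw [h3] at h5
  refine ⟨α, hα, h4, h5, fun w => ?_⟩
  rw [mem_hP hα (jn_mem hr0 hr1), h1, h2, h3, pL_jn hr0 hr1, pR_jn hr0 hr1]

theorem lr_stage {X Y : M} (hX : LR X) (hY : LR Y) (i : ℕ) (hi0 : i ≠ 0) (hi : i < 11)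
    (hi9 : i ≠ 9) : ∃ Z a : M, LR Z ∧ X ∈ a ∧ Y ∈ a ∧ X ⊆ a ∧ Y ⊆ a ∧
      ∀ w, w ∈ Z ↔ w ∈ a ∧ OpMem emp emp (num i) X Y w := by
  obtain ⟨b, hb, r0, hr0, rfl⟩ := hX
  obtain ⟨c, hc, r1, hr1, rfl⟩ := hY
  obtain ⟨α, hα, h1, h2, h3⟩ := exists_stageR hb hc hr0 hr1 i hi0 hi
  refine ⟨hP α (jn r0 r1), RP α, lr_hP hα (jn_mem hr0 hr1), mem_RP.2 ⟨b, h1, r0, hr0, rfl⟩,
    mem_RP.2 ⟨c, h2, r1, hr1, rfl⟩,
    sub_trans (hP_sub_RP hb hr0) (RP_mono (hα.1 b h1)),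
    sub_trans (hP_sub_RP hc hr1) (RP_mono (hα.1 c h2)), fun w => ?_⟩
  rw [h3, opMem_num, opMem_num]
  simp only [hi9, false_and, false_or]

theorem lr_upair {x y : M} (hx : LR x) (hy : LR y) : LR (upair x y) := by
  obtain ⟨Z, a, hZ, h1, h2, _, _, h3⟩ := lr_stage hx hy 1 (by norm_num) (by norm_num) (by norm_num)
  have e : Z = upair x y := by
    apply ext
    intro w
    rw [h3 w, mem_upair, opMem_num]
    simp only [OfNat.one_ne_ofNat, one_ne_zero, false_and, false_or, true_and, or_false]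
    constructor
    · exact fun h => h.2
    · rintro (rfl | rfl)
      · exact ⟨h1, Or.inl rfl⟩
      · exact ⟨h2, Or.inr rfl⟩
  rwa [e] at hZ

/-- operations 2 - 8 and 10 -/
private theorem lr_sep {X Y : M} (hX : LR X) (hY : LR Y) (i : ℕ) (hi0 : i ≠ 0) (hi1 : i ≠ 1)
    (hi : i < 11) (hi9 : i ≠ 9) {s : M} (h : ∀ w, w ∈ s ↔ OpMem emp emp (num i) X Y w) : LR s := by
  obtain ⟨Z, a, hZ, _, _, hs, _, h3⟩ := lr_stage hX hY i hi0 hi hi9
  have e : Z = s := by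
    apply ext
    intro w
    rw [h3 w, h w]
    refine ⟨fun h => h.2, fun h4 => ⟨?_, h4⟩⟩
    rw [opMem_num] at h4
    apply hs
    simp only [hi0, hi1, false_and, false_or] at h4
    rcases h4 with h4 | h4 | h4 | h4 | h4 | h4 | h4 | h4 | h4 <;> exact h4.2.1
  rwa [e] at hZ

/-- arbitrarily late stages of the operation 0 -/
theorem exists_zero_stageR {μ : M} (hμ : Ord μ) :
    ∃ γ, Ord γ ∧ μ ⊆ γ ∧ ∀ r, r ∈ (RS : M) → hP γ r = RP γ := by
  obtain ⟨γ, hγ, h1, h2, _⟩ := dec_surj (i := (num 0 : M)) (b := μ) (c := μ)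
    ⟨num_mem_eleven (by norm_num), hμ, hμ⟩
  refine ⟨γ, hγ, ?_, fun r hr => hP_zero hγ hr h1⟩
  have := (dec_bound hγ).1
  rwa [h2] at this

theorem exists_real : ∃ r : M, r ∈ (RS : M) := by
  have h : ∀ x : M, x ∈ (omega : M) → (fun _ : M => (emp : M)) x ∈ (omega : M) :=
    fun _ _ => emp_mem_omega
  exact ⟨mkf omega omega (fun _ => emp), mem_RS.2 (mkf_fun h)⟩

theorem lr_bnd {μ : M} (hμ : Ord μ) : ∃ γ, Ord γ ∧ μ ⊆ γ ∧ LR (RP γ) := by
  obtain ⟨γ, hγ, h1, h2⟩ := exists_zero_stageR hμ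
  obtain ⟨r, hr⟩ := exists_real (M := M)
  refine ⟨γ, hγ, h1, ?_⟩
  rw [← h2 r hr]
  exact lr_hP hγ hr

theorem rcl_LR : RCl (LR : M → Prop) RS hP where
  f2 := inferInstance
  surj x := Iff.rfl
  trans x y hy h := lr_trans hy h
  bnd μ hμ := by
    obtain ⟨γ, hγ, h1, h2⟩ := lr_bnd hμ
    exact ⟨RP γ, h2, fun β r hβ hr => mem_RP.2 ⟨β, h1 β hβ, r, hr, rfl⟩⟩
  pr2 x y hx hy := lr_upair hx hy
  diff X Y hX hY := by
    refine lr_sep hX hY 2 (by norm_num) (by norm_num) (by norm_num) (by norm_num) fun w => ?_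
    rw [opMem_num, mem_sep]
    simp
  op3 X hX := by
    refine lr_sep hX hX 3 (by norm_num) (by norm_num) (by norm_num) (by norm_num) fun w => ?_
    rw [opMem_num, mem_sep]
    simp
  op4 X Y hX hY := by
    refine lr_sep hX hY 4 (by norm_num) (by norm_num) (by norm_num) (by norm_num) fun w => ?_
    rw [opMem_num, mem_sep]
    simp
  op5 X Y hX hY := by
    refine lr_sep hX hY 5 (by norm_num) (by norm_num) (by norm_num) (by norm_num) fun w => ?_
    rw [opMem_num, mem_sep]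
    simp
  op6 X Y hX hY := by
    refine lr_sep hX hY 6 (by norm_num) (by norm_num) (by norm_num) (by norm_num) fun w => ?_
    rw [opMem_num, mem_sep]
    simp
  op7 X Y hX hY := by
    refine lr_sep hX hY 7 (by norm_num) (by norm_num) (by norm_num) (by norm_num) fun w => ?_
    rw [opMem_num, mem_sep]
    simp
  op8 X Y hX hY := by
    refine lr_sep hX hY 8 (by norm_num) (by norm_num) (by norm_num) (by norm_num) fun w => ?_
    rw [opMem_num, mem_sep]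
    simp
  op10 X hX := by
    refine lr_sep hX hX 10 (by norm_num) (by norm_num) (by norm_num) (by norm_num) fun w => ?_
    rw [opMem_num, mem_sep]
    simp

instance inner_LR : Inner (LR : M → Prop) := rcl_LR.inner

/-- every real is in `L(R)` -/
theorem lr_real {x : M} (hx : x ∈ (RS : M)) : LR x := by
  have hom : LR (omega : M) := Inner.ord omega ord_omega
  have hpr := rcl_LR.k_prod hom hom
  obtain ⟨b, hb, r0, hr0, e⟩ := hpr
  have hb' : Ord (un b (omega : M)) := by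
    rcases ord_un_cases hb ord_omega with h | h <;> rw [h.1]
    · exact hb
    · exact ord_omega
  obtain ⟨α, hα, h1, h2, h3⟩ := exists_stageR hb hb' hr0 hx 9 (by norm_num) (by norm_num)
  have hoα : (omega : M) ⊆ α := by
    intro z hz
    have : z ∈ un b (omega : M) := sub_un_right b (omega : M) z hz
    exact hα.trans this h2
  refine ⟨α, hα, _, jn_mem hr0 hx, ?_⟩
  apply ext
  intro w
  rw [h3, opMem_num, ← e]
  simp only [OfNat.ofNat_ne_zero, OfNat.ofNat_ne_one, false_and, false_or, true_and, Nat.reduceEqDiff,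
    or_false]
  constructor
  · intro hw
    have hwp : w ∈ prod (omega : M) (omega : M) := by
      have := (mem_RS.1 hx)
      obtain ⟨m, hm, n, hn, rfl⟩ := this.1 w hw
      exact (opair_mem_prod _ _ _ _).2 ⟨hm, hn⟩
    refine ⟨?_, hwp, hw, ?_⟩
    · have h5 : w ∈ hP b r0 := by rw [← e]; exact hwp
      exact RP_mono (hα.1 b h1) w (hP_sub_RP hb hr0 w h5)
    · obtain ⟨m, hm, n, hn, rfl⟩ := (mem_prod _ _ _).1 hwp
      exact ⟨m, n, hoα m hm, hn, rfl⟩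
  · exact fun h => h.2.2.1

end Pool.Agent.ZFIter.NPA.BSM
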