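import Pool.Agent.BSM.VSm

/-!
# BSM/VEnum: a union of `κ` many small sets is the range of a function on `κ`

`M` satisfies `V = L` in the form `∀ x, InL emp x`, so `leastO (fun ν => ... (hF emp ν) ...)` is a
definable choice. `dec β = (dI β, dB β, dC β)` is the `β`-th triple (NPA/Defs2, NPA/BDec, NPA/BTri).
* `dec_mem`: let `a, b ∈ κ`; by `dec_surj` there is an ordinal `β` with `dI β = emp`, `dB β = a`,
  `dC β = b`. If `β ∉ κ` then `κ ⊆ β`, and for `γ ∈ κ` we have `dec γ < dec β` (`dec_lt`, `tlt_iff`), so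
  `dB γ, dC γ ⊆ un a b`, `dB γ, dC γ ∈ succ (un a b)`, and `γ ↦ dec γ` is an injection (`dec_inj`) of `κ`
  into a product of small sets, so `Small κ κ`; contradiction with `not_small_self`.
* `exists_enum`: for `a ∈ κ` let `f_a` be the first injection of `X a` into `κ`
  (`Small κ (X a)`; `f_a = hF emp (leastO (fun ν => Inj (hF emp ν) (X a) κ))`), and
  `e = mkseq κ (fun β => iota (fun y => y ∈ X (dB β) ∧ ap f_(dB β) y = dC β))`.
-/

universe u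

namespace Pool.Agent.ZFIter.NPA.BSM

open Pool.Agent.H78.ZF Pool.Agent.ZFIter Pool.Agent.ZFIter.NPA

variable {M : Type u} [ZFM M] {κ : M}

private theorem ve_small {X Y : M} {F : M → M} [F1 F] (h : Small κ Y) (hF : ∀ x, x ∈ X → F x ∈ Y)
    (hi : ∀ x y, x ∈ X → y ∈ X → F x = F y → x = y) : Small κ X := by
  obtain ⟨δ, f, hδ, hf⟩ := h
  have hm : ∀ x, x ∈ X → ap f (F x) ∈ δ := fun x hx => hf.fun.ap_mem (hF x hx)
  refine ⟨δ, mkf X δ (fun x => ap f (F x)), hδ, ?_⟩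
  rw [inj_iff]
  refine ⟨mkf_fun hm, fun x y hx hy e => ?_⟩
  rw [ap_mkf hm hx, ap_mkf hm hy] at e
  exact hi x y hx hy (hf.ap_inj (hF x hx) (hF y hy) e)

theorem dec_mem (hκ : Inacc κ) {a b : M} (ha : a ∈ κ) (hb : b ∈ κ) :
    ∃ β, β ∈ κ ∧ dI β = emp ∧ dB β = a ∧ dC β = b := by
  have hoa := hκ.1.mem ha
  have hob := hκ.1.mem hb
  have ht : Tri emp a b := ⟨mem_num.2 ⟨0, by norm_num, rfl⟩, hoa, hob⟩
  obtain ⟨β, hβ, e1, e2, e3⟩ := dec_surj ht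
  refine ⟨β, ?_, e1, e2, e3⟩
  by_contra hcon
  have hsub : ∀ γ, γ ∈ κ → γ ∈ β := by
    intro γ hγ
    rcases ord_trichotomy hβ hκ.1 with h | h | h
    · exact absurd h hcon
    · rw [h]; exact hγ
    · exact hβ.trans hγ h
  have hμκ := inacc_un hκ ha hb
  have hμ := hκ.1.mem hμκ
  have hsm : Small κ (prod (num 11) (prod (succ (un a b)) (succ (un a b)))) := by
    refine small_prod hκ (small_mem ?_) (small_prod hκ (small_mem ?_) (small_mem ?_))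
    · exact hκ.1.trans (num_mem 11) hκ.2.1
    · exact inacc_succ hκ hμκ
    · exact inacc_succ hκ hμκ
  refine not_small_self hκ (ve_small (F := fun γ => dec γ) hsm ?_ ?_)
  · intro γ hγ
    obtain ⟨d1, d2⟩ := dec_spec (hκ.1.mem hγ)
    have h1 := dec_lt hβ (hsub γ hγ)
    rw [e1, e2, e3] at h1
    rw [tlt_iff d2 ht] at h1
    have h2 : un (dB γ) (dC γ) ⊆ un a b := by
      rcases h1 with h1 | ⟨h1, -⟩
      · exact hμ.1 _ h1
      · rw [h1]; exact sub_refl _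
    have h3 : ∀ x, Ord x → x ⊆ un a b → x ∈ succ (un a b) := by
      intro x hx hxs
      rw [mem_succ]
      exact (ord_sub_iff hx hμ).1 hxs
    show dec γ ∈ _
    rw [d1]
    unfold tri
    rw [opair_mem_prod, opair_mem_prod]
    exact ⟨d2.1, h3 _ d2.2.1 (sub_trans (sub_un_left _ _) h2),
      h3 _ d2.2.2 (sub_trans (sub_un_right _ _) h2)⟩
  · intro x y hx hy e
    obtain ⟨d1, -⟩ := dec_spec (hκ.1.mem hx)
    obtain ⟨d2, -⟩ := dec_spec (hκ.1.mem hy)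
    have e' : dec x = dec y := e
    rw [d1, d2] at e'
    obtain ⟨f1, f2, f3⟩ := tri_inj e'
    exact dec_inj (hκ.1.mem hx) (hκ.1.mem hy) f1 f2 f3

theorem exists_enum (hV : ∀ x : M, InL emp x) (hκ : Inacc κ) (X : M → M) [F1 X]
    (hX : ∀ a, a ∈ κ → Small κ (X a)) :
    ∃ e, IsSeq e κ ∧ ∀ a, a ∈ κ → ∀ y, y ∈ X a → ∃ β, β ∈ κ ∧ ap e β = y := by
  have hspec : ∀ a, a ∈ κ → ∃ δ, δ ∈ κ ∧
      Inj (hF emp (leastO (fun ν => ∃ δ, δ ∈ κ ∧ Inj (hF emp ν) (X a) δ))) (X a) δ := by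
    intro a ha
    refine (leastO_spec (fun ν => ∃ δ, δ ∈ κ ∧ Inj (hF emp ν) (X a) δ) ?_).2.1
    obtain ⟨δ, f, hδ, hf⟩ := hX a ha
    obtain ⟨ν, hν, e⟩ := hV f
    refine ⟨ν, hν, δ, hδ, ?_⟩
    rw [← e]
    exact hf
  obtain ⟨g, hg1, hg⟩ : ∃ g : M → M, F1 g ∧ ∀ a, a ∈ κ → ∃ δ, δ ∈ κ ∧ Inj (g a) (X a) δ :=
    ⟨fun a => hF emp (leastO (fun ν => ∃ δ, δ ∈ κ ∧ Inj (hF emp ν) (X a) δ)), inferInstance, hspec⟩
  refine ⟨mkseq κ (fun β => iota (fun y => y ∈ X (dB β) ∧ ap (g (dB β)) y = dC β)), isSeq_mkseq, ?_⟩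
  intro a ha y hy
  obtain ⟨δ, hδ, hf⟩ := hg a ha
  obtain ⟨β, hβ, -, e2, e3⟩ := dec_mem hκ ha (hκ.1.trans (hf.fun.ap_mem hy) hδ)
  refine ⟨β, hβ, ?_⟩
  rw [ap_mkseq hβ, e2, e3]
  refine iota_eq ⟨hy, rfl⟩ ?_
  rintro z ⟨hz, hz'⟩
  exact hf.ap_inj hz hy hz'

end Pool.Agent.ZFIter.NPA.BSM
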