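import Pool.Agent.BSM.VCol
import Pool.Agent.BSM.VEnum

/-!
# BSM/VCh: the continuum hypothesis in the Levy extension

* `nice_name`: let `x ⊆ omega` in the extension. `fr2` for
  `Q n y := (y = emp ∧ n ∉ x) ∨ (y = succ emp ∧ n ∈ x)` gives `A`; `B n ξ p := A (chk n) (chk ξ) p`. The
  hypothesis of `decision` holds (`ξ = emp` or `ξ = succ emp`; `em_emp`, `em_succ`). Let `α` be given by
  `decision` and `t = {(n, r) ∈ omega × Lev α : B n (succ emp) r}`. Then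
  `n ∈ x ↔ ∃ r ∈ G, (n, r) ∈ t` (for `→`: the `ξ` given by `decision` must be `succ emp`, since
  `B n ξ r` with `r` in `G` implies `Q (can n) (can ξ)`).
* `col_ch`: `exists_enum` for `X α = pow (prod omega (Lev α))` (`small_prod`, `small_pow`, `small_lev`,
  `small_mem` for `omega`) gives `e`; in the extension take
  `c = mkf (can κ) (pow omega) (fun β => sep omega (fun n => ∃ r, r ∈ gam F ∧ opair n r ∈ ap (can e) β))`,
  `em_ap`, `em_opair_mem`, `mem_gam`.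
-/


universe u

namespace Pool.Agent.ZFIter.NPA.BSM

open Pool.Agent.H78.ZF Pool.Agent.ZFIter Pool.Agent.ZFIter.NPA

variable {M : Type u} [ZFM M] {F : Fo M} {κ : M}

theorem nice_name (hκ : Inacc κ) (hP : F.P = Lev κ) (hR : F.R = LevR κ) {x : F.Ext}
    (_hx : x ⊆ omega) :
    ∃ α t, α ∈ κ ∧ t ⊆ prod omega (Lev α) ∧
      ∀ n, n ∈ (omega : M) → (can F n ∈ x ↔ ∃ r, F.G r ∧ opair n r ∈ t) := by
  obtain ⟨A, hD, hG, hT⟩ := fr2 (F := F)
    (fun n y => (y = emp ∧ n ∉ x) ∨ (y = succ emp ∧ n ∈ x))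
  have hT' : ∀ n ξ, ((can F ξ = emp ∧ can F n ∉ x) ∨ (can F ξ = succ emp ∧ can F n ∈ x)) ↔
      ∃ p, F.G p ∧ A (chk F.P n) (chk F.P ξ) p := fun n ξ => hT _ _
  have he : can F emp = emp := em_emp
  have hs : can F (succ emp) = succ emp := by rw [em_succ (i := can F), he]
  have h0κ : emp ∈ κ := hκ.1.trans emp_mem_omega hκ.2.1
  have h1κ : succ emp ∈ κ := hκ.1.trans (succ_mem_omega emp_mem_omega) hκ.2.1
  have hne : (succ emp : F.Ext) ≠ emp := succ_ne_emp emp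
  obtain ⟨α, hα, hdec⟩ := decision hκ hP hR (fun n ξ p => A (chk F.P n) (chk F.P ξ) p)
    (fun n ξ => hG _ _) (by
    intro n hn
    by_cases h : can F n ∈ x
    · obtain ⟨p, hp, h2⟩ := (hT' n (succ emp)).1 (Or.inr ⟨hs, h⟩)
      exact ⟨succ emp, p, h1κ, hp, h2⟩
    · obtain ⟨p, hp, h2⟩ := (hT' n emp).1 (Or.inl ⟨he, h⟩)
      exact ⟨emp, p, h0κ, hp, h2⟩)
  refine ⟨α, sep (prod omega (Lev α)) (fun z => ∃ n r, z = opair n r ∧
    A (chk F.P n) (chk F.P (succ emp)) r), hα, fun z hz => ((mem_sep _ _ _).1 hz).1, fun n hn => ?_⟩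
  constructor
  · intro hnx
    obtain ⟨ξ, r, hξ, hr, hrα, hA⟩ := hdec n hn
    refine ⟨r, hr, ?_⟩
    rw [mem_sep, mem_prod]
    refine ⟨⟨n, hn, r, hrα, rfl⟩, n, r, rfl, ?_⟩
    rcases (hT' n ξ).2 ⟨r, hr, hA⟩ with h | h
    · exact absurd hnx h.2
    · have : ξ = succ emp := em_inj (i := can F) (by rw [h.1, hs])
      rw [← this]
      exact hA
  · rintro ⟨r, hr, h⟩
    rw [mem_sep] at h
    obtain ⟨_, n', r', e, hA⟩ := h
    obtain ⟨rfl, rfl⟩ := opair_inj e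
    rcases (hT' n (succ emp)).2 ⟨r, hr, hA⟩ with h | h
    · rw [hs] at h
      exact absurd h.1 hne
    · exact h.2

theorem col_ch (hκ : Inacc κ) (hP : F.P = Lev κ) (hR : F.R = LevR κ) :
    ∃ c, Fun c (can F κ) (pow omega) ∧
      ∀ x, x ⊆ (omega : F.Ext) → ∃ α, α ∈ can F κ ∧ ap c α = x := by
  obtain ⟨e, _, he⟩ := exists_enum F.vl hκ (fun α => pow (prod omega (Lev α)))
    (fun a ha => small_pow hκ (small_prod hκ (small_mem hκ.2.1) (small_lev hκ ha)))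
  have hval : ∀ β, β ∈ can F κ →
      sep omega (fun n => ∃ r, r ∈ gam F ∧ opair n r ∈ ap (can F e) β) ∈ pow (omega : F.Ext) := by
    intro β _
    rw [mem_pow]
    exact fun z hz => ((mem_sep _ _ _).1 hz).1
  refine ⟨mkf (can F κ) (pow omega)
    (fun β => sep omega (fun n => ∃ r, r ∈ gam F ∧ opair n r ∈ ap (can F e) β)),
    mkf_fun hval, fun x hx => ?_⟩
  obtain ⟨α, t, hα, ht, htx⟩ := nice_name hκ hP hR hx
  obtain ⟨β, hβ, hβt⟩ := he α hα t (by rw [mem_pow]; exact ht)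
  refine ⟨can F β, em_mem.2 hβ, ?_⟩
  rw [ap_mkf hval (em_mem.2 hβ), ← em_ap, hβt]
  apply Pool.Agent.H78.ZF.ext
  intro z
  rw [mem_sep]
  constructor
  · rintro ⟨hz, r, hr, hzr⟩
    rw [← em_omega (i := can F)] at hz
    obtain ⟨n, hn, rfl⟩ := em_elim.1 hz
    obtain ⟨r, hr', rfl⟩ := mem_gam.1 hr
    exact (htx n hn).2 ⟨r, hr', em_opair_mem.1 hzr⟩
  · intro hz
    have hz' := hx z hz
    refine ⟨hz', ?_⟩
    rw [← em_omega (i := can F)] at hz'
    obtain ⟨n, hn, rfl⟩ := em_elim.1 hz'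
    obtain ⟨r, hr, h⟩ := (htx n hn).1 hz
    exact ⟨can F r, can_mem_gam.2 hr, em_opair_mem.2 h⟩

end Pool.Agent.ZFIter.NPA.BSM
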