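import Pool.Agent.BSM.VDec
import Pool.Agent.BSM.FGen

/-!
# BSM/VCol: in the Levy extension every `α < κ` is countable, functions from `omega` to `κ` are bounded

* `col_ctb`: for `α = emp` trivial. In the extension let `R n ξ` be
  `opair (opair (can α) n) ξ ∈ sUn (gam F)`. Every `ξ ∈ can α` is `can ξ'`; by `lev_val` and `Fo.meet`
  some `p` in `G` contains a pair `((α, n), ξ')`; so `R (can n) ξ` (`em_opair_mem`, `mem_gam`).
  `R n` has at most one value: two elements of `G` have a common extension, which is functional.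
  Apply `ctb_image` (ZFIter/Ctb) with `ctb_omega`.
* `col_reg`: `fr2` for `Q x y := opair x y ∈ f` gives `A`; `B n ξ p := A (chk n) (chk ξ) p`. Since `f` is a
  function from `omega = can omega` to `can κ` the hypothesis of `decision` holds. Let `α` be given by
  `decision`. For `z ∈ prod omega (Lev α)` let `T z` be the least ordinal `ξ` with `B n ξ r`, `z = opair n r`,
  if there is such a `ξ` in `κ`, and `emp` otherwise. By `small_bdd` the values are `< η` for some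
  `η ∈ κ`. If `r` is in `G ∩ Lev α` and `B n ξ r`, `ξ ∈ κ`, then also `B n ξ' r` for `ξ' = T (opair n r)`,
  so `opair (can n) (can ξ')` is in `f`, that is `ap f (can n) = can ξ' ∈ can η`.
-/


universe u

namespace Pool.Agent.ZFIter.NPA.BSM

open Pool.Agent.H78.ZF Pool.Agent.ZFIter Pool.Agent.ZFIter.NPA

variable {M : Type u} [ZFM M] {F : Fo M} {κ : M}

/-- a pair belongs to the union of the generic set iff it belongs to an element of `G` -/
private theorem mem_union {x : M} : can F x ∈ sUn (gam F) ↔ ∃ p, F.G p ∧ x ∈ p := by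
  rw [mem_sUn]
  constructor
  · rintro ⟨y, hy, hx⟩
    obtain ⟨p, hp, rfl⟩ := mem_gam.1 hy
    exact ⟨p, hp, em_mem.1 hx⟩
  · rintro ⟨p, hp, hx⟩
    exact ⟨can F p, can_mem_gam.2 hp, em_mem.2 hx⟩

theorem col_ctb (hκ : Inacc κ) (hP : F.P = Lev κ) (hR : F.R = LevR κ) {α : M} (hα : α ∈ κ) :
    Ctb (can F α) := by
  have hle : ∀ q p, Le F.P F.R q p ↔ q ∈ Lev κ ∧ p ∈ Lev κ ∧ p ⊆ q := by
    intro q p
    rw [hP, hR]
    exact le_lev
  refine ctb_image (ctb_omega (M := F.Ext)) (fun n ξ => opair (opair (can F α) n) ξ ∈ sUn (gam F)) ?_ ?_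
  · intro z hz
    obtain ⟨ξ, hξ, rfl⟩ := em_elim.1 hz
    obtain ⟨p, hp, n, hn, h1⟩ := Fo.meet (F := F)
      (fun p => ∃ n, n ∈ (omega : M) ∧ opair (opair α n) ξ ∈ p) (by
        intro p hp
        rw [hP] at hp
        obtain ⟨q, hq, hpq, n, hn, h⟩ := lev_val hκ.1 hp hα hξ
        exact ⟨q, (hle _ _).2 ⟨hq, hp, hpq⟩, n, hn, h⟩)
    refine ⟨can F n, ?_, ?_⟩
    · rw [← em_omega (i := can F)]
      exact em_mem.2 hn
    · rw [← em_opair, ← em_opair]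
      exact mem_union.2 ⟨p, hp, h1⟩
  · intro n z z' hz hz' h h'
    obtain ⟨ξ, hξ, rfl⟩ := em_elim.1 hz
    obtain ⟨ξ', hξ', rfl⟩ := em_elim.1 hz'
    obtain ⟨w, hw⟩ : ∃ w, opair (opair (can F α) n) (can F ξ) = can F w := by
      rw [mem_sUn] at h
      obtain ⟨y, hy, hx⟩ := h
      obtain ⟨p, hp, rfl⟩ := mem_gam.1 hy
      obtain ⟨w, _, e⟩ := em_elim.1 hx
      exact ⟨w, e⟩
    obtain ⟨u, _, _, e1, _⟩ := em_of_opair hw
    obtain ⟨_, m, _, _, e2⟩ := em_of_opair e1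
    rw [e2] at h h'
    rw [← em_opair, ← em_opair] at h h'
    obtain ⟨p, hp, h1⟩ := mem_union.1 h
    obtain ⟨q, hq, h2⟩ := mem_union.1 h'
    obtain ⟨r, hr, hr1, hr2⟩ := F.gen.dir p q hp hq
    have h3 := ((hle _ _).1 hr1).2.2 _ h1
    have h4 := ((hle _ _).1 hr2).2.2 _ h2
    have h5 := ((hle _ _).1 hr1).1
    unfold Lev at h5
    rw [mem_sep] at h5
    rw [h5.2.2.1 _ _ _ h3 h4]

theorem col_reg (hκ : Inacc κ) (hP : F.P = Lev κ) (hR : F.R = LevR κ) {f : F.Ext}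
    (hf : Fun f omega (can F κ)) :
    ∃ β, β ∈ can F κ ∧ ∀ n, n ∈ (omega : F.Ext) → ap f n ∈ β := by
  obtain ⟨A, hD, hG, hT⟩ := fr2 (F := F) (fun x y => opair x y ∈ f)
  have hB : ∀ n ξ, Good F.P F.R (fun p => A (chk F.P n) (chk F.P ξ) p) := fun n ξ => hG _ _
  have hT' : ∀ n ξ, opair (can F n) (can F ξ) ∈ f ↔ ∃ p, F.G p ∧ A (chk F.P n) (chk F.P ξ) p :=
    fun n ξ => hT _ _
  have htot : ∀ n, n ∈ (omega : M) → ∃ ξ, ξ ∈ κ ∧ opair (can F n) (can F ξ) ∈ f := by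
    intro n hn
    have hn' : can F n ∈ (omega : F.Ext) := by
      rw [← em_omega (i := can F)]; exact em_mem.2 hn
    have h1 := hf.ap_mem hn'
    obtain ⟨ξ, hξ, e⟩ := em_elim.1 h1
    refine ⟨ξ, hξ, ?_⟩
    rw [← e]
    exact hf.opair_ap hn'
  obtain ⟨α, hα, hdec⟩ := decision hκ hP hR (fun n ξ p => A (chk F.P n) (chk F.P ξ) p) hB (by
    intro n hn
    obtain ⟨ξ, hξ, h1⟩ := htot n hn
    obtain ⟨p, hp, h2⟩ := (hT' n ξ).1 h1
    exact ⟨ξ, p, hξ, hp, h2⟩)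
  have hsm : Small κ (prod omega (Lev α)) := small_prod hκ (small_mem hκ.2.1) (small_lev hκ hα)
  obtain ⟨η, hη, hb⟩ := small_bdd hκ hsm
    (fun z => leastO (fun ξ => ξ ∈ κ ∧ ∀ n r, z = opair n r →
      (∃ ξ', ξ' ∈ κ ∧ A (chk F.P n) (chk F.P ξ') r) → A (chk F.P n) (chk F.P ξ) r)) (by
      intro z hz
      rw [mem_prod] at hz
      obtain ⟨n, hn, r, hr, rfl⟩ := hz
      refine (leastO_spec (fun ξ => ξ ∈ κ ∧ ∀ n' r', opair n r = opair n' r' →
        (∃ ξ', ξ' ∈ κ ∧ A (chk F.P n') (chk F.P ξ') r') → A (chk F.P n') (chk F.P ξ) r') ?_).2.1.1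
      by_cases h : ∃ ξ', ξ' ∈ κ ∧ A (chk F.P n) (chk F.P ξ') r
      · obtain ⟨ξ', hξ', h1⟩ := h
        refine ⟨ξ', hκ.1.mem hξ', hξ', fun n' r' e _ => ?_⟩
        obtain ⟨rfl, rfl⟩ := opair_inj e
        exact h1
      · refine ⟨omega, hκ.1.mem hκ.2.1, hκ.2.1, fun n' r' e h' => ?_⟩
        obtain ⟨rfl, rfl⟩ := opair_inj e
        exact absurd h' h)
  refine ⟨can F η, em_mem.2 hη, fun n hn => ?_⟩
  rw [← em_omega (i := can F)] at hn
  obtain ⟨n, hn', rfl⟩ := em_elim.1 hn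
  obtain ⟨ξ, r, hξ, hr, hrα, hA⟩ := hdec n hn'
  have h1 := hb (opair n r) (by rw [mem_prod]; exact ⟨n, hn', r, hrα, rfl⟩)
  have h2 := leastO_spec (fun ξ => ξ ∈ κ ∧ ∀ n' r', opair n r = opair n' r' →
        (∃ ξ', ξ' ∈ κ ∧ A (chk F.P n') (chk F.P ξ') r') → A (chk F.P n') (chk F.P ξ) r') (by
      refine ⟨ξ, hκ.1.mem hξ, hξ, fun n' r' e _ => ?_⟩
      obtain ⟨rfl, rfl⟩ := opair_inj e
      exact hA)
  have h3 := h2.2.1.2 n r rfl ⟨ξ, hξ, hA⟩
  have h4 := (hT' n _).2 ⟨r, hr, h3⟩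
  rw [hf.ap_eq h4]
  exact em_mem.2 h1

end Pool.Agent.ZFIter.NPA.BSM
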