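import Pool.Agent.BSM.VLev
import Pool.Agent.BSM.FQuo

/-!
# BSM/VDec: countably many dense sets are decided below some `α < κ`

THEOREM `decision`. `B n ξ p` is a definable relation of `M`, closed as a forcing relation in `p`, and for
every `n` some `p` in `G` satisfies `B n ξ p` for some `ξ ∈ κ`. Then there is `α < κ` such that for every
`n` some `r` in `G` with `r ∈ Lev α` satisfies `B n ξ r` for some `ξ ∈ κ`.
PROOF. (1) There is `p0` in `G` such that for all `n ∈ omega` and `q ≤ p0` some `r ≤ q` has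
`∃ ξ ∈ κ, B n ξ r`: apply `Fo.decide` to this class `E` of conditions. If no `q ≤ p` is in `E`, `p` in `G`,
then below every `q ≤ p` there are `q' ≤ q` and `n ∈ omega` such that no `r ≤ q'` has
`∃ ξ ∈ κ, B n ξ r`; by `Fo.below` there is such a `q'` in `G`; a common extension of `q'` and of the
`p'` in `G` with `B n ξ p'` gives a contradiction (`Good.mono`).
(2) For `β < κ` let `Φ(β)` be the least ordinal `η` such that for all `q ∈ Lev β` with `p0 ⊆ q` and all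
`n ∈ omega` there is `r ∈ Lev η` with `q ⊆ r` and `∃ ξ ∈ κ, B n ξ r` (`leastO`). `Φ(β) ∈ κ`: for every
pair `(q, n)` there is such an `r` in `Lev κ`, hence in `Lev γ` for some `γ ∈ κ` (`lev_lim` for `κ`),
and the least such `γ` are bounded below `κ` by `small_bdd` for `X = prod (Lev β) omega`
(`small_lev`, `small_prod`, `lev_mono`).
(3) `p0 ∈ Lev α0` for some `α0 ∈ κ` (`lev_lim`); take `α` from `closure_pt`.
(4) Let `n ∈ omega`. The class of all `r` in `Lev κ` which include some `r' ∈ Lev α` with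
`∃ ξ ∈ κ, B n ξ r'` is dense below `p0`: for `q ≤ p0` the condition `rs q α ∈ Lev α` includes `p0`
(`sub_rs`, `lev_mono`) and is in `Lev β` for some `β ∈ α` (`lev_lim`), so there is `r' ∈ Lev (Φ β)`,
`Lev (Φ β) ⊆ Lev α`, as required, with `rs q α ⊆ r'`, and `un q r'` is a condition (`lev_un`). By
`Fo.below` there is such an `r` in `G`, and `r' ∈ G` by `F.gen.up`.
-/


universe u

namespace Pool.Agent.ZFIter.NPA.BSM

open Pool.Agent.H78.ZF Pool.Agent.ZFIter Pool.Agent.ZFIter.NPA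

variable {M : Type u} [ZFM M] {F : Fo M} {κ : M}

/-- some value is forced by `r` -/
private def Dc (κ : M) (B : M → M → M → Prop) (n r : M) : Prop := ∃ ξ, ξ ∈ κ ∧ B n ξ r

private instance dr_Dc {ι : Type} (κ : M) (B : M → M → M → Prop) [D3 B] (n r : (ι → M) → M) [DF n]
    [DF r] : DR (fun v => Dc κ B (n v) (r v)) := by
  unfold Dc
  infer_instance

/-- step (1) -/
private theorem step1 (hP : F.P = Lev κ) (hR : F.R = LevR κ) (B : M → M → M → Prop) [D3 B]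
    (hB : ∀ n ξ, Good F.P F.R (B n ξ))
    (h : ∀ n, n ∈ (omega : M) → ∃ ξ p, ξ ∈ κ ∧ F.G p ∧ B n ξ p) :
    ∃ p0, F.G p0 ∧ ∀ n, n ∈ (omega : M) → ∀ q, q ∈ Lev κ → p0 ⊆ q →
      ∃ r, r ∈ Lev κ ∧ q ⊆ r ∧ Dc κ B n r := by
  have hle : ∀ q p, Le F.P F.R q p ↔ q ∈ Lev κ ∧ p ∈ Lev κ ∧ p ⊆ q := by
    intro q p
    rw [hP, hR]
    exact le_lev
  obtain ⟨p, hp, h1 | h1⟩ := Fo.decide (F := F) (fun p => ∀ n, n ∈ (omega : M) → ∀ q, q ∈ Lev κ →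
    p ⊆ q → ∃ r, r ∈ Lev κ ∧ q ⊆ r ∧ Dc κ B n r)
  · exact ⟨p, hp, h1⟩
  · exfalso
    obtain ⟨q, hq, n, hn, h2⟩ := Fo.below (F := F)
      (fun q => ∃ n, n ∈ (omega : M) ∧ ∀ r, r ∈ Lev κ → q ⊆ r → ¬ Dc κ B n r) hp (by
        intro q hq
        have h2 := h1 q hq
        push Not at h2
        obtain ⟨n, hn, q', hq', hqq', h3⟩ := h2
        exact ⟨q', (hle _ _).2 ⟨hq', ((hle _ _).1 hq).1, hqq'⟩, n, hn, h3⟩)
    obtain ⟨ξ, p', hξ, hp', hB'⟩ := h n hn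
    obtain ⟨r, _, hr1, hr2⟩ := F.gen.dir q p' hq hp'
    exact h2 r ((hle _ _).1 hr1).1 ((hle _ _).1 hr1).2.2 ⟨ξ, hξ, (hB n ξ).mono hB' hr2⟩

theorem decision (hκ : Inacc κ) (hP : F.P = Lev κ) (hR : F.R = LevR κ) (B : M → M → M → Prop) [D3 B]
    (hB : ∀ n ξ, Good F.P F.R (B n ξ))
    (h : ∀ n, n ∈ (omega : M) → ∃ ξ p, ξ ∈ κ ∧ F.G p ∧ B n ξ p) :
    ∃ α, α ∈ κ ∧ ∀ n, n ∈ (omega : M) → ∃ ξ r, ξ ∈ κ ∧ F.G r ∧ r ∈ Lev α ∧ B n ξ r := by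
  have hle : ∀ q p, Le F.P F.R q p ↔ q ∈ Lev κ ∧ p ∈ Lev κ ∧ p ⊆ q := by
    intro q p
    rw [hP, hR]
    exact le_lev
  have hlim : ∀ β, β ∈ κ → succ β ∈ κ := fun β hβ => inacc_succ hκ hβ
  have hne : κ ≠ emp := ne_emp_iff.2 ⟨_, hκ.2.1⟩
  obtain ⟨p0, hp0, h0⟩ := step1 hP hR B hB h
  have hp0' : p0 ∈ Lev κ := by rw [← hP]; exact Fo.G_mem hp0
  -- the bounding function
  have key : ∀ β, β ∈ κ → ∃ η, η ∈ κ ∧ ∀ q, q ∈ Lev β → p0 ⊆ q → ∀ n, n ∈ (omega : M) →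
      ∃ r, r ∈ Lev η ∧ q ⊆ r ∧ Dc κ B n r := by
    intro β hβ
    have hsm : Small κ (prod (Lev β) omega) := small_prod hκ (small_lev hκ hβ) (small_mem hκ.2.1)
    have hex : ∀ q n, q ∈ Lev β → p0 ⊆ q → n ∈ (omega : M) →
        ∃ γ, γ ∈ κ ∧ ∃ r, r ∈ Lev γ ∧ q ⊆ r ∧ Dc κ B n r := by
      intro q n hq hpq hn
      obtain ⟨r, hr, hqr, hD⟩ := h0 n hn q (lev_mono (hκ.1.1 β hβ) q hq) hpq
      obtain ⟨γ, hγ, hrγ⟩ := lev_lim hκ.1 hlim hne hr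
      exact ⟨γ, hγ, r, hrγ, hqr, hD⟩
    obtain ⟨η, hη, hb⟩ := small_bdd hκ hsm
      (fun z => leastO (fun γ => γ ∈ κ ∧ ∀ q n, z = opair q n → p0 ⊆ q →
        ∃ r, r ∈ Lev γ ∧ q ⊆ r ∧ Dc κ B n r)) (by
        intro z hz
        rw [mem_prod] at hz
        obtain ⟨q, hq, n, hn, rfl⟩ := hz
        refine (leastO_spec (fun γ => γ ∈ κ ∧ ∀ q' n', opair q n = opair q' n' → p0 ⊆ q' →
          ∃ r, r ∈ Lev γ ∧ q' ⊆ r ∧ Dc κ B n' r) ?_).2.1.1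
        by_cases hpq : p0 ⊆ q
        · obtain ⟨γ, hγ, h2⟩ := hex q n hq hpq hn
          refine ⟨γ, hκ.1.mem hγ, hγ, fun q' n' e _ => ?_⟩
          obtain ⟨rfl, rfl⟩ := opair_inj e
          exact h2
        · refine ⟨omega, hκ.1.mem hκ.2.1, hκ.2.1, fun q' n' e h => ?_⟩
          obtain ⟨rfl, rfl⟩ := opair_inj e
          exact absurd h hpq)
    refine ⟨η, hη, fun q hq hpq n hn => ?_⟩
    have h1 := hb (opair q n) (by rw [mem_prod]; exact ⟨q, hq, n, hn, rfl⟩)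
    have h2 := (leastO_spec (fun γ => γ ∈ κ ∧ ∀ q' n', opair q n = opair q' n' → p0 ⊆ q' →
          ∃ r, r ∈ Lev γ ∧ q' ⊆ r ∧ Dc κ B n' r) (by
            obtain ⟨γ, hγ, h2⟩ := hex q n hq hpq hn
            refine ⟨γ, hκ.1.mem hγ, hγ, fun q' n' e _ => ?_⟩
            obtain ⟨rfl, rfl⟩ := opair_inj e
            exact h2)).2.1.2 q n rfl hpq
    obtain ⟨r, hr, hqr, hD⟩ := h2
    exact ⟨r, lev_mono ((hκ.1.mem hη).1 _ h1) r hr, hqr, hD⟩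
  obtain ⟨α0, hα0, hp0α⟩ := lev_lim hκ.1 hlim hne hp0'
  obtain ⟨α, hα, h0α, hsα, hcl⟩ := closure_pt hκ
    (fun β => leastO (fun η => ∀ q, q ∈ Lev β → p0 ⊆ q → ∀ n, n ∈ (omega : M) →
      ∃ r, r ∈ Lev η ∧ q ⊆ r ∧ Dc κ B n r)) (by
      intro β hβ
      obtain ⟨η, hη, h1⟩ := key β hβ
      have h2 := leastO_le (fun η => ∀ q, q ∈ Lev β → p0 ⊆ q → ∀ n, n ∈ (omega : M) →
        ∃ r, r ∈ Lev η ∧ q ⊆ r ∧ Dc κ B n r) (hκ.1.mem hη) h1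
      have h3 := (leastO_spec (fun η => ∀ q, q ∈ Lev β → p0 ⊆ q → ∀ n, n ∈ (omega : M) →
        ∃ r, r ∈ Lev η ∧ q ⊆ r ∧ Dc κ B n r) ⟨η, hκ.1.mem hη, h1⟩).1
      rcases (ord_sub_iff h3 (hκ.1.mem hη)).1 h2 with h4 | h4
      · exact hκ.1.trans h4 hη
      · rw [h4]; exact hη) hα0
  have hαo : Ord α := hκ.1.mem hα
  have hαne : α ≠ emp := ne_emp_iff.2 ⟨_, h0α⟩
  have hακ : α ⊆ κ := hκ.1.1 α hα
  have hp0α' : p0 ∈ Lev α := lev_mono (hαo.1 α0 h0α) p0 hp0α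
  refine ⟨α, hα, fun n hn => ?_⟩
  obtain ⟨r, hr, r', hr', hrr', ξ, hξ, hBr⟩ := Fo.below (F := F)
    (fun r => ∃ r', r' ∈ Lev α ∧ r' ⊆ r ∧ Dc κ B n r') hp0 (by
      intro q hq
      have hq' := (hle _ _).1 hq
      have hrs : rs q α ∈ Lev α := rs_lev hκ.1 hα hq'.1
      have hpr : p0 ⊆ rs q α := sub_rs hp0α' hq'.2.2
      obtain ⟨β, hβ, hrβ⟩ := lev_lim hαo hsα hαne hrs
      have hβκ := hκ.1.trans hβ hα
      obtain ⟨η, hη, h1⟩ := key β hβκ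
      have h3 := (leastO_spec (fun η => ∀ q, q ∈ Lev β → p0 ⊆ q → ∀ n, n ∈ (omega : M) →
        ∃ r, r ∈ Lev η ∧ q ⊆ r ∧ Dc κ B n r) ⟨η, hκ.1.mem hη, h1⟩).2.1
      obtain ⟨r', hr', hqr', hD⟩ := h3 _ hrβ hpr n hn
      have hr'α : r' ∈ Lev α := lev_mono (hαo.1 _ (hcl β hβ)) r' hr'
      have hun := lev_un hακ hq'.1 hr'α hqr'
      exact ⟨un q r', (hle _ _).2 ⟨hun, hq'.1, sub_un_left q r'⟩, r', hr'α, sub_un_right q r', hD⟩)
  refine ⟨ξ, r', hξ, ?_, hr', hBr⟩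
  refine F.gen.up r r' hr ((hle _ _).2 ⟨?_, lev_mono hακ r' hr', hrr'⟩)
  rw [← hP]
  exact Fo.G_mem hr

end Pool.Agent.ZFIter.NPA.BSM
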