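import Pool.Agent.BSM.VSm

/-!
# BSM/VLad: the ladder system of the least inaccessible cardinal

`κ` is the least inaccessible cardinal of `M`, and `M` satisfies `V = L` (definable choice:
`leastO (fun ν => ... (hF emp ν) ...)`).
* `nx = mkseq κ (fun γ => leastO (fun δ => γ ∈ δ ∧ omega ∈ δ ∧ ∃ f, Inj f (pow γ) δ))`; in `κ` by `Inacc`
  (`inacc_un`, `inacc_succ`).
* `exists_lad`: let `β ∈ κ` be a nonzero limit. (a) If `ap nx γ ∉ β` for some `γ ∈ β` then `β ⊆ ap nx γ`; take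
  for `h` the identity on `β` and `emp` elsewhere. (b) Otherwise `omega ∈ ap nx emp ∈ β` and `β` satisfies
  the last clause of `Inacc`; since `β` is not inaccessible there are `γ ∈ β` and `h0 : γ → β` such that for
  every `η ∈ β` some `ξ ∈ γ` has `ap h0 ξ ∉ η`. Take `h = h0` on `γ`, `emp` on the rest of `ap nx γ`
  (`γ ⊆ ap nx γ`). For `δ ∈ β` apply this to `η = succ δ`: `ap h0 ξ ∉ succ δ` gives `δ ∈ ap h0 ξ`.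
* `exists_s`: choose `(γ, h)` for every `β` by definable choice, `s = mkseq κ (...)`.
-/

universe u

namespace Pool.Agent.ZFIter.NPA.BSM

open Pool.Agent.H78.ZF Pool.Agent.ZFIter Pool.Agent.ZFIter.NPA

variable {M : Type u} [ZFM M] {κ : M}

private theorem inj_mono' {f a b c : M} (h : Inj f a b) (hbc : b ⊆ c) : Inj f a c :=
  ⟨h.fun.mono (fun _ hx => hbc _ (h.fun.ap_mem hx)), h.2⟩

theorem exists_nx (hκ : Inacc κ) :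
    ∃ nx, IsSeq nx κ ∧ ∀ γ, γ ∈ κ → γ ∈ ap nx γ ∧ ap nx γ ∈ κ ∧ omega ∈ ap nx γ ∧
      ∃ f, Inj f (pow γ) (ap nx γ) := by
  refine ⟨mkseq κ (fun γ => leastO (fun δ => δ ∈ κ ∧ γ ∈ δ ∧ omega ∈ δ ∧ ∃ f, Inj f (pow γ) δ)),
    isSeq_mkseq, ?_⟩
  intro γ hγ
  rw [ap_mkseq hγ]
  have hex : ∃ δ, Ord δ ∧ (δ ∈ κ ∧ γ ∈ δ ∧ omega ∈ δ ∧ ∃ f, Inj f (pow γ) δ) := by
    obtain ⟨δ0, f0, hδ0, hf0⟩ := hκ.2.2.2 γ hγ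
    have h1 : un δ0 (un (succ γ) (succ omega)) ∈ κ :=
      inacc_un hκ hδ0 (inacc_un hκ (inacc_succ hκ hγ) (inacc_succ hκ hκ.2.1))
    refine ⟨un δ0 (un (succ γ) (succ omega)), hκ.1.mem h1, h1, ?_, ?_, f0, ?_⟩
    · rw [mem_un, mem_un, mem_succ]; exact Or.inr (Or.inl (Or.inr rfl))
    · rw [mem_un, mem_un, mem_succ, mem_succ]; exact Or.inr (Or.inr (Or.inr rfl))
    · exact inj_mono' hf0 (sub_un_left _ _)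
  obtain ⟨-, ⟨h1, h2, h3, h4⟩, -⟩ := leastO_spec
    (fun δ => δ ∈ κ ∧ γ ∈ δ ∧ omega ∈ δ ∧ ∃ f, Inj f (pow γ) δ) hex
  exact ⟨h2, h1, h3, h4⟩

private theorem emp_mem_ord {β : M} (hβ : Ord β) (h0 : β ≠ emp) : (emp : M) ∈ β := by
  rcases ord_trichotomy ord_emp hβ with h | h | h
  · exact h
  · exact absurd h.symm h0
  · exact absurd h (not_mem_emp β)

/-- extend a function by the empty set -/
private theorem ext_fun {c μ β : M} (F : M → M) [F1 F] (hF : ∀ ξ, ξ ∈ c → F ξ ∈ β)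
    (hc : c ⊆ μ) (h0 : (emp : M) ∈ β) : ∃ h, Fun h μ β ∧ ∀ ξ, ξ ∈ c → ap h ξ = F ξ := by
  have h1 : ∀ ξ, ξ ∈ c → iota (fun y => (ξ ∈ c ∧ y = F ξ) ∨ (ξ ∉ c ∧ y = emp)) = F ξ := by
    intro ξ hξ
    apply iota_eq
    · exact Or.inl ⟨hξ, rfl⟩
    · rintro y (⟨-, rfl⟩ | ⟨h, -⟩)
      · rfl
      · exact absurd hξ h
  have h2 : ∀ ξ, ξ ∉ c → iota (fun y => (ξ ∈ c ∧ y = F ξ) ∨ (ξ ∉ c ∧ y = emp)) = emp := by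
    intro ξ hξ
    apply iota_eq
    · exact Or.inr ⟨hξ, rfl⟩
    · rintro y (⟨h, -⟩ | ⟨-, rfl⟩)
      · exact absurd h hξ
      · rfl
  have h3 : ∀ ξ, ξ ∈ μ → iota (fun y => (ξ ∈ c ∧ y = F ξ) ∨ (ξ ∉ c ∧ y = emp)) ∈ β := by
    intro ξ _
    by_cases hξ : ξ ∈ c
    · rw [h1 ξ hξ]; exact hF ξ hξ
    · rw [h2 ξ hξ]; exact h0
  refine ⟨mkf μ β (fun ξ => iota (fun y => (ξ ∈ c ∧ y = F ξ) ∨ (ξ ∉ c ∧ y = emp))), mkf_fun h3,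
    fun ξ hξ => ?_⟩
  rw [ap_mkf h3 (hc ξ hξ), h1 ξ hξ]

theorem exists_lad (hκ : Inacc κ) (hmin : ∀ μ, μ ∈ κ → ¬ Inacc μ) {nx : M}
    (hnx : ∀ γ, γ ∈ κ → γ ∈ ap nx γ ∧ ap nx γ ∈ κ ∧ omega ∈ ap nx γ ∧ ∃ f, Inj f (pow γ) (ap nx γ))
    {β : M} (hβ : β ∈ κ) (h0 : β ≠ emp) (hl : ∀ γ, γ ∈ β → succ γ ∈ β) :
    ∃ γ h, γ ∈ β ∧ Fun h (ap nx γ) β ∧ ∀ δ, δ ∈ β → ∃ ξ, ξ ∈ ap nx γ ∧ δ ∈ ap h ξ := by
  have hβo : Ord β := hκ.1.mem hβ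
  have he : (emp : M) ∈ β := emp_mem_ord hβo h0
  by_cases hc : ∃ γ, γ ∈ β ∧ ap nx γ ∉ β
  · obtain ⟨γ, hγ, hγ'⟩ := hc
    obtain ⟨-, h2, -, -⟩ := hnx γ (hκ.1.trans hγ hβ)
    have h3 : β ⊆ ap nx γ := (ord_le_or_lt hβo (hκ.1.mem h2)).resolve_right hγ'
    obtain ⟨h, hh, hv⟩ := ext_fun (c := β) (μ := ap nx γ) (β := β) (fun ξ => ξ) (fun ξ hξ => hξ)
      h3 he
    refine ⟨γ, h, hγ, hh, fun δ hδ => ⟨succ δ, h3 _ (hl δ hδ), ?_⟩⟩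
    rw [hv _ (hl δ hδ), mem_succ]
    exact Or.inr rfl
  · push Not at hc
    have h1 : ¬ ∀ γ h, γ ∈ β → Fun h γ β → ∃ η, η ∈ β ∧ ∀ ξ, ξ ∈ γ → ap h ξ ∈ η := by
      intro h2
      refine hmin β hβ ⟨hβo, ?_, h2, ?_⟩
      · exact hβo.trans (hnx emp (hκ.1.trans he hβ)).2.2.1 (hc emp he)
      · intro γ hγ
        obtain ⟨-, -, -, f, hf⟩ := hnx γ (hκ.1.trans hγ hβ)
        exact ⟨ap nx γ, f, hc γ hγ, hf⟩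
    push Not at h1
    obtain ⟨γ, h, hγ, hh, hb⟩ := h1
    obtain ⟨h2, h3, -, -⟩ := hnx γ (hκ.1.trans hγ hβ)
    have h4 : γ ⊆ ap nx γ := (hκ.1.mem h3).1 γ h2
    obtain ⟨h', hh', hv⟩ := ext_fun (c := γ) (μ := ap nx γ) (β := β) (fun ξ => ap h ξ)
      (fun ξ hξ => hh.ap_mem hξ) h4 he
    refine ⟨γ, h', hγ, hh', fun δ hδ => ?_⟩
    obtain ⟨ξ, hξ, hn⟩ := hb (succ δ) (hl δ hδ)
    refine ⟨ξ, h4 ξ hξ, ?_⟩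
    rw [hv ξ hξ]
    rw [mem_succ, not_or] at hn
    rcases ord_trichotomy (hβo.mem hδ) (hβo.mem (hh.ap_mem hξ)) with h5 | h5 | h5
    · exact h5
    · exact absurd h5.symm hn.2
    · exact absurd h5 hn.1

theorem exists_s (hV : ∀ x : M, InL emp x) (hκ : Inacc κ) (hmin : ∀ μ, μ ∈ κ → ¬ Inacc μ) :
    ∃ nx s, (∀ γ, γ ∈ κ → γ ∈ ap nx γ ∧ ap nx γ ∈ κ) ∧
      ∀ β, β ∈ κ → β ≠ emp → (∀ γ, γ ∈ β → succ γ ∈ β) →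
        ∃ γ h, ap s β = opair γ h ∧ γ ∈ β ∧ Fun h (ap nx γ) β ∧
          ∀ δ, δ ∈ β → ∃ ξ, ξ ∈ ap nx γ ∧ δ ∈ ap h ξ := by
  obtain ⟨nx, -, hnx⟩ := exists_nx hκ
  refine ⟨nx, mkseq κ (fun β => hF emp (leastO (fun ν => ∃ γ h, hF emp ν = opair γ h ∧ γ ∈ β ∧
    Fun h (ap nx γ) β ∧ ∀ δ, δ ∈ β → ∃ ξ, ξ ∈ ap nx γ ∧ δ ∈ ap h ξ))),
    fun γ hγ => ⟨(hnx γ hγ).1, (hnx γ hγ).2.1⟩, ?_⟩
  intro β hβ h0 hl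
  rw [ap_mkseq hβ]
  have hex : ∃ ν, Ord ν ∧ ∃ γ h, hF emp ν = opair γ h ∧ γ ∈ β ∧
      Fun h (ap nx γ) β ∧ ∀ δ, δ ∈ β → ∃ ξ, ξ ∈ ap nx γ ∧ δ ∈ ap h ξ := by
    obtain ⟨γ, h, h1, h2, h3⟩ := exists_lad hκ hmin hnx hβ h0 hl
    obtain ⟨ν, hν, he⟩ := hV (opair γ h)
    exact ⟨ν, hν, γ, h, he.symm, h1, h2, h3⟩
  exact (leastO_spec (fun ν => ∃ γ h, hF emp ν = opair γ h ∧ γ ∈ β ∧
    Fun h (ap nx γ) β ∧ ∀ δ, δ ∈ β → ∃ ξ, ξ ∈ ap nx γ ∧ δ ∈ ap h ξ) hex).2.1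

end Pool.Agent.ZFIter.NPA.BSM
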