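import Pool.Agent.BSM.VSm

/-!
# BSM/VLev: basic facts on the Levy collapse

`rs p α` is the restriction of the condition `p` to `α × omega`. Finite sets: H78/ZF/Finite (`fin_sub`,
`fin_un`, `fin_ins`, `fin_induction`, `fin_bdd`).
* `lev_lim`: `p ∈ Lev α` for a limit ordinal `α`: the finitely many first coordinates are bounded below
  `α` (`fin_induction` over finite subsets of `p`).
* `lev_dom`: if `(α, n)` is not in the domain of `p` add the pair with value `emp` (`emp ∈ α`, since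
  `α ≠ emp` is an ordinal).
* `lev_val`: choose `n ∈ omega` such that no pair `((α, n), ξ)` is in `p` (the set of these `n` is finite).
* `small_lev`: `Lev α ⊆ pow (prod (prod α omega) α)`, `small_prod`, `small_pow`.
-/

universe u

namespace Pool.Agent.ZFIter.NPA.BSM

open Pool.Agent.H78.ZF Pool.Agent.ZFIter Pool.Agent.ZFIter.NPA

variable {M : Type u} [ZFM M] {ι : Type} {κ α p q r : M}

theorem mem_lev : p ∈ Lev κ ↔ p ⊆ prod (prod κ omega) κ ∧ FinM p ∧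
    (∀ a ξ η, opair a ξ ∈ p → opair a η ∈ p → ξ = η) ∧
    ∀ α n ξ, opair (opair α n) ξ ∈ p → ξ ∈ α := by
  unfold Lev
  rw [mem_sep, mem_pow]

/-- the elements of a condition -/
theorem lev_elem (hp : p ∈ Lev κ) {z : M} (hz : z ∈ p) :
    ∃ β n ξ, β ∈ κ ∧ n ∈ (omega : M) ∧ ξ ∈ κ ∧ ξ ∈ β ∧ z = opair (opair β n) ξ := by
  rw [mem_lev] at hp
  have h1 := hp.1 z hz
  rw [mem_prod] at h1
  obtain ⟨x, hx, ξ, hξ, rfl⟩ := h1
  rw [mem_prod] at hx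
  obtain ⟨β, hβ, n, hn, rfl⟩ := hx
  exact ⟨β, n, ξ, hβ, hn, hξ, hp.2.2.2 β n ξ hz, rfl⟩

theorem le_lev : Le (Lev κ) (LevR κ) q p ↔ q ∈ Lev κ ∧ p ∈ Lev κ ∧ p ⊆ q := by
  unfold Le LevR
  rw [mem_sep, opair_mem_prod]
  constructor
  · rintro ⟨h1, h2, -, q', p', e, h3⟩
    obtain ⟨rfl, rfl⟩ := opair_inj e
    exact ⟨h1, h2, h3⟩
  · rintro ⟨h1, h2, h3⟩
    exact ⟨h1, h2, ⟨h1, h2⟩, q, p, rfl, h3⟩

instance pre_lev : Pre (Lev κ) (LevR κ) where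
  refl := fun hp => le_lev.2 ⟨hp, hp, sub_refl _⟩
  trans := fun h1 h2 => by
    rw [le_lev] at h1 h2 ⊢
    exact ⟨h1.1, h2.2.1, sub_trans h2.2.2 h1.2.2⟩

theorem emp_lev : emp ∈ Lev κ := by
  rw [mem_lev]
  exact ⟨emp_sub _, fin_emp, fun _ _ _ h => absurd h (not_mem_emp _),
    fun _ _ _ h => absurd h (not_mem_emp _)⟩

theorem lev_mono (h : α ⊆ κ) : Lev α ⊆ Lev κ := by
  intro p hp
  have hp' := hp
  rw [mem_lev] at hp ⊢
  refine ⟨fun z hz => ?_, hp.2⟩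
  obtain ⟨β, n, ξ, h1, h2, h3, -, rfl⟩ := lev_elem hp' hz
  rw [opair_mem_prod, opair_mem_prod]
  exact ⟨⟨h β h1, h2⟩, h ξ h3⟩

/-- restriction of a condition -/
noncomputable def rs (p α : M) : M := sep p (fun z => ∃ β n ξ, β ∈ α ∧ z = opair (opair β n) ξ)

instance DF.rs (p α : (ι → M) → M) [DF p] [DF α] : DF (fun v => rs (p v) (α v)) := by
  unfold BSM.rs
  infer_instance

theorem mem_rs {z : M} : z ∈ rs p α ↔ z ∈ p ∧ ∃ β n ξ, β ∈ α ∧ z = opair (opair β n) ξ := by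
  unfold BSM.rs
  rw [mem_sep]

theorem rs_sub : rs p α ⊆ p := fun _ hz => (mem_rs.1 hz).1

theorem rs_lev (hκ : Ord κ) (h : α ∈ κ) (hp : p ∈ Lev κ) : rs p α ∈ Lev α := by
  have hα : Ord α := hκ.mem h
  have hp' := hp
  rw [mem_lev] at hp' ⊢
  refine ⟨fun z hz => ?_, fin_sub hp'.2.1 rs_sub,
    fun a ξ η h1 h2 => hp'.2.2.1 a ξ η (rs_sub _ h1) (rs_sub _ h2),
    fun β n ξ h1 => hp'.2.2.2 β n ξ (rs_sub _ h1)⟩
  rw [mem_rs] at hz
  obtain ⟨hz, β, n, ξ, hβ, rfl⟩ := hz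
  obtain ⟨β', n', ξ', -, hn', -, hξ', e⟩ := lev_elem hp hz
  obtain ⟨e1, rfl⟩ := opair_inj e
  obtain ⟨rfl, rfl⟩ := opair_inj e1
  rw [opair_mem_prod, opair_mem_prod]
  exact ⟨⟨hβ, hn'⟩, hα.trans hξ' hβ⟩

theorem sub_rs (hr : r ∈ Lev α) (h : r ⊆ p) : r ⊆ rs p α := by
  intro z hz
  obtain ⟨β, n, ξ, h1, -, -, -, rfl⟩ := lev_elem hr hz
  rw [mem_rs]
  exact ⟨h _ hz, β, n, ξ, h1, rfl⟩

/-- amalgamation -/
theorem lev_un (h : α ⊆ κ) (hq : q ∈ Lev κ) (hr : r ∈ Lev α) (hqr : rs q α ⊆ r) :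
    un q r ∈ Lev κ := by
  have hrκ : r ∈ Lev κ := lev_mono h r hr
  have hq' := mem_lev.1 hq
  have hr' := mem_lev.1 hr
  have hrκ' := mem_lev.1 hrκ
  have key : ∀ a ξ η, opair a ξ ∈ q → opair a η ∈ r → ξ = η := by
    intro a ξ η h1 h2
    obtain ⟨β, n, ξ', h3, -, -, -, e⟩ := lev_elem hr h2
    obtain ⟨rfl, -⟩ := opair_inj e
    have h4 : opair (opair β n) ξ ∈ rs q α := by
      rw [mem_rs]
      exact ⟨h1, β, n, ξ, h3, rfl⟩
    exact hr'.2.2.1 _ ξ η (hqr _ h4) h2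
  rw [mem_lev]
  refine ⟨fun z hz => ?_, fin_un hq'.2.1 hr'.2.1, fun a ξ η h1 h2 => ?_, fun β n ξ h1 => ?_⟩
  · rw [mem_un] at hz
    rcases hz with hz | hz
    · exact hq'.1 z hz
    · exact hrκ'.1 z hz
  · rw [mem_un] at h1 h2
    rcases h1 with h1 | h1 <;> rcases h2 with h2 | h2
    · exact hq'.2.2.1 a ξ η h1 h2
    · exact key a ξ η h1 h2
    · exact (key a η ξ h2 h1).symm
    · exact hr'.2.2.1 a ξ η h1 h2
  · rw [mem_un] at h1
    rcases h1 with h1 | h1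
    · exact hq'.2.2.2 β n ξ h1
    · exact hr'.2.2.2 β n ξ h1

theorem lev_lim (hα : Ord α) (hl : ∀ β, β ∈ α → succ β ∈ α) (h0 : α ≠ emp) (hp : p ∈ Lev α) :
    ∃ β, β ∈ α ∧ p ∈ Lev β := by
  have main : ∀ x, FinM x → x ⊆ p → ∃ β, β ∈ α ∧ ∀ γ n ξ, opair (opair γ n) ξ ∈ x → γ ∈ β := by
    apply fin_induction (fun x => x ⊆ p → ∃ β, β ∈ α ∧ ∀ γ n ξ, opair (opair γ n) ξ ∈ x → γ ∈ β)
    · intro _
      obtain ⟨β, hβ⟩ := ne_emp_iff.1 h0
      exact ⟨β, hβ, fun _ _ _ h => absurd h (not_mem_emp _)⟩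
    · intro x a _ _ ih hx
      obtain ⟨β, hβ, h1⟩ := ih (fun z hz => hx z (by rw [mem_ins]; exact Or.inl hz))
      obtain ⟨γ, n, ξ, h2, -, -, -, rfl⟩ := lev_elem hp (hx a (by rw [mem_ins]; exact Or.inr rfl))
      refine ⟨un β (succ γ), ?_, fun γ' n' ξ' h3 => ?_⟩
      · rcases ord_un_cases (hα.mem hβ) (hα.mem (hl γ h2)) with ⟨e, -⟩ | ⟨e, -⟩
        · rw [e]; exact hβ
        · rw [e]; exact hl γ h2
      · rw [mem_ins] at h3
        rw [mem_un]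
        rcases h3 with h3 | h3
        · exact Or.inl (h1 γ' n' ξ' h3)
        · right
          obtain ⟨e, -⟩ := opair_inj h3
          obtain ⟨rfl, -⟩ := opair_inj e
          rw [mem_succ]
          exact Or.inr rfl
  have hp' := mem_lev.1 hp
  obtain ⟨β, hβ, h1⟩ := main p hp'.2.1 (sub_refl p)
  refine ⟨β, hβ, ?_⟩
  rw [mem_lev]
  refine ⟨fun z hz => ?_, hp'.2⟩
  obtain ⟨γ, n, ξ, -, h2, -, h3, rfl⟩ := lev_elem hp hz
  rw [opair_mem_prod, opair_mem_prod]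
  exact ⟨⟨h1 γ n ξ hz, h2⟩, (hα.mem hβ).trans h3 (h1 γ n ξ hz)⟩

theorem lev_ins (hκ : Ord κ) (hp : p ∈ Lev κ) (hα : α ∈ κ) {n ξ : M} (hn : n ∈ (omega : M))
    (hξ : ξ ∈ α) (h : ∀ η, opair (opair α n) η ∉ p) : ins p (opair (opair α n) ξ) ∈ Lev κ := by
  have hp' := mem_lev.1 hp
  rw [mem_lev]
  refine ⟨fun z hz => ?_, fin_ins hp'.2.1 _, fun a ξ' η h1 h2 => ?_, fun β m ξ' h1 => ?_⟩
  · rw [mem_ins] at hz
    rcases hz with hz | rfl
    · exact hp'.1 z hz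
    · rw [opair_mem_prod, opair_mem_prod]
      exact ⟨⟨hα, hn⟩, hκ.trans hξ hα⟩
  · rw [mem_ins] at h1 h2
    rcases h1 with h1 | h1 <;> rcases h2 with h2 | h2
    · exact hp'.2.2.1 a ξ' η h1 h2
    · obtain ⟨rfl, -⟩ := opair_inj h2
      exact absurd h1 (h ξ')
    · obtain ⟨rfl, -⟩ := opair_inj h1
      exact absurd h2 (h η)
    · rw [(opair_inj h1).2, (opair_inj h2).2]
  · rw [mem_ins] at h1
    rcases h1 with h1 | h1
    · exact hp'.2.2.2 β m ξ' h1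
    · obtain ⟨e, rfl⟩ := opair_inj h1
      obtain ⟨rfl, -⟩ := opair_inj e
      exact hξ

theorem sub_ins {a : M} : p ⊆ ins p a := fun z hz => by rw [mem_ins]; exact Or.inl hz

theorem lev_dom (hκ : Ord κ) (hp : p ∈ Lev κ) (hα : α ∈ κ) (h0 : α ≠ emp) {n : M}
    (hn : n ∈ (omega : M)) : ∃ q, q ∈ Lev κ ∧ p ⊆ q ∧ ∃ ξ, opair (opair α n) ξ ∈ q := by
  by_cases h : ∃ ξ, opair (opair α n) ξ ∈ p
  · exact ⟨p, hp, sub_refl p, h⟩
  · push Not at h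
    have he : emp ∈ α := by
      rcases ord_trichotomy ord_emp (hκ.mem hα) with h1 | h1 | h1
      · exact h1
      · exact absurd h1.symm h0
      · exact absurd h1 (not_mem_emp _)
    exact ⟨ins p (opair (opair α n) emp), lev_ins hκ hp hα hn he h, sub_ins, emp, by
      rw [mem_ins]; exact Or.inr rfl⟩

theorem lev_val (hκ : Ord κ) (hp : p ∈ Lev κ) (hα : α ∈ κ) {ξ : M} (hξ : ξ ∈ α) :
    ∃ q, q ∈ Lev κ ∧ p ⊆ q ∧ ∃ n, n ∈ (omega : M) ∧ opair (opair α n) ξ ∈ q := by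
  obtain ⟨b, hb, h1⟩ := fin_bounded (fun y k => ∃ η, y = opair (opair α k) η) (mem_lev.1 hp).2.1
    (fun y hy => by
      obtain ⟨β, m, η, -, hm, -, -, rfl⟩ := lev_elem hp hy
      refine ⟨succ m, succ_mem_omega hm, fun k _ hk => ?_⟩
      obtain ⟨η', e⟩ := hk
      rw [(opair_inj (opair_inj e).1).2, mem_succ]
      exact Or.inr rfl)
  have h2 : ∀ η, opair (opair α b) η ∉ p := fun η hη =>
    not_mem_self b (h1 _ hη b hb ⟨η, rfl⟩)
  exact ⟨ins p (opair (opair α b) ξ), lev_ins hκ hp hα hb hξ h2, sub_ins, b, hb, by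
    rw [mem_ins]; exact Or.inr rfl⟩

theorem small_lev (hκ : Inacc κ) (h : α ∈ κ) : Small κ (Lev α) := by
  refine small_sub (small_pow hκ (small_prod hκ (small_prod hκ (small_mem h) (small_mem hκ.2.1))
    (small_mem h))) (fun p hp => ?_)
  rw [mem_pow]
  exact (mem_lev.1 hp).1

end Pool.Agent.ZFIter.NPA.BSM
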