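import Pool.Agent.BSM.DefsG
import Pool.Agent.NPA.BAC

/-!
# BSM/VSm: small sets below an inaccessible cardinal, closure points

`Small κ X`: `X` injects into some `δ < κ`.
* `small_prod`: with injections into `δ, δ'` and `μ = un δ δ' ∈ κ` (`ord_un_cases`): `X × Y` injects into
  `prod μ μ ⊆ pow (pow μ)` (a pair of elements of `μ` is a set of subsets of `μ`), use `small_pow`.
* `small_pow`: `pow X` injects into `pow δ` by images, then the last clause of `Inacc`.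
* `small_bdd`: from the injection `f : X → δ` define `h : δ → κ`, `h(ξ) = F x` for the `x ∈ X` with
  `ap f x = ξ` (and `emp` otherwise), `mkf`, and use regularity (third clause of `Inacc`).
* `not_small_self`: otherwise there is a function from some `δ < κ` onto `κ`.
* `closure_pt`: let `Ψ(α)` be an element of `κ` with `α < Ψ(α)` and `Φ(β) < Ψ(α)` for all `β ≤ α`
  (`small_bdd` for `X = succ α`; for instance `Ψ(α) = leastO (...)`), `a(0) = succ α0`,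
  `a(n+1) = Ψ(a(n))` (`recc`), `α = sUn (img omega a)`, which is in `κ` by `small_bdd` for `X = omega`
  (an ordinal included in some `η ∈ κ` is in `κ`).
-/

universe u

namespace Pool.Agent.ZFIter.NPA.BSM

open Pool.Agent.H78.ZF Pool.Agent.ZFIter Pool.Agent.ZFIter.NPA

variable {M : Type u} [ZFM M] {ι : Type}

/-- `X` injects into some element of `κ`. -/
def Small (κ X : M) : Prop := ∃ δ f, δ ∈ κ ∧ Inj f X δ

instance DR.Small (κ X : (ι → M) → M) [DF κ] [DF X] : DR (fun v => Small (κ v) (X v)) := by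
  unfold BSM.Small
  infer_instance

variable {κ X Y : M}

private theorem mkf_inj' {a b : M} {F : M → M} [F1 F] (h : ∀ x, x ∈ a → F x ∈ b)
    (hi : ∀ x y, x ∈ a → y ∈ a → F x = F y → x = y) : Inj (mkf a b F) a b := by
  rw [inj_iff]
  refine ⟨mkf_fun h, fun x y hx hy e => ?_⟩
  rw [ap_mkf h hx, ap_mkf h hy] at e
  exact hi x y hx hy e

private theorem small_of {F : M → M} [F1 F] (h : Small κ Y) (hF : ∀ x, x ∈ X → F x ∈ Y)
    (hi : ∀ x y, x ∈ X → y ∈ X → F x = F y → x = y) : Small κ X := by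
  obtain ⟨δ, f, hδ, hf⟩ := h
  refine ⟨δ, mkf X δ (fun x => ap f (F x)), hδ, mkf_inj' ?_ ?_⟩
  · intro x hx
    exact hf.fun.ap_mem (hF x hx)
  · intro x y hx hy e
    exact hi x y hx hy (hf.ap_inj (hF x hx) (hF y hy) e)

private theorem emp_mem_inacc (hκ : Inacc κ) : (emp : M) ∈ κ :=
  hκ.1.trans emp_mem_omega hκ.2.1

theorem inacc_succ (hκ : Inacc κ) {α : M} (h : α ∈ κ) : succ α ∈ κ := by
  rcases ord_trichotomy (hκ.1.mem h).succ hκ.1 with h1 | h1 | h1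
  · exact h1
  · exfalso
    have h0 : succ (emp : M) ∈ κ := hκ.1.trans (succ_mem_omega emp_mem_omega) hκ.2.1
    obtain ⟨η, hη, hb⟩ := hκ.2.2.1 (succ emp) (mkf (succ emp) κ (fun _ => α)) h0
      (mkf_fun (fun _ _ => h))
    have h2 := hb emp (by simp)
    rw [ap_mkf (fun _ _ => h) (by simp)] at h2
    rw [← h1, mem_succ] at hη
    rcases hη with h3 | h3
    · exact (hκ.1.mem h).asymm h3 h2
    · rw [h3] at h2
      exact not_mem_self _ h2
  · exfalso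
    rw [mem_succ] at h1
    rcases h1 with h1 | h1
    · exact hκ.1.asymm h h1
    · rw [h1] at h
      exact not_mem_self _ h

theorem inacc_un (hκ : Inacc κ) {α β : M} (h : α ∈ κ) (h' : β ∈ κ) : un α β ∈ κ := by
  rcases ord_un_cases (hκ.1.mem h) (hκ.1.mem h') with ⟨e, -⟩ | ⟨e, -⟩
  · rw [e]; exact h
  · rw [e]; exact h'

theorem small_mem {δ : M} (h : δ ∈ κ) : Small κ δ :=
  ⟨δ, mkf δ δ (fun x => x), h, mkf_inj' (fun _ hx => hx) (fun _ _ _ _ e => e)⟩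

theorem small_sub (h : Small κ Y) (hXY : X ⊆ Y) : Small κ X :=
  small_of (F := fun x => x) h (fun x hx => hXY x hx) (fun _ _ _ _ e => e)

theorem small_pow (hκ : Inacc κ) (h : Small κ X) : Small κ (pow X) := by
  obtain ⟨δ, f, hδ, hf⟩ := h
  obtain ⟨δ', g, hδ', hg⟩ := hκ.2.2.2 δ hδ
  refine small_of (Y := pow δ) (F := fun A => img A (fun x => ap f x)) ⟨δ', g, hδ', hg⟩ ?_ ?_
  · intro A hA
    rw [mem_pow] at hA ⊢
    intro y hy
    rw [mem_img] at hy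
    obtain ⟨x, hx, rfl⟩ := hy
    exact hf.fun.ap_mem (hA x hx)
  · have key : ∀ A B, A ∈ pow X → B ∈ pow X →
        img A (fun x => ap f x) = img B (fun x => ap f x) → A ⊆ B := by
      intro A B hA hB e x hx
      rw [mem_pow] at hA hB
      have h1 : ap f x ∈ img B (fun x => ap f x) := by
        rw [← e, mem_img]
        exact ⟨x, hx, rfl⟩
      rw [mem_img] at h1
      obtain ⟨y, hy, h2⟩ := h1
      rw [hf.ap_inj (hA x hx) (hB y hy) h2]
      exact hy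
    intro A B hA hB e
    exact sub_antisymm (key A B hA hB e) (key B A hB hA e.symm)

theorem small_prod (hκ : Inacc κ) (h : Small κ X) (h' : Small κ Y) : Small κ (prod X Y) := by
  obtain ⟨δ, f, hδ, hf⟩ := h
  obtain ⟨δ', f', hδ', hf'⟩ := h'
  have hμ : Small κ (pow (pow (un δ δ'))) :=
    small_pow hκ (small_pow hκ (small_mem (inacc_un hκ hδ hδ')))
  have hval : ∀ x y, x ∈ X → y ∈ Y →
      iota (fun w => ∃ a b, opair x y = opair a b ∧ w = opair (ap f a) (ap f' b)) =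
        opair (ap f x) (ap f' y) := by
    intro x y hx hy
    apply iota_eq
    · exact ⟨x, y, rfl, rfl⟩
    · rintro w ⟨a, b, e, rfl⟩
      obtain ⟨rfl, rfl⟩ := opair_inj e
      rfl
  refine small_of (F := fun p => iota (fun w => ∃ a b, p = opair a b ∧ w = opair (ap f a) (ap f' b)))
    hμ ?_ ?_
  · intro p hp
    rw [mem_prod] at hp
    obtain ⟨x, hx, y, hy, rfl⟩ := hp
    simp only [hval x y hx hy]
    have h1 : ap f x ∈ un δ δ' := by rw [mem_un]; exact Or.inl (hf.fun.ap_mem hx)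
    have h2 : ap f' y ∈ un δ δ' := by rw [mem_un]; exact Or.inr (hf'.fun.ap_mem hy)
    rw [mem_pow]
    intro z hz
    rw [mem_pow]
    intro w hw
    simp only [opair, mem_upair] at hz
    rcases hz with rfl | rfl
    · rw [mem_sing] at hw; subst hw; exact h1
    · rw [mem_upair] at hw
      rcases hw with rfl | rfl
      · exact h1
      · exact h2
  · intro p q hp hq e
    rw [mem_prod] at hp hq
    obtain ⟨x, hx, y, hy, rfl⟩ := hp
    obtain ⟨x', hx', y', hy', rfl⟩ := hq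
    simp only [hval x y hx hy, hval x' y' hx' hy'] at e
    obtain ⟨e1, e2⟩ := opair_inj e
    rw [hf.ap_inj hx hx' e1, hf'.ap_inj hy hy' e2]

theorem small_bdd (hκ : Inacc κ) (h : Small κ X) (F : M → M) [F1 F] (hF : ∀ x, x ∈ X → F x ∈ κ) :
    ∃ η, η ∈ κ ∧ ∀ x, x ∈ X → F x ∈ η := by
  obtain ⟨δ, f, hδ, hf⟩ := h
  have hval : ∀ x, x ∈ X → iota (fun y => ∃ a, a ∈ X ∧ ap f a = ap f x ∧ y = F a) = F x := by
    intro x hx
    apply iota_eq
    · exact ⟨x, hx, rfl, rfl⟩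
    · rintro w ⟨a, ha, e, rfl⟩
      rw [hf.ap_inj ha hx e]
  have hmem : ∀ ξ, ξ ∈ δ → iota (fun y => ∃ a, a ∈ X ∧ ap f a = ξ ∧ y = F a) ∈ κ := by
    intro ξ hξ
    by_cases hc : ∃ x, x ∈ X ∧ ap f x = ξ
    · obtain ⟨x, hx, rfl⟩ := hc
      rw [hval x hx]
      exact hF x hx
    · rw [iota_neg]
      · exact emp_mem_inacc hκ
      · rintro ⟨y, ⟨a, ha, e, -⟩, -⟩
        exact hc ⟨a, ha, e⟩
  obtain ⟨η, hη, hb⟩ := hκ.2.2.1 δ
    (mkf δ κ (fun ξ => iota (fun y => ∃ a, a ∈ X ∧ ap f a = ξ ∧ y = F a))) hδ (mkf_fun hmem)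
  refine ⟨η, hη, fun x hx => ?_⟩
  have h1 := hb (ap f x) (hf.fun.ap_mem hx)
  rw [ap_mkf hmem (hf.fun.ap_mem hx), hval x hx] at h1
  exact h1

theorem not_small_self (hκ : Inacc κ) : ¬ Small κ κ := by
  intro h
  obtain ⟨η, hη, hb⟩ := small_bdd hκ h (fun x => x) (fun x hx => hx)
  exact not_mem_self _ (hb η hη)

theorem closure_pt (hκ : Inacc κ) (Φ : M → M) [F1 Φ] (hΦ : ∀ α, α ∈ κ → Φ α ∈ κ) {α0 : M}
    (h0 : α0 ∈ κ) : ∃ α, α ∈ κ ∧ α0 ∈ α ∧ (∀ β, β ∈ α → succ β ∈ α) ∧ ∀ β, β ∈ α → Φ β ∈ α := by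
  have hΨ : ∀ α, α ∈ κ → ∃ η, Ord η ∧ (η ∈ κ ∧ α ∈ η ∧ ∀ β, β ∈ succ α → Φ β ∈ η) := by
    intro α hα
    obtain ⟨η, hη, hb⟩ := small_bdd hκ (small_mem (inacc_succ hκ hα)) Φ
      (fun β hβ => hΦ β (hκ.1.trans hβ (inacc_succ hκ hα)))
    have h1 := inacc_un hκ (inacc_succ hκ hα) hη
    refine ⟨un (succ α) η, hκ.1.mem h1, h1, ?_, fun β hβ => ?_⟩
    · rw [mem_un]; left; simp
    · rw [mem_un]; right; exact hb β hβ
  have hspec : ∀ α, α ∈ κ →
      leastO (fun η => η ∈ κ ∧ α ∈ η ∧ ∀ β, β ∈ succ α → Φ β ∈ η) ∈ κ ∧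
      α ∈ leastO (fun η => η ∈ κ ∧ α ∈ η ∧ ∀ β, β ∈ succ α → Φ β ∈ η) ∧
      ∀ β, β ∈ succ α → Φ β ∈ leastO (fun η => η ∈ κ ∧ α ∈ η ∧ ∀ β, β ∈ succ α → Φ β ∈ η) :=
    fun α hα => (leastO_spec (fun η => η ∈ κ ∧ α ∈ η ∧ ∀ β, β ∈ succ α → Φ β ∈ η) (hΨ α hα)).2.1
  obtain ⟨Ψ, hΨ1, hΨd⟩ : ∃ Ψ : M → M, F1 Ψ ∧ ∀ α, α ∈ κ → Ψ α ∈ κ ∧ α ∈ Ψ α ∧
      ∀ β, β ∈ succ α → Φ β ∈ Ψ α :=
    ⟨fun α => leastO (fun η => η ∈ κ ∧ α ∈ η ∧ ∀ β, β ∈ succ α → Φ β ∈ η), inferInstance, hspec⟩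
  clear hspec hΨ
  have ha : ∀ n, n ∈ (omega : M) → recc Ψ (succ α0) n ∈ κ := by
    apply omega_induction (fun n => recc Ψ (succ α0) n ∈ κ)
    · rw [recc_zero]
      exact inacc_succ hκ h0
    · intro n hn ih
      rw [recc_succ hn]
      exact (hΨd _ ih).1
  obtain ⟨η, hη, hb⟩ := small_bdd hκ (small_mem hκ.2.1) (fun n => recc Ψ (succ α0) n) ha
  have hηo : Ord η := hκ.1.mem hη
  have hord : Ord (sUn (img omega (fun n => recc Ψ (succ α0) n))) := by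
    apply ord_sUn
    intro y hy
    rw [mem_img] at hy
    obtain ⟨n, hn, rfl⟩ := hy
    exact hκ.1.mem (ha n hn)
  have hmem : ∀ z, z ∈ sUn (img omega (fun n => recc Ψ (succ α0) n)) ↔
      ∃ n, n ∈ (omega : M) ∧ z ∈ recc Ψ (succ α0) n := by
    intro z
    rw [mem_sUn]
    constructor
    · rintro ⟨y, hy, hz⟩
      rw [mem_img] at hy
      obtain ⟨n, hn, rfl⟩ := hy
      exact ⟨n, hn, hz⟩
    · rintro ⟨n, hn, hz⟩
      exact ⟨_, by rw [mem_img]; exact ⟨n, hn, rfl⟩, hz⟩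
  refine ⟨sUn (img omega (fun n => recc Ψ (succ α0) n)), ?_, ?_, ?_, ?_⟩
  · have h1 : sUn (img omega (fun n => recc Ψ (succ α0) n)) ⊆ η := by
      intro z hz
      rw [hmem] at hz
      obtain ⟨n, hn, hz⟩ := hz
      exact hηo.trans hz (hb n hn)
    rcases (ord_sub_iff hord hηo).1 h1 with h2 | h2
    · exact hκ.1.trans h2 hη
    · rw [h2]; exact hη
  · rw [hmem]
    exact ⟨emp, emp_mem_omega, by rw [recc_zero]; simp⟩
  · intro β hβ
    rw [hmem] at hβ ⊢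
    obtain ⟨n, hn, hβ⟩ := hβ
    refine ⟨succ n, succ_mem_omega hn, ?_⟩
    rw [recc_succ hn]
    obtain ⟨h1, h2, -⟩ := hΨd _ (ha n hn)
    have h3 : Ord (recc Ψ (succ α0) n) := hκ.1.mem (ha n hn)
    have h4 : Ord (Ψ (recc Ψ (succ α0) n)) := hκ.1.mem h1
    rcases ord_trichotomy (h3.mem hβ).succ h3 with h5 | h5 | h5
    · exact h4.trans h5 h2
    · rw [h5]; exact h2
    · exfalso
      rw [mem_succ] at h5
      rcases h5 with h5 | h5
      · exact h3.asymm hβ h5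
      · rw [h5] at hβ
        exact not_mem_self _ hβ
  · intro β hβ
    rw [hmem] at hβ ⊢
    obtain ⟨n, hn, hβ⟩ := hβ
    refine ⟨succ n, succ_mem_omega hn, ?_⟩
    rw [recc_succ hn]
    exact (hΨd _ (ha n hn)).2.2 β (by rw [mem_succ]; exact Or.inl hβ)

end Pool.Agent.ZFIter.NPA.BSM
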