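import Pool.Agent.BSM.VCh
import Pool.Agent.BSM.VLad

/-!
# BSM/VTow: the Levy extension for the least inaccessible cardinal of `L` satisfies `TowerHyp`

`S = opair nx s` from `exists_s`; then `ord` (`em_Ord`), `om` (`em_omega`, `em_mem`), `ctb`
(`em_elim`, `col_ctb`), `reg` (`col_reg`), `ch` (`col_ch`), `lad` (`em_opair`, `em_ap`, `em_Fun`,
`em_succ`, `em_emp`, `em_elim`), `inK` (`inner_of_vl` with `F.vl`).
-/


universe u

namespace Pool.Agent.ZFIter.NPA.BSM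

open Pool.Agent.H78.ZF Pool.Agent.ZFIter Pool.Agent.ZFIter.NPA

variable {M : Type u} [ZFM M] {F : Fo M} {κ : M}

theorem tower_hyp (hκ : Inacc κ) (hmin : ∀ μ, μ ∈ κ → ¬ Inacc μ) (hP : F.P = Lev κ)
    (hR : F.R = LevR κ) : ∃ S, TowerHyp (can F κ) (can F S) := by
  obtain ⟨nx, s, hnx, hs⟩ := exists_s F.vl hκ hmin
  refine ⟨opair nx s, ?_, ?_, ?_, ?_, ?_, ?_, ?_⟩
  · exact em_Ord.2 hκ.1
  · rw [← em_omega (i := can F)]
    exact em_mem.2 hκ.2.1
  · intro α hα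
    obtain ⟨α, hα', rfl⟩ := em_elim.1 hα
    exact col_ctb hκ hP hR hα'
  · intro f hf
    exact col_reg hκ hP hR hf
  · exact col_ch hκ hP hR
  · refine ⟨can F nx, can F s, em_opair _ _, fun γ hγ => ?_, fun β hβ h0 hl => ?_⟩
    · obtain ⟨γ, hγ', rfl⟩ := em_elim.1 hγ
      rw [← em_ap]
      exact ⟨em_mem.2 (hnx γ hγ').1, em_mem.2 (hnx γ hγ').2⟩
    · obtain ⟨β, hβ', rfl⟩ := em_elim.1 hβ
      obtain ⟨γ, h, h1, h2, h3, h4⟩ := hs β hβ' (fun e => h0 (by rw [e]; exact em_emp)) (by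
        intro γ hγ
        have := hl (can F γ) (em_mem.2 hγ)
        rw [← em_succ] at this
        exact em_mem.1 this)
      refine ⟨can F γ, can F h, ?_, em_mem.2 h2, ?_, fun δ hδ => ?_⟩
      · rw [← em_ap, h1, em_opair (i := can F)]
      · rw [← em_ap]
        exact em_Fun.2 h3
      · obtain ⟨δ, hδ', rfl⟩ := em_elim.1 hδ
        obtain ⟨ξ, hξ, h5⟩ := h4 δ hδ'
        refine ⟨can F ξ, ?_, ?_⟩
        · rw [← em_ap]
          exact em_mem.2 hξ
        · rw [← em_ap]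
          exact em_mem.2 h5
  · intro K _ _
    exact inner_of_vl F.vl K _

end Pool.Agent.ZFIter.NPA.BSM
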