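import Pool.Agent.BSM.DefsG
import Pool.Agent.H78.ZF.Bridge

/-!
# BSM/WDef: notions definable by one formula in all structures; elementary subsets

`UD P`: the family `P` of relations, one for each structure `(S, E)` and all of them with the same free
variables, is given by ONE first-order formula without parameters. `Elem E S`: the set `S ⊆ M` is an
elementary submodel of `(M, E)`.
-/

universe u v w

namespace Pool.Agent.ZFIter.NPA.BSM

open FirstOrder Pool.Agent.H78.ZF Pool.Agent.ZFIter Pool.Agent.ZFIter.NPA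

/-- The relations `P S E` are given by one formula without parameters. -/
class UD {ι : Type w} (P : ∀ (S : Type u), (S → S → Prop) → (ι → S) → Prop) : Prop where
  out : ∃ φ : LSet.Formula ι, ∀ (S : Type u) (E : S → S → Prop) (v : ι → S),
    (@Language.Formula.Realize LSet S (structOf E) ι φ v ↔ P S E v)

section closure

variable {ι : Type w}

instance UD.mem (i j : ι) : UD.{u, w} (fun _ E v => E (v i) (v j)) := by
  let r : LSet.Relations 2 := MemSymb.mem
  refine ⟨⟨r.formula₂ (Language.Term.var i) (Language.Term.var j), fun S E v => ?_⟩⟩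
  let _ := structOf E
  exact Language.Formula.realize_rel₂

instance UD.eq (i j : ι) : UD.{u, w} (fun _ _ v => v i = v j) := by
  refine ⟨⟨Language.Term.equal (L := LSet) (Language.Term.var i) (Language.Term.var j),
    fun S E v => ?_⟩⟩
  let _ := structOf E
  rw [Language.Formula.realize_equal]
  rfl

instance UD.not (P : ∀ (S : Type u), (S → S → Prop) → (ι → S) → Prop) [h : UD P] :
    UD (fun S E v => ¬ P S E v) := by
  obtain ⟨φ, hφ⟩ := h.out
  refine ⟨⟨φ.not, fun S E v => ?_⟩⟩
  let _ := structOf E
  rw [Language.Formula.realize_not, hφ S E v]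

instance UD.and (P Q : ∀ (S : Type u), (S → S → Prop) → (ι → S) → Prop) [h : UD P] [h' : UD Q] :
    UD (fun S E v => P S E v ∧ Q S E v) := by
  obtain ⟨φ, hφ⟩ := h.out
  obtain ⟨ψ, hψ⟩ := h'.out
  refine ⟨⟨φ ⊓ ψ, fun S E v => ?_⟩⟩
  let _ := structOf E
  rw [Language.Formula.realize_inf, hφ S E v, hψ S E v]

instance UD.or (P Q : ∀ (S : Type u), (S → S → Prop) → (ι → S) → Prop) [h : UD P] [h' : UD Q] :
    UD (fun S E v => P S E v ∨ Q S E v) := by
  obtain ⟨φ, hφ⟩ := h.out
  obtain ⟨ψ, hψ⟩ := h'.out
  refine ⟨⟨φ ⊔ ψ, fun S E v => ?_⟩⟩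
  let _ := structOf E
  rw [Language.Formula.realize_sup, hφ S E v, hψ S E v]

instance UD.imp (P Q : ∀ (S : Type u), (S → S → Prop) → (ι → S) → Prop) [h : UD P] [h' : UD Q] :
    UD (fun S E v => P S E v → Q S E v) := by
  obtain ⟨φ, hφ⟩ := h.out
  obtain ⟨ψ, hψ⟩ := h'.out
  refine ⟨⟨φ.imp ψ, fun S E v => ?_⟩⟩
  let _ := structOf E
  rw [Language.Formula.realize_imp, hφ S E v, hψ S E v]

instance UD.iff (P Q : ∀ (S : Type u), (S → S → Prop) → (ι → S) → Prop) [h : UD P] [h' : UD Q] :
    UD (fun S E v => (P S E v ↔ Q S E v)) := by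
  obtain ⟨φ, hφ⟩ := h.out
  obtain ⟨ψ, hψ⟩ := h'.out
  refine ⟨⟨φ.iff ψ, fun S E v => ?_⟩⟩
  let _ := structOf E
  rw [Language.Formula.realize_iff, hφ S E v, hψ S E v]

/-- Quantifiers: the bound variable becomes the free variable `none`. -/
instance UD.ex (P : ∀ (S : Type u), (S → S → Prop) → S → (ι → S) → Prop)
    [h : UD (ι := Option ι) (fun S E v => P S E (v none) (fun i => v (some i)))] :
    UD (fun S E v => ∃ x, P S E x v) := by
  obtain ⟨φ, hφ⟩ := h.out
  refine ⟨⟨Language.BoundedFormula.ex (n := 0) (Language.BoundedFormula.relabel (n := 1) (k := 0)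
    (fun o : Option ι => (match o with | none => Sum.inr 0 | some i => Sum.inl i : ι ⊕ Fin 1)) φ),
    fun S E v => ?_⟩⟩
  let _ := structOf E
  unfold Language.Formula.Realize
  rw [Language.BoundedFormula.realize_ex]
  refine exists_congr fun x => ?_
  have h1 := hφ S E (fun o => (match o with | none => x | some i => v i : S))
  simp only at h1
  rw [← h1]
  unfold Language.Formula.Realize
  rw [Language.BoundedFormula.realize_relabel]
  have e1 : (Sum.elim v ((Fin.snoc default x : Fin (0 + 1) → S) ∘ Fin.castAdd 0) ∘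
      fun o : Option ι => (match o with | none => Sum.inr 0 | some i => Sum.inl i : ι ⊕ Fin 1)) =
      fun o => (match o with | none => x | some i => v i : S) := by
    funext o
    cases o with
    | none => rfl
    | some i => rfl
  rw [e1]
  have e2 : ((Fin.snoc default x : Fin (0 + 1) → S) ∘ Fin.natAdd 1 : Fin 0 → S) = default := by
    funext i
    exact i.elim0
  rw [e2]

instance UD.all (P : ∀ (S : Type u), (S → S → Prop) → S → (ι → S) → Prop)
    [h : UD (ι := Option ι) (fun S E v => P S E (v none) (fun i => v (some i)))] :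
    UD (fun S E v => ∀ x, P S E x v) := by
  have h1 : UD (fun S E (v : ι → S) => ¬ ∃ x, ¬ P S E x v) := by
    have := UD.ex (fun S E x (v : ι → S) => ¬ P S E x v)
    infer_instance
  simpa using h1

/-- A fixed formula. -/
theorem UD.form {κ : Type v} (φ : LSet.Formula κ) (f : κ → ι) :
    UD.{u, w} (fun S E (v : ι → S) =>
      @Language.Formula.Realize LSet S (structOf E) κ φ (fun k => v (f k))) := by
  refine ⟨⟨φ.relabel f, fun S E v => ?_⟩⟩
  let _ := structOf E
  rw [Language.Formula.realize_relabel]
  rfl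

end closure

end Pool.Agent.ZFIter.NPA.BSM
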