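import Pool.Agent.BSM.WDef
import Mathlib.ModelTheory.Skolem

/-!
# BSM/WEl: countable elementary submodels of a model of ZF
-/

universe u v

namespace Pool.Agent.ZFIter.NPA.BSM

open FirstOrder Pool.Agent.H78.ZF Pool.Agent.ZFIter Pool.Agent.ZFIter.NPA

/-- The membership relation of a subset. -/
def rE {M : Type u} (E : M → M → Prop) (S : Set M) : S → S → Prop := fun x y => E x.1 y.1

/-- `S` is an elementary submodel of `(M, E)`. -/
def Elem {M : Type u} (E : M → M → Prop) (S : Set M) : Prop :=
  ∃ f : @Language.ElementaryEmbedding LSet S M (structOf (rE E S)) (structOf E), ∀ x : S, f x = x.1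

theorem Elem.formula {M : Type u} {E : M → M → Prop} {S : Set M} (h : Elem E S) {ι : Type v}
    (φ : LSet.Formula ι) (v : ι → S) :
    @Language.Formula.Realize LSet S (structOf (rE E S)) ι φ v ↔
      @Language.Formula.Realize LSet M (structOf E) ι φ (fun i => (v i).1) := by
  obtain ⟨f, hf⟩ := h
  let _ := structOf (rE E S)
  let _ := structOf E
  have h1 := f.map_formula φ v
  have h2 : f ∘ v = fun i => (v i).1 := funext fun i => hf (v i)
  rw [h2] at h1
  exact h1.symm

/-- Transfer of uniformly definable relations. -/
theorem Elem.ud {M : Type u} {E : M → M → Prop} {S : Set M} (h : Elem E S) {ι : Type v}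
    (P : ∀ (S : Type u), (S → S → Prop) → (ι → S) → Prop) [hP : UD P] (v : ι → S) :
    P S (rE E S) v ↔ P M E (fun i => (v i).1) := by
  obtain ⟨φ, hφ⟩ := hP.out
  rw [← hφ S (rE E S) v, ← hφ M E, h.formula φ v]

/-- A model of ZF is infinite: otherwise some set contains all sets. -/
theorem infinite_zfm (M : Type u) [ZFM M] : Infinite M := by
  by_contra h
  rw [not_infinite_iff_finite] at h
  have h1 : ∀ s : Set M, s.Finite → ∃ b : M, ∀ x, x ∈ s → x ∈ b := by
    intro s hs
    induction s, hs using Set.Finite.induction_on with
    | empty => exact ⟨emp, fun x hx => absurd hx (Set.notMem_empty x)⟩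
    | @insert a s _ _ ih =>
      obtain ⟨b, hb⟩ := ih
      refine ⟨un b (sing a), fun x hx => ?_⟩
      rw [mem_un, mem_sing]
      rcases hx with rfl | hx
      · exact Or.inr rfl
      · exact Or.inl (hb x hx)
  obtain ⟨b, hb⟩ := h1 Set.univ Set.finite_univ
  exact not_mem_self b (hb b trivial)

theorem exists_elem {M : Type u} [ZFM M] (a : M) :
    ∃ S : Set M, S.Countable ∧ a ∈ S ∧ Elem ZFM.E S := by
  have := infinite_zfm M
  have hL : LSet.card ≤ Cardinal.aleph0 := by
    have h1 : Countable LSet.Symbols := by
      have h2 : Countable (Σ n, LSet.Functions n) := by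
        have : IsEmpty (Σ n, LSet.Functions n) := ⟨fun x => nomatch x.2⟩
        infer_instance
      have h3 : Countable (Σ n, LSet.Relations n) := by
        have : ∀ x : (Σ n, LSet.Relations n), x = ⟨2, MemSymb.mem⟩ := by
          rintro ⟨n, r⟩
          cases r
          rfl
        have : Subsingleton (Σ n, LSet.Relations n) := ⟨fun x y => (this x).trans (this y).symm⟩
        infer_instance
      unfold Language.Symbols
      infer_instance
    exact Cardinal.mk_le_aleph0
  obtain ⟨S, hS, hc⟩ := Language.exists_elementarySubstructure_card_eq LSet (M := M) {a}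
    Cardinal.aleph0.{0} le_rfl (by simp) (by simpa using hL) (by simp)
  refine ⟨(S : Set M), ?_, hS rfl, ?_⟩
  · have h1 : Cardinal.mk (S : Set M) ≤ Cardinal.aleph0 := by
      have h2 : Cardinal.lift.{0} (Cardinal.mk S) = Cardinal.lift.{u} Cardinal.aleph0.{0} := hc
      rw [Cardinal.lift_aleph0, Cardinal.lift_uzero] at h2
      exact h2.le
    exact Cardinal.le_aleph0_iff_set_countable.1 h1
  · have e : (inferInstance : LSet.Structure S) = structOf (rE ZFM.E (S : Set M)) := by
      apply Language.Structure.ext
      · funext n f
        exact nomatch f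
      · funext n r v
        cases r
        rfl
    refine ⟨@Language.ElementaryEmbedding.mk LSet S M (structOf (rE ZFM.E (S : Set M)))
      (structOf ZFM.E) Subtype.val ?_, fun x => rfl⟩
    intro n φ x
    rw [← e]
    exact S.subtype.map_formula φ x


/-- The parameters of a formula over `S`, as elements of `M`. -/
private def par {M : Type u} {S : Set M} {n : ℕ} (v : Fin n → M) :
    (Set.univ : Set S) ⊕ Fin n → M := Sum.elim (fun c => c.1.1) v

private theorem definable_par {M : Type u} {E : M → M → Prop} {S : Set M} {n : ℕ}
    (φ : LSet.Formula ((Set.univ : Set S) ⊕ Fin n)) :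
    @Set.Definable M Set.univ LSet (structOf E) (Fin n)
      {v | @Language.Formula.Realize LSet M (structOf E) _ φ (par (S := S) v)} := by
  let _ := structOf E
  refine Set.definable_iff_exists_formula_sum.2 ⟨φ.relabel
    (fun x => x.elim (fun c => Sum.inl (⟨c.1.1, trivial⟩ : (Set.univ : Set M))) Sum.inr), ?_⟩
  ext v
  simp only [Set.mem_ofPred_eq, Language.Formula.realize_relabel]
  have : par (S := S) v = Sum.elim (fun a : (Set.univ : Set M) => (a : M)) v ∘
      (fun x : (Set.univ : Set S) ⊕ Fin n =>
        x.elim (fun c => Sum.inl (⟨c.1.1, trivial⟩ : (Set.univ : Set M))) Sum.inr) := by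
    funext x
    rcases x with a | i
    · rfl
    · rfl
  rw [this]

/-- The family of the separation axiom for the formula `φ`. -/
private theorem ud_sep {κ : Type v} (φ : LSet.Formula (κ ⊕ Fin 1)) :
    UD.{u, v} (ι := Option κ) (fun S E v => ∃ b, ∀ x, E x b ↔ E x (v none) ∧
      @Language.Formula.Realize LSet S (structOf E) _ φ
        (Sum.elim (fun c => v (some c)) ![x])) := by
  have h1 : UD.{u, v} (ι := Option (Option (Option κ))) (fun S E v =>
      @Language.Formula.Realize LSet S (structOf E) _ φ
        (Sum.elim (fun c => v (some (some (some c)))) ![v none])) := by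
    obtain ⟨ψ, hψ⟩ := (UD.form.{u, v, v} (ι := Option (Option (Option κ))) φ
      (Sum.elim (fun c => some (some (some c))) ![none])).out
    refine ⟨⟨ψ, fun S E v => ?_⟩⟩
    rw [hψ]
    have : (fun k => v (Sum.elim (fun c => some (some (some c))) ![none] k)) =
        Sum.elim (fun c => v (some (some (some c)))) ![v none] := by
      funext k
      rcases k with c | i
      · rfl
      · have : i = 0 := Subsingleton.elim _ _
        subst this
        rfl
    rw [this]
  refine UD.ex (fun S E b (v : Option κ → S) => ∀ x, E x b ↔ E x (v none) ∧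
      @Language.Formula.Realize LSet S (structOf E) _ φ
        (Sum.elim (fun c => v (some c)) ![x])) (h := ?_)
  refine UD.all (fun S E x (v : Option (Option κ) → S) => E x (v none) ↔ E x (v (some none)) ∧
      @Language.Formula.Realize LSet S (structOf E) _ φ
        (Sum.elim (fun c => v (some (some c))) ![x])) (h := ?_)
  infer_instance

/-- The family of the replacement axiom for the formula `φ`. -/
private theorem ud_rep {κ : Type v} (φ : LSet.Formula (κ ⊕ Fin 2)) :
    UD.{u, v} (ι := Option κ) (fun S E v => ∃ b, ∀ y, E y b ↔ ∃ x, E x (v none) ∧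
      @Language.Formula.Realize LSet S (structOf E) _ φ
        (Sum.elim (fun c => v (some c)) ![x, y])) := by
  have h1 : UD.{u, v} (ι := Option (Option (Option (Option κ)))) (fun S E v =>
      @Language.Formula.Realize LSet S (structOf E) _ φ
        (Sum.elim (fun c => v (some (some (some (some c))))) ![v none, v (some none)])) := by
    obtain ⟨ψ, hψ⟩ := (UD.form.{u, v, v} (ι := Option (Option (Option (Option κ)))) φ
      (Sum.elim (fun c => some (some (some (some c)))) ![none, some none])).out
    refine ⟨⟨ψ, fun S E v => ?_⟩⟩
    rw [hψ]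
    have : (fun k => v (Sum.elim (fun c => some (some (some (some c)))) ![none, some none] k)) =
        Sum.elim (fun c => v (some (some (some (some c))))) ![v none, v (some none)] := by
      funext k
      rcases k with c | i
      · rfl
      · revert i
        rw [Fin.forall_fin_two]
        exact ⟨rfl, rfl⟩
    rw [this]
  refine UD.ex (fun S E b (v : Option κ → S) => ∀ y, E y b ↔ ∃ x, E x (v none) ∧
      @Language.Formula.Realize LSet S (structOf E) _ φ
        (Sum.elim (fun c => v (some c)) ![x, y])) (h := ?_)
  refine UD.all (fun S E y (v : Option (Option κ) → S) => E y (v none) ↔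
      ∃ x, E x (v (some none)) ∧
      @Language.Formula.Realize LSet S (structOf E) _ φ
        (Sum.elim (fun c => v (some (some c))) ![x, y])) (h := ?_)
  have h2 := UD.ex (fun S E x (v : Option (Option (Option κ)) → S) => E x (v (some (some none))) ∧
      @Language.Formula.Realize LSet S (structOf E) _ φ
        (Sum.elim (fun c => v (some (some (some c)))) ![x, v none])) (h := inferInstance)
  infer_instance

/-- The family of the hypothesis of replacement for the formula `φ`. -/
private theorem ud_fun {κ : Type v} (φ : LSet.Formula (κ ⊕ Fin 2)) :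
    UD.{u, v} (ι := Option κ) (fun S E v => ∀ x, E x (v none) → ∃ y,
      @Language.Formula.Realize LSet S (structOf E) _ φ
        (Sum.elim (fun c => v (some c)) ![x, y]) ∧
      ∀ z, @Language.Formula.Realize LSet S (structOf E) _ φ
        (Sum.elim (fun c => v (some c)) ![x, z]) → z = y) := by
  have h1 : UD.{u, v} (ι := Option (Option (Option κ))) (fun S E v =>
      @Language.Formula.Realize LSet S (structOf E) _ φ
        (Sum.elim (fun c => v (some (some (some c)))) ![v (some none), v none])) := by
    obtain ⟨ψ, hψ⟩ := (UD.form.{u, v, v} (ι := Option (Option (Option κ))) φ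
      (Sum.elim (fun c => some (some (some c))) ![some none, none])).out
    refine ⟨⟨ψ, fun S E v => ?_⟩⟩
    rw [hψ]
    have : (fun k => v (Sum.elim (fun c => some (some (some c))) ![some none, none] k)) =
        Sum.elim (fun c => v (some (some (some c)))) ![v (some none), v none] := by
      funext k
      rcases k with c | i
      · rfl
      · revert i
        rw [Fin.forall_fin_two]
        exact ⟨rfl, rfl⟩
    rw [this]
  have h1' : UD.{u, v} (ι := Option (Option (Option (Option κ)))) (fun S E v =>
      @Language.Formula.Realize LSet S (structOf E) _ φ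
        (Sum.elim (fun c => v (some (some (some (some c))))) ![v (some (some none)), v none])) := by
    obtain ⟨ψ, hψ⟩ := (UD.form.{u, v, v} (ι := Option (Option (Option (Option κ)))) φ
      (Sum.elim (fun c => some (some (some (some c)))) ![some (some none), none])).out
    refine ⟨⟨ψ, fun S E v => ?_⟩⟩
    rw [hψ]
    have : (fun k => v (Sum.elim (fun c => some (some (some (some c))))
          ![some (some none), none] k)) =
        Sum.elim (fun c => v (some (some (some (some c))))) ![v (some (some none)), v none] := by
      funext k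
      rcases k with c | i
      · rfl
      · revert i
        rw [Fin.forall_fin_two]
        exact ⟨rfl, rfl⟩
    rw [this]
  refine UD.all (fun S E x (v : Option κ → S) => E x (v none) → ∃ y,
      @Language.Formula.Realize LSet S (structOf E) _ φ
        (Sum.elim (fun c => v (some c)) ![x, y]) ∧
      ∀ z, @Language.Formula.Realize LSet S (structOf E) _ φ
        (Sum.elim (fun c => v (some c)) ![x, z]) → z = y) (h := ?_)
  have h2 := UD.ex (fun S E y (v : Option (Option κ) → S) =>
      @Language.Formula.Realize LSet S (structOf E) _ φ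
        (Sum.elim (fun c => v (some (some c))) ![v none, y]) ∧
      ∀ z, @Language.Formula.Realize LSet S (structOf E) _ φ
        (Sum.elim (fun c => v (some (some c))) ![v none, z]) → z = y) (h := by
    have h3 := UD.all (fun S E z (v : Option (Option (Option κ)) → S) =>
      @Language.Formula.Realize LSet S (structOf E) _ φ
        (Sum.elim (fun c => v (some (some (some c)))) ![v (some none), z]) → z = v none)
        (h := inferInstance)
    infer_instance)
  infer_instance

theorem zf_elem {M : Type u} [ZFM M] {S : Set M} (hS : Elem ZFM.E S) :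
    IsZFModel (rE ZFM.E S) where
  extensionality x y := by
    have := (hS.ud (ι := Fin 2) (fun _ E v => (∀ z, E z (v 0) ↔ E z (v 1)) → v 0 = v 1)
      ![x, y]).2 (ZFM.zf.extensionality x.1 y.1)
    exact this
  foundation x := by
    have := (hS.ud (ι := Fin 1) (fun _ E v => (∃ y, E y (v 0)) → ∃ y, E y (v 0) ∧
      ∀ z, E z y → ¬ E z (v 0)) ![x]).2 (ZFM.zf.foundation x.1)
    exact this
  pairing x y := by
    have := (hS.ud (ι := Fin 2) (fun _ E v => ∃ z, ∀ w, E w z ↔ w = v 0 ∨ w = v 1)
      ![x, y]).2 (ZFM.zf.pairing x.1 y.1)
    exact this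
  union x := by
    have := (hS.ud (ι := Fin 1) (fun _ E v => ∃ u, ∀ w, E w u ↔ ∃ y, E y (v 0) ∧ E w y)
      ![x]).2 (ZFM.zf.union x.1)
    exact this
  powerset x := by
    have := (hS.ud (ι := Fin 1) (fun _ E v => ∃ p, ∀ w, E w p ↔ ∀ z, E z w → E z (v 0))
      ![x]).2 (ZFM.zf.powerset x.1)
    exact this
  infinity := by
    have := (hS.ud (ι := Fin 0) (fun _ E _ => ∃ x, (∃ e, E e x ∧ ∀ z, ¬ E z e) ∧
      ∀ y, E y x → ∃ s, E s x ∧ ∀ z, E z s ↔ E z y ∨ z = y) ![]).2 ZFM.zf.infinity
    exact this
  separation s hs a := by
    let _ := structOf (rE ZFM.E S)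
    obtain ⟨φ, hφ⟩ := Set.definable_iff_exists_formula_sum.1 hs
    have h0 : ∀ x : S, x ∈ s ↔ @Language.Formula.Realize LSet S (structOf (rE ZFM.E S)) _ φ
        (Sum.elim (fun c : (Set.univ : Set S) => c.1) ![x]) := by
      intro x
      have h1 : (![x] : Fin 1 → S) ∈ {v : Fin 1 → S | v 0 ∈ s} ↔ φ.Realize
          (Sum.elim (fun c : (Set.univ : Set S) => c.1) ![x]) := by
        rw [hφ]
        rfl
      exact h1
    have hdef : @Set.Definable₁ M Set.univ LSet
        (structOf ZFM.E) {y | @Language.Formula.Realize LSet M (structOf ZFM.E) _ φ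
        (par (S := S) ![y])} := by
      have h2 := definable_par (E := ZFM.E) φ
      have h3 : {v | @Language.Formula.Realize LSet M (structOf ZFM.E) _ φ (par (S := S) v)} =
          {v : Fin 1 → M | v 0 ∈ {y | @Language.Formula.Realize LSet M (structOf ZFM.E) _ φ
            (par (S := S) ![y])}} := by
        ext v
        have h4 : (![v 0] : Fin 1 → M) = v := by
          funext i
          have : i = 0 := Subsingleton.elim _ _
          subst this
          rfl
        simp only [Set.mem_ofPred_eq, h4]
      rw [h3] at h2
      exact h2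
    obtain ⟨b, hb⟩ := ZFM.zf.separation (M := M) _ hdef a.1
    have hud := ud_sep.{u, u} φ
    have h5 := (hS.ud (ι := Option (Set.univ : Set S)) (fun S E v => ∃ b, ∀ x, E x b ↔
      E x (v none) ∧ @Language.Formula.Realize LSet S (structOf E) _ φ
        (Sum.elim (fun c => v (some c)) ![x]))
      (fun o => (match o with | none => a | some c => c.1 : S))).2 ⟨b, fun x => hb x⟩
    obtain ⟨b', hb'⟩ := h5
    exact ⟨b', fun x => by rw [hb' x, h0 x]⟩
  replacement F hF a h := by
    let _ := structOf (rE ZFM.E S)
    obtain ⟨φ, hφ⟩ := Set.definable_iff_exists_formula_sum.1 hF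
    have h0 : ∀ x y : S, (x, y) ∈ F ↔ @Language.Formula.Realize LSet S (structOf (rE ZFM.E S)) _ φ
        (Sum.elim (fun c : (Set.univ : Set S) => c.1) ![x, y]) := by
      intro x y
      have h1 : (![x, y] : Fin 2 → S) ∈ {v : Fin 2 → S | (v 0, v 1) ∈ F} ↔ φ.Realize
          (Sum.elim (fun c : (Set.univ : Set S) => c.1) ![x, y]) := by
        rw [hφ]
        rfl
      exact h1
    have hdef : @Set.Definable₂ M Set.univ LSet
        (structOf ZFM.E) {q | @Language.Formula.Realize LSet M (structOf ZFM.E) _ φ
        (par (S := S) ![q.1, q.2])} := by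
      have h2 := definable_par (E := ZFM.E) φ
      have h3 : {v | @Language.Formula.Realize LSet M (structOf ZFM.E) _ φ (par (S := S) v)} =
          {v : Fin 2 → M | (v 0, v 1) ∈ {q : M × M | @Language.Formula.Realize LSet M
            (structOf ZFM.E) _ φ (par (S := S) ![q.1, q.2])}} := by
        ext v
        have h4 : (![v 0, v 1] : Fin 2 → M) = v := by
          funext i
          revert i
          rw [Fin.forall_fin_two]
          exact ⟨rfl, rfl⟩
        simp only [Set.mem_ofPred_eq, h4]
      rw [h3] at h2
      exact h2
    have hfun := ud_fun.{u, u} φ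
    have h6 := (hS.ud (ι := Option (Set.univ : Set S)) (fun S E v => ∀ x, E x (v none) → ∃ y,
      @Language.Formula.Realize LSet S (structOf E) _ φ
        (Sum.elim (fun c => v (some c)) ![x, y]) ∧
      ∀ z, @Language.Formula.Realize LSet S (structOf E) _ φ
        (Sum.elim (fun c => v (some c)) ![x, z]) → z = y)
      (fun o => (match o with | none => a | some c => c.1 : S))).1 (fun x hx => by
        obtain ⟨y, h7, h8⟩ := h x hx
        exact ⟨y, (h0 x y).1 h7, fun z hz => h8 z ((h0 x z).2 hz)⟩)
    obtain ⟨b, hb⟩ := ZFM.zf.replacement (M := M) _ hdef a.1 (fun x hx => by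
      obtain ⟨y, h7, h8⟩ := h6 x hx
      exact ⟨y, h7, fun z hz => h8 z hz⟩)
    have hud := ud_rep.{u, u} φ
    have h5 := (hS.ud (ι := Option (Set.univ : Set S)) (fun S E v => ∃ b, ∀ y, E y b ↔
      ∃ x, E x (v none) ∧ @Language.Formula.Realize LSet S (structOf E) _ φ
        (Sum.elim (fun c => v (some c)) ![x, y]))
      (fun o => (match o with | none => a | some c => c.1 : S))).2 ⟨b, fun x => hb x⟩
    obtain ⟨b', hb'⟩ := h5
    refine ⟨b', fun y => ?_⟩
    rw [hb' y]
    exact exists_congr fun x => and_congr_right fun _ => (h0 x y).symm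

end Pool.Agent.ZFIter.NPA.BSM
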