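import Pool.Agent.BSM.DefsG

/-!
# BSM/WGen: generic filters over countable models
-/

universe u v

namespace Pool.Agent.ZFIter.NPA.BSM

open Pool.Agent.H78.ZF Pool.Agent.ZFIter Pool.Agent.ZFIter.NPA

/-- Rasiowa-Sikorski: enumerate the elements `D₀, D₁, ...` of `M`; let `p_{n+1} ≤ p_n` be in `D_n` if
`D_n` is a dense subset of `P`; `G` is the set of all `q ∈ P` with `p_n ≤ q` for some `n`. -/
theorem exists_gen {M : Type u} [ZFM M] [Countable M] (P R : M) [Pre P R] (p0 : M)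
    (hp : p0 ∈ P) : ∃ G : M → Prop, Gen P R G ∧ G p0 := by
  classical
  have : Nonempty M := ⟨p0⟩
  obtain ⟨e, he⟩ := exists_surjective_nat M
  have hstep : ∀ (D : M) (p : {p // p ∈ P}), ∃ q : {p // p ∈ P}, Le P R q.1 p.1 ∧
      ((∀ p, p ∈ P → ∃ q, q ∈ D ∧ Le P R q p) → q.1 ∈ D) := by
    intro D p
    by_cases h : ∀ p, p ∈ P → ∃ q, q ∈ D ∧ Le P R q p
    · obtain ⟨q, hq, hqp⟩ := h p.1 p.2
      exact ⟨⟨q, hqp.1⟩, hqp, fun _ => hq⟩
    · exact ⟨p, Pre.refl p.2, fun h' => absurd h' h⟩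
  choose st hst1 hst2 using hstep
  let s : ℕ → {p // p ∈ P} := fun n => Nat.rec ⟨p0, hp⟩ (fun k p => st (e k) p) n
  have hs : ∀ n, s (n + 1) = st (e n) (s n) := fun n => rfl
  have hmono : ∀ n k, Le P R (s (n + k)).1 (s n).1 := by
    intro n k
    induction k with
    | zero => exact Pre.refl (s n).2
    | succ k ih =>
      rw [← Nat.add_assoc, hs]
      exact Pre.trans (hst1 _ _) ih
  have hmono' : ∀ {n m}, n ≤ m → Le P R (s m).1 (s n).1 := by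
    intro n m h
    obtain ⟨k, rfl⟩ := Nat.exists_eq_add_of_le h
    exact hmono n k
  refine ⟨fun q => ∃ n, Le P R (s n).1 q, ⟨?_, ?_, ?_, ?_, ?_⟩, ⟨0, Pre.refl hp⟩⟩
  · rintro q ⟨n, h⟩
    exact h.2.1
  · exact ⟨p0, 0, Pre.refl hp⟩
  · rintro p q ⟨n, h⟩ hpq
    exact ⟨n, Pre.trans h hpq⟩
  · rintro p q ⟨n, h⟩ ⟨m, h'⟩
    exact ⟨(s (max n m)).1, ⟨_, Pre.refl (s (max n m)).2⟩,
      Pre.trans (hmono' (le_max_left n m)) h, Pre.trans (hmono' (le_max_right n m)) h'⟩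
  · intro D _ hD
    obtain ⟨n, rfl⟩ := he D
    refine ⟨(s (n + 1)).1, ?_, n + 1, Pre.refl (s (n + 1)).2⟩
    rw [hs]
    exact hst2 _ _ hD

end Pool.Agent.ZFIter.NPA.BSM
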