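import Pool.Agent.BSM.WEl
import Pool.Agent.ZFIter.Copy

/-!
# BSM/WIn: inaccessible cardinals pass to elementary submodels and to copies

`InaccE E κ` is the definition of `Inacc` written out with the membership relation only (the notions of
`Pool.Agent.H78.ZF.Model`). It is uniformly definable (`UD`), and equivalent to `Inacc` in every model
of ZF (`Pool.Agent.H78.ZF.Bridge`).
-/

universe u v w

namespace Pool.Agent.ZFIter.NPA.BSM

open FirstOrder Pool.Agent.H78.ZF Pool.Agent.ZFIter Pool.Agent.ZFIter.NPA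

/-- `κ` is an inaccessible cardinal, written out. -/
def InaccE {M : Type u} (E : M → M → Prop) (κ : M) : Prop :=
  ((∀ y, E y κ → ∀ z, E z y → E z κ) ∧ ∀ y, E y κ → ∀ z, E z y → ∀ w, E w z → E w y) ∧
  (∃ w, IsOmega E w ∧ E w κ) ∧
  (∀ γ h, E γ κ → IsFun E h γ κ → ∃ η, E η κ ∧
    ∀ ξ, E ξ γ → ∀ y p, IsOPair E p ξ y → E p h → E y η) ∧
  ∀ γ, E γ κ → ∃ δ f P, E δ κ ∧ IsPowerset E P γ ∧ IsInj E f P δ

section ud

variable {ι : Type w}

instance UD.upair (i j k : ι) : UD.{u, w} (fun _ E v => IsUPair E (v i) (v j) (v k)) := by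
  unfold IsUPair
  infer_instance

instance UD.opair (i j k : ι) : UD.{u, w} (fun _ E v => IsOPair E (v i) (v j) (v k)) := by
  unfold IsOPair
  infer_instance

instance UD.exu (P : ∀ (S : Type u), (S → S → Prop) → S → (ι → S) → Prop)
    [h : UD (fun S E (v : ι → S) => ∃ x, P S E x v ∧ ∀ y, P S E y v → y = x)] :
    UD (fun S E v => ∃! x, P S E x v) := h

instance UD.isFun (i j k : ι) : UD.{u, w} (fun _ E v => IsFun E (v i) (v j) (v k)) := by
  unfold IsFun
  infer_instance

instance UD.isInj (i j k : ι) : UD.{u, w} (fun _ E v => IsInj E (v i) (v j) (v k)) := by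
  unfold IsInj
  infer_instance

instance UD.isInductive (i : ι) : UD.{u, w} (fun _ E v => IsInductive E (v i)) := by
  unfold IsInductive
  infer_instance

instance UD.isOmega (i : ι) : UD.{u, w} (fun _ E v => IsOmega E (v i)) := by
  unfold IsOmega
  infer_instance

instance UD.isPowerset (i j : ι) : UD.{u, w} (fun _ E v => IsPowerset E (v i) (v j)) := by
  unfold IsPowerset
  infer_instance

end ud

instance UD.InaccE : UD.{u, 0} (ι := Fin 1) (fun _ E v => InaccE E (v 0)) := by
  unfold BSM.InaccE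
  infer_instance

theorem inaccE_copy {M : Type u} {N : Type v} (e : M ≃ N) (E : M → M → Prop) (κ : M)
    (h : InaccE E κ) : InaccE (copyRel e E) (e κ) := by
  unfold InaccE IsOmega IsPowerset IsInj IsFun IsInductive IsOPair IsUPair ExistsUnique at h ⊢
  unfold copyRel
  simp only [e.symm.surjective.forall, e.symm.surjective.exists, e.symm.injective.eq_iff] at h
  simp only [Equiv.symm_apply_apply]
  exact h

theorem inaccE_iff {M : Type u} [ZFM M] (κ : M) : InaccE ZFM.E κ ↔ Inacc κ := by
  unfold InaccE Inacc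
  simp only [isOmega_iff, isFun_iff, isOPair_iff, isPowerset_iff, isInj_iff]
  refine and_congr Iff.rfl (and_congr ?_ (and_congr ?_ ?_))
  · constructor
    · rintro ⟨w, rfl, h⟩
      exact h
    · exact fun h => ⟨_, rfl, h⟩
  · refine forall_congr' fun γ => forall_congr' fun h => ?_
    refine forall_congr' fun hγ => forall_congr' fun hh => exists_congr fun η => ?_
    refine and_congr Iff.rfl ⟨fun h1 ξ hξ => h1 ξ hξ _ _ rfl (hh.opair_ap hξ), ?_⟩
    rintro h1 ξ hξ y p rfl hp
    rw [← hh.ap_eq hp]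
    exact h1 ξ hξ
  · refine forall_congr' fun γ => forall_congr' fun hγ => exists_congr fun δ =>
      exists_congr fun f => ?_
    constructor
    · rintro ⟨P, h1, rfl, h2⟩
      exact ⟨h1, h2⟩
    · rintro ⟨h1, h2⟩
      exact ⟨_, h1, rfl, h2⟩

/-- A countable model of ZF with an inaccessible cardinal, on a type in `Type`, from any model
(`exists_elem`, `zf_elem`, `Elem.ud`, `Countable.toSmall`, `equivShrink`, `isZFModel_copy`). -/
theorem exists_countable {M : Type u} [ZFM M] (κ : M) (h : Inacc κ) :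
    ∃ (S : Type) (_ : ZFM S), Countable S ∧ ∃ k : S, Inacc k := by
  obtain ⟨S, hc, hκ, hS⟩ := exists_elem κ
  have hc' : Countable S := hc.to_subtype
  have : Small.{0} S := Countable.toSmall S
  let e := equivShrink.{0} S
  let _ : ZFM (Shrink.{0} S) := ⟨copyRel e (rE ZFM.E S), isZFModel_copy e _ (zf_elem hS)⟩
  refine ⟨Shrink.{0} S, inferInstance, ?_, e ⟨κ, hκ⟩, ?_⟩
  · exact Countable.of_equiv S e
  · rw [← inaccE_iff]
    refine inaccE_copy e _ _ ?_
    have h1 := (hS.ud (ι := Fin 1) (fun _ E v => InaccE E (v 0)) ![⟨κ, hκ⟩]).2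
      ((inaccE_iff κ).2 h)
    exact h1

end Pool.Agent.ZFIter.NPA.BSM
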