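import Pool.Agent.BSM.WL
import Pool.Agent.BSM.WGen
import Pool.Agent.BSP.Coll

/-!
# BSM/WWf: the ground model can be taken well founded
-/

universe u v

namespace Pool.Agent.ZFIter.NPA.BSM

open Pool.Agent.H78.ZF Pool.Agent.ZFIter Pool.Agent.ZFIter.NPA

/-- A countable well founded model with an inaccessible cardinal. -/
theorem exists_countable_wf {M : Type u} [ZFM M] (κ : M) (h : Inacc κ)
    (hw : WellFounded (fun x y : M => x ∈ y)) :
    ∃ (S : Type) (_ : ZFM S), Countable S ∧ WellFounded (fun x y : S => x ∈ y) ∧ ∃ k : S, Inacc k := by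
  obtain ⟨S, hc, hκ, hS⟩ := exists_elem κ
  have hc' : Countable S := hc.to_subtype
  have : Small.{0} S := Countable.toSmall S
  let e := equivShrink.{0} S
  let _ : ZFM (Shrink.{0} S) := ⟨copyRel e (rE ZFM.E S), isZFModel_copy e _ (zf_elem hS)⟩
  refine ⟨Shrink.{0} S, inferInstance, ?_, ?_, e ⟨κ, hκ⟩, ?_⟩
  · exact Countable.of_equiv S e
  · exact InvImage.wf (fun x : Shrink.{0} S => ((e.symm x : S) : M)) hw
  · rw [← inaccE_iff]
    refine inaccE_copy e _ _ ?_
    have h1 := (hS.ud (ι := Fin 1) (fun _ E v => InaccE E (v 0)) ![⟨κ, hκ⟩]).2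
      ((inaccE_iff κ).2 h)
    exact h1

/-- There is a countable well founded model of ZF and `V = L` with a least inaccessible cardinal. -/
theorem exists_ground_wf : ∃ (M : Type) (_ : ZFM M), Countable M ∧
    WellFounded (fun x y : M => x ∈ y) ∧ (∀ x : M, InL emp x) ∧
    ∃ κ : M, Inacc κ ∧ ∀ μ, μ ∈ κ → ¬ Inacc μ := by
  obtain ⟨κ, hκ⟩ := exists_inacc
  have hw : WellFounded (fun x y : Z1 => x ∈ y) := ZFSet.mem_wf
  obtain ⟨S, _, hc, hwS, k, hk⟩ := exists_countable_wf κ hκ hw
  have hL : InL emp k := Inner.ord (K := InL emp) k hk.1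
  refine ⟨Sub (InL (emp : S)), inferInstance, ?_, ?_, fun x => vl_L x, ?_⟩
  · exact (inferInstance : Countable {x : S // InL emp x})
  · exact InvImage.wf (fun x : {x : S // InL emp x} => x.1) hwS
  · have h2 : ∃ κ : Sub (InL (emp : S)), Inacc κ := ⟨toSub k hL, inacc_L hk hL⟩
    exact exists_least_inacc h2

/-- An extension of a well founded model is well founded. -/
theorem isExt_wf {M : Type u} [ZFM M] {N : Type v} [ZFM N] {i : M → N} {G : M → Prop}
    (h : IsExt i G) (hw : WellFounded (fun x y : M => x ∈ y)) :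
    WellFounded (fun x y : N => x ∈ y) := by
  have h1 : ∀ a : M, ∀ x : N, x ∈ SP.vN (i a) → Acc (fun x y : N => x ∈ y) x := by
    intro a
    induction a using hw.induction with
    | _ a ih =>
      intro x hx
      obtain ⟨β, hβ, hx⟩ := SP.mem_vN.1 hx
      obtain ⟨b, rfl⟩ := h.trans a β hβ
      refine Acc.intro _ fun y hy => ih b ((h.mem b a).1 hβ) y (hx y hy)
  refine ⟨fun x => ?_⟩
  obtain ⟨α, hα, hx⟩ := SP.exists_vN x
  obtain ⟨a, rfl⟩ := h.ord α hα
  exact h1 a x hx

end Pool.Agent.ZFIter.NPA.BSM
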